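import Mathlib

set_option autoImplicit false

namespace Pool.Agent.Helper27.CpCube

open Set Filter Topology

variable {ι : Type}

/-- the function space over the Cantor cube -/
abbrev CX (ι : Type) : Type := {f : (ι → Bool) → ℝ // Continuous f}

/-- `RC g A`: the function `g` is continuous for pointwise convergence on `A`. -/
def RC (g : CX ι → ℝ) (A : Set (ι → Bool)) : Prop :=
  ∀ f : CX ι, ∀ ε : ℝ, 0 < ε → ∃ K : Finset (ι → Bool), (↑K : Set (ι → Bool)) ⊆ A ∧ ∃ δ : ℝ, 0 < δ ∧
    ∀ f' : CX ι, (∀ k ∈ K, |f'.1 k - f.1 k| < δ) → |g f' - g f| < ε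

lemma RC.mono {g : CX ι → ℝ} {A B : Set (ι → Bool)} (h : RC g A) (hAB : A ⊆ B) : RC g B := by
  intro f ε hε
  obtain ⟨K, hK, δ, hδ, h⟩ := h f ε hε
  exact ⟨K, hK.trans hAB, δ, hδ, h⟩

lemma RC_univ_of_continuous {g : CX ι → ℝ} (hg : Continuous g) : RC g univ := by
  intro f ε hε
  have h1 : {f' : CX ι | |g f' - g f| < ε} ∈ 𝓝 f := by
    have := (Metric.continuousAt_iff'.mp (hg.continuousAt (x := f))) ε hε
    exact this
  rw [nhds_subtype_eq_comap, mem_comap] at h1
  obtain ⟨t, ht, htsub⟩ := h1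
  rw [nhds_pi, Filter.mem_pi] at ht
  obtain ⟨I, hI, u, hu, huI⟩ := ht
  have h2 : ∀ᶠ δ in 𝓝[>] (0 : ℝ), ∀ i ∈ hI.toFinset, Metric.ball (f.1 i) δ ⊆ u i := by
    rw [Filter.eventually_all_finset]
    intro i _
    obtain ⟨δ, hδ, hδu⟩ := Metric.mem_nhds_iff.mp (hu i)
    have : ∀ᶠ δ' in 𝓝[>] (0 : ℝ), δ' < δ :=
      (gt_mem_nhds hδ).filter_mono nhdsWithin_le_nhds
    filter_upwards [this] with δ' hδ'
    exact (Metric.ball_subset_ball hδ'.le).trans hδu
  obtain ⟨δ, hδ1, hδ2⟩ := (h2.and self_mem_nhdsWithin).exists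
  refine ⟨hI.toFinset, subset_univ _, δ, hδ2, ?_⟩
  intro f' hf'
  apply htsub
  apply huI
  intro i hi
  apply hδ1 i (hI.mem_toFinset.mpr hi)
  rw [Metric.mem_ball, Real.dist_eq]
  exact hf' i (hI.mem_toFinset.mpr hi)

/-- interpolation on finite sets -/
lemma interp (K : Finset (ι → Bool)) (u : (ι → Bool) → ℝ) :
    ∃ f : CX ι, ∀ k ∈ K, f.1 k = u k := by
  have hcl : IsClosed (↑K : Set (ι → Bool)) := K.finite_toSet.isClosed
  have hd : DiscreteTopology (↑K : Set (ι → Bool)) := by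
    have : Finite (↑K : Set (ι → Bool)) := K.finite_toSet.to_subtype
    infer_instance
  obtain ⟨g, hg⟩ := ContinuousMap.exists_restrict_eq hcl
    (⟨fun k : (↑K : Set (ι → Bool)) => u k, continuous_of_discreteTopology⟩ : C(_, ℝ))
  refine ⟨⟨g, g.continuous⟩, ?_⟩
  intro k hk
  have := DFunLike.congr_fun hg ⟨k, hk⟩
  exact this

/-- Two prescriptions, one after the other. -/
lemma interp2 (K L : Finset (ι → Bool)) (u v : (ι → Bool) → ℝ) :
    ∃ f : CX ι, (∀ k ∈ K, f.1 k = u k) ∧ ∀ k ∈ L, k ∉ K → f.1 k = v k := by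
  classical
  obtain ⟨f, hf⟩ := interp (K ∪ L) (fun k => if k ∈ K then u k else v k)
  refine ⟨f, ?_, ?_⟩
  · intro k hk
    rw [hf k (Finset.mem_union_left _ hk), if_pos hk]
  · intro k hk hk'
    rw [hf k (Finset.mem_union_right _ hk), if_neg hk']

lemma RC.inter {g : CX ι → ℝ} {A B : Set (ι → Bool)} (hA : RC g A) (hB : RC g B) :
    RC g (A ∩ B) := by
  classical
  intro f ε hε
  obtain ⟨K, hK, δ, hδ, h⟩ := hB f (ε / 2) (by linarith)
  refine ⟨K.filter (· ∈ A), ?_, δ, hδ, ?_⟩
  · intro k hk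
    rw [Finset.mem_coe, Finset.mem_filter] at hk
    exact ⟨hk.2, hK hk.1⟩
  intro f' hf'
  obtain ⟨L, hL, δ', hδ', h'⟩ := hA f' (ε / 2) (by linarith)
  obtain ⟨h₀, h1, h2⟩ := interp2 L K f'.1 f.1
  have e1 : |g h₀ - g f| < ε / 2 := by
    apply h
    intro k hk
    by_cases hkL : k ∈ L
    · rw [h1 k hkL]
      exact hf' k (Finset.mem_filter.mpr ⟨hk, hL hkL⟩)
    · rw [h2 k hk hkL, sub_self, abs_zero]
      exact hδ
  have e2 : |g h₀ - g f'| < ε / 2 := by
    apply h'
    intro k hk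
    rw [h1 k hk, sub_self, abs_zero]
    exact hδ'
  have : g f' - g f = (g h₀ - g f) - (g h₀ - g f') := by ring
  rw [this]
  calc |(g h₀ - g f) - (g h₀ - g f')| ≤ |g h₀ - g f| + |g h₀ - g f'| := abs_sub _ _
    _ < ε / 2 + ε / 2 := add_lt_add e1 e2
    _ = ε := by ring

/-- the essential points of `g` -/
def ess (g : CX ι → ℝ) : Set (ι → Bool) := {q | ¬ RC g {q}ᶜ}

lemma RC_compl_finset {g : CX ι → ℝ} (hg : RC g univ) (M : Finset (ι → Bool))
    (hM : ∀ q ∈ M, q ∉ ess g) : RC g (↑M : Set (ι → Bool))ᶜ := by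
  classical
  induction M using Finset.induction_on with
  | empty =>
    apply hg.mono
    intro x _
    simp
  | insert a M ha ih =>
    have h1 := ih (fun q hq => hM q (Finset.mem_insert_of_mem hq))
    have h2 : RC g {a}ᶜ := by
      by_contra hcon
      exact hM a (Finset.mem_insert_self _ _) hcon
    apply (h2.inter h1).mono
    intro x hx
    simp only [mem_inter_iff, mem_compl_iff, mem_singleton_iff, Finset.mem_coe] at hx
    simp [hx.1, hx.2]

lemma ess_subset {g : CX ι → ℝ} {A : Set (ι → Bool)} (h : RC g A) : ess g ⊆ A := by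
  intro q hq
  by_contra hcon
  apply hq
  apply h.mono
  intro x hx hxq
  rw [mem_singleton_iff] at hxq
  rw [hxq] at hx
  exact hcon hx

theorem RC_ess {g : CX ι → ℝ} (hg : RC g univ) : RC g (ess g) := by
  classical
  intro f ε hε
  obtain ⟨K, -, δ, hδ, h⟩ := hg f (ε / 2) (by linarith)
  refine ⟨K.filter (· ∈ ess g), ?_, δ, hδ, ?_⟩
  · intro k hk
    rw [Finset.mem_coe, Finset.mem_filter] at hk
    exact hk.2
  intro f' hf'
  have hM := RC_compl_finset hg (K.filter (· ∉ ess g)) (by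
    intro q hq
    exact (Finset.mem_filter.mp hq).2)
  obtain ⟨L, hL, δ', hδ', h'⟩ := hM f' (ε / 2) (by linarith)
  obtain ⟨h₀, h1, h2⟩ := interp2 L K f'.1 f.1
  have e1 : |g h₀ - g f| < ε / 2 := by
    apply h
    intro k hk
    by_cases hkL : k ∈ L
    · rw [h1 k hkL]
      apply hf' k
      rw [Finset.mem_filter]
      refine ⟨hk, ?_⟩
      by_contra hcon
      have := hL hkL
      rw [mem_compl_iff, Finset.mem_coe, Finset.mem_filter] at this
      exact this ⟨hk, hcon⟩
    · rw [h2 k hk hkL, sub_self, abs_zero]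
      exact hδ
  have e2 : |g h₀ - g f'| < ε / 2 := by
    apply h'
    intro k hk
    rw [h1 k hk, sub_self, abs_zero]
    exact hδ'
  have : g f' - g f = (g h₀ - g f) - (g h₀ - g f') := by ring
  rw [this]
  calc |(g h₀ - g f) - (g h₀ - g f')| ≤ |g h₀ - g f| + |g h₀ - g f'| := abs_sub _ _
    _ < ε / 2 + ε / 2 := add_lt_add e1 e2
    _ = ε := by ring

lemma countable_finsets {α : Type} {S : Set α} (hS : S.Countable) :
    {K : Finset α | (↑K : Set α) ⊆ S}.Countable := by
  classical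
  have hsub : _root_.Countable {x // x ∈ S} := hS.to_subtype
  apply (countable_range
    (fun K : Finset {x // x ∈ S} => K.map (Function.Embedding.subtype _))).mono
  intro K hK
  have hK' : (↑K : Set α) ⊆ S := hK
  rw [mem_range]
  refine ⟨Finset.subtype (fun x => x ∈ S) K, ?_⟩
  ext x
  simp only [Finset.mem_map, Finset.mem_subtype, Function.Embedding.subtype_apply]
  constructor
  · rintro ⟨y, hy, rfl⟩
    exact hy
  · intro hx
    exact ⟨⟨x, hK' hx⟩, hx, rfl⟩

/-- closing off a countable set under a countable-valued operation on finite sets -/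
lemma closing {α : Type} (Φ : Finset α → Set α) (hΦ : ∀ K, (Φ K).Countable) (A₀ : Set α)
    (hA₀ : A₀.Countable) : ∃ A : Set α, A₀ ⊆ A ∧ A.Countable ∧
      ∀ K : Finset α, (↑K : Set α) ⊆ A → Φ K ⊆ A := by
  classical
  let S : ℕ → Set α := fun n =>
    Nat.rec A₀ (fun _ B => B ∪ ⋃ K ∈ {K : Finset α | (↑K : Set α) ⊆ B}, Φ K) n
  have hS0 : S 0 = A₀ := rfl
  have hS1 : ∀ n, S (n + 1) = S n ∪ ⋃ K ∈ {K : Finset α | (↑K : Set α) ⊆ S n}, Φ K := fun n => rfl
  have hcount : ∀ n, (S n).Countable := by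
    intro n
    induction n with
    | zero => rw [hS0]; exact hA₀
    | succ n ih =>
      rw [hS1]
      exact ih.union (Set.Countable.biUnion (countable_finsets ih) (fun K _ => hΦ K))
  have hmono : Monotone S := by
    apply monotone_nat_of_le_succ
    intro n
    rw [hS1]
    exact subset_union_left
  refine ⟨⋃ n, S n, ?_, countable_iUnion hcount, ?_⟩
  · rw [← hS0]
    exact subset_iUnion S 0
  · intro K hK
    have hex : ∃ n, (↑K : Set α) ⊆ S n := by
      have := Set.finite_subset_iUnion K.finite_toSet hK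
      obtain ⟨I, hI, hKI⟩ := this
      obtain ⟨N, hN⟩ := hI.bddAbove
      refine ⟨N, hKI.trans ?_⟩
      intro x hx
      rw [mem_iUnion₂] at hx
      obtain ⟨i, hi, hx⟩ := hx
      exact hmono (hN hi) hx
    obtain ⟨n, hn⟩ := hex
    refine Subset.trans ?_ (subset_iUnion S (n + 1))
    rw [hS1]
    refine Subset.trans ?_ subset_union_right
    intro x hx
    rw [mem_iUnion₂]
    exact ⟨K, hn, hx⟩

/-- one-sided countable dependence -/
lemma one_sided {g : CX ι → ℝ} (hg : RC g univ) : ∃ A : Set (ι → Bool), A.Countable ∧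
    ∀ f : CX ι, ∀ ε : ℝ, 0 < ε → ∃ K : Finset (ι → Bool), (↑K : Set (ι → Bool)) ⊆ A ∧
      ∃ δ : ℝ, 0 < δ ∧ ∀ f' : CX ι, (∀ k ∈ K, |f'.1 k - f.1 k| < δ) → g f' < g f + ε := by
  classical
  -- for each code choose a witness
  have hchoice : ∀ (K : Finset (ι → Bool)) (c : (K → ℚ) × ℚ × ℚ),
      ∃ L : Finset (ι → Bool), (∃ f : CX ι, (∀ k : K, |f.1 k - c.1 k| < c.2.1) ∧ (c.2.2 : ℝ) < g f) →
        ∃ f : CX ι, (∀ k : K, |f.1 k - c.1 k| < c.2.1) ∧ (c.2.2 : ℝ) < g f ∧
          ∀ f' : CX ι, (∀ k ∈ L, f'.1 k = f.1 k) → (c.2.2 : ℝ) < g f' := by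
    intro K c
    by_cases hex : ∃ f : CX ι, (∀ k : K, |f.1 k - c.1 k| < c.2.1) ∧ (c.2.2 : ℝ) < g f
    · obtain ⟨f, hf1, hf2⟩ := hex
      obtain ⟨L, -, δ, hδ, hL⟩ := hg f (g f - c.2.2) (by linarith)
      refine ⟨L, fun _ => ⟨f, hf1, hf2, ?_⟩⟩
      intro f' hf'
      have := hL f' (by
        intro k hk
        rw [hf' k hk, sub_self, abs_zero]
        exact hδ)
      rw [abs_lt] at this
      linarith [this.1]
    · exact ⟨∅, fun h => absurd h hex⟩
  choose L hL using hchoice
  obtain ⟨A, -, hA, hcl⟩ := closing (fun K => ⋃ c : (K → ℚ) × ℚ × ℚ, (↑(L K c) : Set (ι → Bool)))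
    (fun K => countable_iUnion (fun c => (L K c).countable_toSet)) ∅ countable_empty
  refine ⟨A, hA, ?_⟩
  intro f ε hε
  obtain ⟨K₀, -, δ₀, hδ₀, hK₀⟩ := hg f (ε / 2) (by linarith)
  -- the trace of `K₀` on `A`
  let K : Finset (ι → Bool) := K₀.filter (· ∈ A)
  have hKA : (↑K : Set (ι → Bool)) ⊆ A := by
    intro k hk
    exact (Finset.mem_filter.mp (Finset.mem_coe.mp hk)).2
  obtain ⟨δ, hδ1, hδ2⟩ := exists_rat_btwn (show (0 : ℝ) < δ₀ / 2 by linarith)
  have hu : ∀ k : K, ∃ u : ℚ, |f.1 k - u| < δ / 2 := by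
    intro k
    obtain ⟨u, hu1, hu2⟩ := exists_rat_btwn (show f.1 k - δ / 2 < f.1 k by linarith)
    refine ⟨u, ?_⟩
    rw [abs_lt]
    constructor <;> linarith
  choose u hu using hu
  refine ⟨K, hKA, δ / 2, by linarith, ?_⟩
  intro f' hf'
  by_contra hcon
  rw [not_lt] at hcon
  obtain ⟨p, hp1, hp2⟩ := exists_rat_btwn (show g f + ε / 2 < g f + ε by linarith)
  obtain ⟨h₀, hh1, hh2, hh3⟩ := hL K (u, δ, p) ⟨f', by
    intro k
    have h1 := hf' k k.2
    have h2 := hu k
    change |f'.1 k - u k| < δ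
    have : f'.1 k - u k = (f'.1 k - f.1 k) + (f.1 k - u k) := by ring
    rw [this]
    calc |(f'.1 k - f.1 k) + (f.1 k - u k)| ≤ |f'.1 k - f.1 k| + |f.1 k - u k| := abs_add_le _ _
      _ < δ / 2 + δ / 2 := add_lt_add h1 h2
      _ = δ := by ring, by
    change (p : ℝ) < g f'
    linarith⟩
  simp only at hh1 hh2 hh3
  obtain ⟨f₁, h1, h2⟩ := interp2 (K ∪ L K (u, δ, p)) K₀ h₀.1 f.1
  have e1 : (p : ℝ) < g f₁ := by
    apply hh3
    intro k hk
    exact h1 k (Finset.mem_union_right _ hk)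
  have e2 : |g f₁ - g f| < ε / 2 := by
    apply hK₀
    intro k hk
    by_cases hkA : k ∈ A
    · have hkK : k ∈ K := Finset.mem_filter.mpr ⟨hk, hkA⟩
      rw [h1 k (Finset.mem_union_left _ hkK)]
      have h3 := hh1 ⟨k, hkK⟩
      have h4 := hu ⟨k, hkK⟩
      simp only at h3 h4
      have : h₀.1 k - f.1 k = (h₀.1 k - u ⟨k, hkK⟩) - (f.1 k - u ⟨k, hkK⟩) := by ring
      rw [this]
      calc |(h₀.1 k - u ⟨k, hkK⟩) - (f.1 k - u ⟨k, hkK⟩)|
          ≤ |h₀.1 k - u ⟨k, hkK⟩| + |f.1 k - u ⟨k, hkK⟩| := abs_sub _ _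
        _ < δ + δ / 2 := add_lt_add h3 h4
        _ < δ₀ := by linarith
    · have hkn : k ∉ K ∪ L K (u, δ, p) := by
        intro hmem
        rw [Finset.mem_union] at hmem
        rcases hmem with hmem | hmem
        · exact hkA (hKA hmem)
        · apply hkA
          apply hcl K hKA
          rw [mem_iUnion]
          exact ⟨(u, δ, p), hmem⟩
      rw [h2 k hk hkn, sub_self, abs_zero]
      exact hδ₀
  rw [abs_lt] at e2
  linarith [e2.2]

lemma RC_neg {g : CX ι → ℝ} {A : Set (ι → Bool)} (h : RC g A) : RC (fun f => - g f) A := by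
  intro f ε hε
  obtain ⟨K, hK, δ, hδ, h⟩ := h f ε hε
  refine ⟨K, hK, δ, hδ, ?_⟩
  intro f' hf'
  have := h f' hf'
  rw [abs_lt] at this ⊢
  constructor <;> linarith [this.1, this.2]

/-- a continuous function depends continuously on countably many coordinates -/
lemma exists_countable_RC {g : CX ι → ℝ} (hg : RC g univ) :
    ∃ A : Set (ι → Bool), A.Countable ∧ RC g A := by
  classical
  obtain ⟨A, hA, h1⟩ := one_sided hg
  obtain ⟨B, hB, h2⟩ := one_sided (RC_neg hg)
  refine ⟨A ∪ B, hA.union hB, ?_⟩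
  intro f ε hε
  obtain ⟨K, hK, δ, hδ, h1⟩ := h1 f ε hε
  obtain ⟨L, hL, δ', hδ', h2⟩ := h2 f ε hε
  refine ⟨K ∪ L, ?_, min δ δ', lt_min hδ hδ', ?_⟩
  · rw [Finset.coe_union]
    exact union_subset_union hK hL
  · intro f' hf'
    have e1 := h1 f' (fun k hk => (hf' k (Finset.mem_union_left _ hk)).trans_le (min_le_left _ _))
    have e2 := h2 f' (fun k hk => (hf' k (Finset.mem_union_right _ hk)).trans_le (min_le_right _ _))
    rw [abs_lt]
    constructor <;> linarith

theorem countable_ess {g : CX ι → ℝ} (hg : RC g univ) : (ess g).Countable := by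
  obtain ⟨A, hA, h⟩ := exists_countable_RC hg
  exact hA.mono (ess_subset h)

open Classical in
/-- the retraction onto the coordinates in `S` -/
noncomputable def rho (S : Set ι) (x : ι → Bool) : ι → Bool := fun i => if i ∈ S then x i else false

lemma continuous_rho (S : Set ι) : Continuous (rho S) := by
  rw [continuous_pi_iff]
  intro i
  by_cases hi : i ∈ S
  · have : (fun x : ι → Bool => rho S x i) = fun x => x i := by
      funext x
      simp [rho, hi]
    rw [this]
    exact continuous_apply i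
  · have : (fun x : ι → Bool => rho S x i) = fun _ => false := by
      funext x
      simp [rho, hi]
    rw [this]
    exact continuous_const

lemma rho_rho {S T : Set ι} (h : S ⊆ T) (x : ι → Bool) : rho S (rho T x) = rho S x := by
  funext i
  by_cases hi : i ∈ S
  · simp [rho, hi, h hi]
  · simp [rho, hi]

/-- composition with the retraction -/
noncomputable def pull (S : Set ι) (f : CX ι) : CX ι := ⟨f.1 ∘ rho S, f.2.comp (continuous_rho S)⟩

/-- the restriction of `g` to functions of the coordinates in `S` -/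
noncomputable def gS (g : CX ι → ℝ) (S : Set ι) : CX ι → ℝ := fun f => g (pull S f)

lemma gS_gS (g : CX ι → ℝ) {S T : Set ι} (h : S ⊆ T) : gS (gS g T) S = gS g S := by
  funext f
  unfold gS
  congr 1
  apply Subtype.ext
  funext x
  change f.1 (rho S (rho T x)) = f.1 (rho S x)
  rw [rho_rho h]

lemma RC_gS {g : CX ι → ℝ} {A : Set (ι → Bool)} (h : RC g A) (S : Set ι) :
    RC (gS g S) (rho S '' A) := by
  classical
  intro f ε hε
  obtain ⟨K, hK, δ, hδ, h⟩ := h (pull S f) ε hε
  refine ⟨K.image (rho S), ?_, δ, hδ, ?_⟩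
  · rw [Finset.coe_image]
    exact image_mono hK
  · intro f' hf'
    apply h
    intro k hk
    exact hf' (rho S k) (Finset.mem_image_of_mem _ hk)

lemma RC_gS_univ {g : CX ι → ℝ} (h : RC g univ) (S : Set ι) : RC (gS g S) univ :=
  (RC_gS h S).mono (subset_univ _)

lemma ess_gS_subset {g : CX ι → ℝ} (h : RC g univ) (S : Set ι) :
    ess (gS g S) ⊆ rho S '' ess g :=
  ess_subset (RC_gS (RC_ess h) S)

/-- interpolation along an injective retraction -/
lemma interp_rho {E : Set (ι → Bool)} {S : Set ι} (hinj : InjOn (rho S) E)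
    (K : Finset (ι → Bool)) (hK : (↑K : Set (ι → Bool)) ⊆ E) (u : (ι → Bool) → ℝ) :
    ∃ f : CX ι, ∀ k ∈ K, f.1 (rho S k) = u k := by
  classical
  obtain ⟨f, hf⟩ := interp (K.image (rho S))
    (fun y => if h : ∃ k ∈ K, rho S k = y then u h.choose else 0)
  refine ⟨f, ?_⟩
  intro k hk
  rw [hf _ (Finset.mem_image_of_mem _ hk)]
  have hex : ∃ k' ∈ K, rho S k' = rho S k := ⟨k, hk, rfl⟩
  rw [dif_pos hex]
  have := hinj (hK hex.choose_spec.1) (hK hk) hex.choose_spec.2
  rw [this]

theorem subset_ess_gS {g : CX ι → ℝ} (h : RC g univ) {S : Set ι}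
    (hinj : InjOn (rho S) (ess g)) : rho S '' ess g ⊆ ess (gS g S) := by
  classical
  rintro _ ⟨q, hq, rfl⟩
  by_contra hcon
  have hgr : RC (gS g S) {rho S q}ᶜ := by
    by_contra hc
    exact hcon hc
  apply hq
  intro f₀ ε hε
  have hE := RC_ess h
  obtain ⟨K₀, hK₀, δ₀, hδ₀, h0⟩ := hE f₀ (ε / 3) (by linarith)
  refine ⟨K₀.erase q, ?_, δ₀, hδ₀, ?_⟩
  · intro k hk
    rw [Finset.mem_coe, Finset.mem_erase] at hk
    exact hk.1
  intro f₁ hf₁
  obtain ⟨K₁, hK₁, δ₁, hδ₁, h1⟩ := hE f₁ (ε / 3) (by linarith)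
  let K : Finset (ι → Bool) := insert q (K₀ ∪ K₁)
  have hK : (↑K : Set (ι → Bool)) ⊆ ess g := by
    intro k hk
    simp only [K, Finset.coe_insert, Finset.coe_union, mem_insert_iff, mem_union] at hk
    rcases hk with rfl | hk | hk
    · exact hq
    · exact hK₀ hk
    · exact hK₁ hk
  have hK₀K : ∀ k ∈ K₀, k ∈ K := fun k hk =>
    Finset.mem_insert_of_mem (Finset.mem_union_left _ hk)
  have hK₁K : ∀ k ∈ K₁, k ∈ K := fun k hk =>
    Finset.mem_insert_of_mem (Finset.mem_union_right _ hk)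
  obtain ⟨a₁, ha₁⟩ := interp_rho hinj K hK f₁.1
  obtain ⟨a₀, ha₀⟩ := interp_rho hinj K hK (fun k => if k = q then f₀.1 q else f₁.1 k)
  obtain ⟨L, hL, δ, hδ, h2⟩ := hgr a₀ (ε / 3) (by linarith)
  obtain ⟨b, hb1, hb2⟩ := interp2 (K.image (rho S)) L a₁.1 a₀.1
  -- three estimates
  have e1 : |g (pull S b) - g f₁| < ε / 3 := by
    apply h1
    intro k hk
    have : (pull S b).1 k = f₁.1 k := by
      change b.1 (rho S k) = f₁.1 k
      rw [hb1 _ (Finset.mem_image_of_mem _ (hK₁K k hk)), ha₁ k (hK₁K k hk)]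
    rw [this, sub_self, abs_zero]
    exact hδ₁
  have e2 : |gS g S b - gS g S a₀| < ε / 3 := by
    apply h2
    intro y hy
    by_cases hyK : y ∈ K.image (rho S)
    · obtain ⟨k, hk, rfl⟩ := Finset.mem_image.mp hyK
      rw [hb1 _ hyK, ha₁ k hk, ha₀ k hk]
      have hkq : k ≠ q := by
        intro hkq
        have := hL hy
        rw [hkq] at this
        exact this rfl
      rw [if_neg hkq, sub_self, abs_zero]
      exact hδ
    · rw [hb2 y hy hyK, sub_self, abs_zero]
      exact hδ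
  have e3 : |g (pull S a₀) - g f₀| < ε / 3 := by
    apply h0
    intro k hk
    have h3 : (pull S a₀).1 k = if k = q then f₀.1 q else f₁.1 k := ha₀ k (hK₀K k hk)
    rw [h3]
    split_ifs with hkq
    · rw [hkq, sub_self, abs_zero]
      exact hδ₀
    · exact hf₁ k (Finset.mem_erase.mpr ⟨hkq, hk⟩)
  have e2' : |g (pull S b) - g (pull S a₀)| < ε / 3 := e2
  rw [abs_lt] at e1 e2' e3 ⊢
  constructor <;> linarith [e1.1, e1.2, e2'.1, e2'.2, e3.1, e3.2]

/-- approximation of `G f` through the retraction -/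
lemma est {g₁ g : CX ι → ℝ} {S : Set ι} (h : RC g₁ univ) (hg : gS g₁ S = g)
    (hinj : InjOn (rho S) (ess g₁)) (H : (ι → Bool) → (ι → Bool)) (K : Finset (ι → Bool))
    (hH : ∀ k ∈ K, H k ∈ ess g₁ ∧ rho S (H k) = k) (f u : CX ι)
    (hfu : ∀ k ∈ K, f.1 (H k) = u.1 k) (ε : ℝ) (hε : 0 < ε) :
    ∃ v : CX ι, (∀ k ∈ K, v.1 k = u.1 k) ∧ |g v - g₁ f| < ε := by
  classical
  obtain ⟨L, hL, δ, hδ, h1⟩ := RC_ess h f ε hε
  have hM : (↑(L ∪ K.image H) : Set (ι → Bool)) ⊆ ess g₁ := by
    intro x hx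
    rw [Finset.coe_union, Finset.coe_image] at hx
    rcases hx with hx | ⟨k, hk, rfl⟩
    · exact hL hx
    · exact (hH k hk).1
  obtain ⟨v, hv⟩ := interp_rho hinj (L ∪ K.image H) hM f.1
  refine ⟨v, ?_, ?_⟩
  · intro k hk
    have h2 := hv (H k) (Finset.mem_union_right _ (Finset.mem_image_of_mem _ hk))
    rw [(hH k hk).2] at h2
    rw [h2, hfu k hk]
  · rw [← hg]
    apply h1
    intro k hk
    have h2 : (pull S v).1 k = f.1 k := hv k (Finset.mem_union_left _ hk)
    rw [h2, sub_self, abs_zero]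
    exact hδ

/-- the key lemma: a connected family of functionals with constant restriction to the functions
of the coordinates in `S` and without splitting is constant -/
theorem key {T : Type} [TopologicalSpace T] [PreconnectedSpace T] (G : T → CX ι → ℝ)
    (hG : ∀ t, RC (G t) univ) (hcont : ∀ f, Continuous (fun t => G t f)) (S : Set ι)
    (hconst : ∀ t t', gS (G t) S = gS (G t') S)
    (hinj : ∀ t, InjOn (rho S) (ess (G t))) (t t' : T) (f : CX ι) : G t f = G t' f := by
  classical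
  set g : CX ι → ℝ := gS (G t) S with hgdef
  have hg : ∀ s, gS (G s) S = g := fun s => hconst s t
  have hgRC : RC g univ := RC_gS_univ (hG t) S
  have hE : ∀ s, rho S '' ess (G s) = ess g := by
    intro s
    rw [← hg s]
    exact Subset.antisymm (subset_ess_gS (hG s) (hinj s)) (ess_gS_subset (hG s) S)
  have hex : ∀ s, ∀ q, ∃ z, q ∈ ess g → z ∈ ess (G s) ∧ rho S z = q := by
    intro s q
    by_cases hq : q ∈ ess g
    · rw [← hE s] at hq
      obtain ⟨z, hz, hzq⟩ := hq
      exact ⟨z, fun _ => ⟨hz, hzq⟩⟩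
    · exact ⟨q, fun h => absurd h hq⟩
  choose H hH using hex
  -- the lifting does not depend on the parameter
  have hconstH : ∀ q ∈ ess g, ∀ i, ∀ s s', H s q i = true → H s' q i = false → False := by
    intro q hq i s s' hs hs'
    have hq' := hq
    change ¬ RC g {q}ᶜ at hq'
    unfold RC at hq'
    push Not at hq'
    obtain ⟨f₀, ε, hε, hf₀⟩ := hq'
    have hEg := RC_ess hgRC
    obtain ⟨K₀, hK₀, δ₀, hδ₀, h0⟩ := hEg f₀ (ε / 10) (by linarith)
    obtain ⟨f₁, hf₁, hlarge⟩ := hf₀ (K₀.erase q) (by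
      intro k hk
      rw [Finset.mem_coe, Finset.mem_erase] at hk
      exact hk.1) δ₀ hδ₀
    obtain ⟨K₁, hK₁, δ₁, hδ₁, h1⟩ := hEg f₁ (ε / 10) (by linarith)
    let K : Finset (ι → Bool) := insert q (K₀ ∪ K₁)
    have hK : ∀ k ∈ K, k ∈ ess g := by
      intro k hk
      simp only [K, Finset.mem_insert, Finset.mem_union] at hk
      rcases hk with rfl | hk | hk
      · exact hq
      · exact hK₀ hk
      · exact hK₁ hk
    have hK₀K : ∀ k ∈ K₀, k ∈ K := fun k hk =>
      Finset.mem_insert_of_mem (Finset.mem_union_left _ hk)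
    have hK₁K : ∀ k ∈ K₁, k ∈ K := fun k hk =>
      Finset.mem_insert_of_mem (Finset.mem_union_right _ hk)
    obtain ⟨a₁, ha₁⟩ := interp K f₁.1
    obtain ⟨a₀, ha₀⟩ := interp K (fun k => if k = q then f₀.1 q else f₁.1 k)
    -- the test function
    let χ : Bool → ℝ := fun b => if b = true then 1 else 0
    have hχ : Continuous (fun x : ι → Bool => χ (x i)) :=
      (continuous_of_discreteTopology (f := χ)).comp (continuous_apply i)
    let φ : CX ι := ⟨fun x => χ (x i) * (pull S a₁).1 x + (1 - χ (x i)) * (pull S a₀).1 x,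
      (hχ.mul (pull S a₁).2).add ((continuous_const.sub hχ).mul (pull S a₀).2)⟩
    have hφ1 : ∀ r k, k ∈ K → H r k i = true → φ.1 (H r k) = a₁.1 k := by
      intro r k hk hr
      change χ (H r k i) * a₁.1 (rho S (H r k)) + (1 - χ (H r k i)) * a₀.1 (rho S (H r k)) = a₁.1 k
      rw [hr, (hH r k (hK k hk)).2]
      simp [χ]
    have hφ0 : ∀ r k, k ∈ K → H r k i = false → φ.1 (H r k) = a₀.1 k := by
      intro r k hk hr
      change χ (H r k i) * a₁.1 (rho S (H r k)) + (1 - χ (H r k i)) * a₀.1 (rho S (H r k)) = a₀.1 k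
      rw [hr, (hH r k (hK k hk)).2]
      simp [χ]
    have ha : ∀ k ∈ K, k ≠ q → a₀.1 k = a₁.1 k := by
      intro k hk hkq
      rw [ha₀ k hk, ha₁ k hk, if_neg hkq]
    -- the two alternatives
    have alt1 : ∀ r, H r q i = true → |G r φ - g f₁| < ε / 5 := by
      intro r hr
      obtain ⟨v, hv1, hv2⟩ := est (hG r) (hg r) (hinj r) (H r) K (fun k hk => hH r k (hK k hk))
        φ a₁ (by
          intro k hk
          rcases Bool.eq_false_or_eq_true (H r k i) with hb | hb
          · exact hφ1 r k hk hb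
          · rw [hφ0 r k hk hb]
            apply ha k hk
            rintro rfl
            rw [hr] at hb
            exact absurd hb (by simp)) (ε / 10) (by linarith)
      have e1 : |g v - g f₁| < ε / 10 := by
        apply h1
        intro k hk
        rw [hv1 k (hK₁K k hk), ha₁ k (hK₁K k hk), sub_self, abs_zero]
        exact hδ₁
      rw [abs_lt] at e1 hv2 ⊢
      constructor <;> linarith [e1.1, e1.2, hv2.1, hv2.2]
    have alt0 : ∀ r, H r q i = false → |G r φ - g f₀| < ε / 5 := by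
      intro r hr
      obtain ⟨v, hv1, hv2⟩ := est (hG r) (hg r) (hinj r) (H r) K (fun k hk => hH r k (hK k hk))
        φ a₀ (by
          intro k hk
          rcases Bool.eq_false_or_eq_true (H r k i) with hb | hb
          · rw [hφ1 r k hk hb]
            symm
            apply ha k hk
            rintro rfl
            rw [hr] at hb
            exact absurd hb (by simp)
          · exact hφ0 r k hk hb) (ε / 10) (by linarith)
      have e1 : |g v - g f₀| < ε / 10 := by
        apply h0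
        intro k hk
        rw [hv1 k (hK₀K k hk), ha₀ k (hK₀K k hk)]
        split_ifs with hkq
        · rw [hkq, sub_self, abs_zero]
          exact hδ₀
        · exact hf₁ k (Finset.mem_erase.mpr ⟨hkq, hk⟩)
      rw [abs_lt] at e1 hv2 ⊢
      constructor <;> linarith [e1.1, e1.2, hv2.1, hv2.2]
    have alt : ∀ r, |G r φ - g f₁| < ε / 5 ∨ |G r φ - g f₀| < ε / 5 := by
      intro r
      rcases Bool.eq_false_or_eq_true (H r q i) with hb | hb
      · exact Or.inl (alt1 r hb)
      · exact Or.inr (alt0 r hb)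
    -- intermediate value
    have b1 := alt1 s hs
    have b0 := alt0 s' hs'
    rw [abs_lt] at b1 b0
    rcases le_abs.mp hlarge with hl | hl
    · have hm : (g f₁ + g f₀) / 2 ∈ range (fun r => G r φ) :=
        mem_range_of_exists_le_of_exists_ge (hcont φ) ⟨s', by linarith [b0.2]⟩
          ⟨s, by linarith [b1.1]⟩
      obtain ⟨r, hr⟩ := hm
      simp only at hr
      rcases alt r with hr' | hr' <;> rw [hr, abs_lt] at hr' <;> linarith [hr'.1, hr'.2]
    · have hm : (g f₁ + g f₀) / 2 ∈ range (fun r => G r φ) :=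
        mem_range_of_exists_le_of_exists_ge (hcont φ) ⟨s, by linarith [b1.2]⟩
          ⟨s', by linarith [b0.1]⟩
      obtain ⟨r, hr⟩ := hm
      simp only at hr
      rcases alt r with hr' | hr' <;> rw [hr, abs_lt] at hr' <;> linarith [hr'.1, hr'.2]
  have hHeq : ∀ q ∈ ess g, ∀ s s', H s q = H s' q := by
    intro q hq s s'
    funext i
    rcases Bool.eq_false_or_eq_true (H s q i) with hb | hb <;>
      rcases Bool.eq_false_or_eq_true (H s' q i) with hb' | hb'
    · rw [hb, hb']
    · exact absurd (hconstH q hq i s s' hb hb') (by simp)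
    · exact absurd (hconstH q hq i s' s hb' hb) (by simp)
    · rw [hb, hb']
  have hess : ∀ s s', ess (G s) ⊆ ess (G s') := by
    intro s s' x hx
    have hq : rho S x ∈ ess g := by
      rw [← hE s]
      exact ⟨x, hx, rfl⟩
    have h1 : x = H s (rho S x) := hinj s hx (hH s _ hq).1 (hH s _ hq).2.symm
    rw [h1, hHeq _ hq s s']
    exact (hH s' _ hq).1
  -- conclusion
  by_contra hne
  have hpos : 0 < |G t f - G t' f| := abs_pos.mpr (sub_ne_zero.mpr hne)
  set ε := |G t f - G t' f| with hεdef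
  obtain ⟨L, hL, δ, hδ, h1⟩ := RC_ess (hG t) f (ε / 2) (by linarith)
  obtain ⟨L', hL', δ', hδ', h2⟩ := RC_ess (hG t') f (ε / 2) (by linarith)
  have hM : (↑(L ∪ L') : Set (ι → Bool)) ⊆ ess (G t) := by
    rw [Finset.coe_union]
    exact union_subset hL (hL'.trans (hess t' t))
  obtain ⟨v, hv⟩ := interp_rho (hinj t) (L ∪ L') hM f.1
  have e1 : |G t (pull S v) - G t f| < ε / 2 := by
    apply h1
    intro k hk
    have h3 : (pull S v).1 k = f.1 k := hv k (Finset.mem_union_left _ hk)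
    rw [h3, sub_self, abs_zero]
    exact hδ
  have e2 : |G t' (pull S v) - G t' f| < ε / 2 := by
    apply h2
    intro k hk
    have h3 : (pull S v).1 k = f.1 k := hv k (Finset.mem_union_right _ hk)
    rw [h3, sub_self, abs_zero]
    exact hδ'
  have e3 : G t (pull S v) = G t' (pull S v) := congrFun (hconst t t') v
  rw [e3] at e1
  have : ε < ε := by
    calc ε = |(G t' (pull S v) - G t' f) - (G t' (pull S v) - G t f)| := by
          rw [hεdef]
          congr 1
          ring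
      _ ≤ |G t' (pull S v) - G t' f| + |G t' (pull S v) - G t f| := abs_sub _ _
      _ < ε / 2 + ε / 2 := add_lt_add e2 e1
      _ = ε := by ring
  exact lt_irrefl _ this

end Pool.Agent.Helper27.CpCube
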