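import Pool.Agent.Helper27.CpCube

set_option autoImplicit false

namespace Pool.Agent.Helper27.CpCube

open Set Filter Topology

variable {ι : Type}

/-- the Tychonoff cube -/
abbrev YY (ι : Type) : Type := ι → unitInterval

open Classical in
/-- the point equal to `y` on `S` and to `z` off `S` -/
noncomputable def mix (S : Set ι) (y z : YY ι) : YY ι := fun i => if i ∈ S then y i else z i

lemma mix_of_mem {S : Set ι} {i : ι} (hi : i ∈ S) (y z : YY ι) : mix S y z i = y i := by
  simp [mix, hi]

lemma mix_of_not_mem {S : Set ι} {i : ι} (hi : i ∉ S) (y z : YY ι) : mix S y z i = z i := by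
  simp [mix, hi]

lemma mix_eq_left {S : Set ι} {y z w : YY ι} (h : ∀ i ∈ S, y i = z i) : mix S y w = mix S z w := by
  funext i
  by_cases hi : i ∈ S
  · rw [mix_of_mem hi, mix_of_mem hi, h i hi]
  · rw [mix_of_not_mem hi, mix_of_not_mem hi]

lemma mix_self_of_eq {S : Set ι} {y z : YY ι} (h : ∀ i ∈ S, y i = z i) : mix S y z = z := by
  funext i
  by_cases hi : i ∈ S
  · rw [mix_of_mem hi, h i hi]
  · rw [mix_of_not_mem hi]

lemma continuous_mix_right (S : Set ι) (y : YY ι) : Continuous (fun z => mix S y z) := by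
  rw [continuous_pi_iff]
  intro i
  by_cases hi : i ∈ S
  · simp only [mix_of_mem hi]
    exact continuous_const
  · simp only [mix_of_not_mem hi]
    exact continuous_apply i

lemma continuous_mix_left (S : Set ι) (z : YY ι) : Continuous (fun y => mix S y z) := by
  rw [continuous_pi_iff]
  intro i
  by_cases hi : i ∈ S
  · simp only [mix_of_mem hi]
    exact continuous_apply i
  · simp only [mix_of_not_mem hi]
    exact continuous_const

/-- continuous functions on the cube depend on countably many coordinates -/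
lemma dep_countable (h : YY ι → ℝ) (hh : Continuous h) : ∃ S : Set ι, S.Countable ∧
    ∀ y y' : YY ι, (∀ i ∈ S, y i = y' i) → h y = h y' := by
  have huc : UniformContinuous h := CompactSpace.uniformContinuous_of_continuous hh
  have hn : ∀ n : ℕ, ∃ S : Set ι, S.Finite ∧ ∀ y y' : YY ι, (∀ i ∈ S, y i = y' i) →
      |h y - h y'| < 1 / ((n : ℝ) + 1) := by
    intro n
    have h1 : {p : YY ι × YY ι | |h p.1 - h p.2| < 1 / ((n : ℝ) + 1)} ∈ uniformity (YY ι) := by
      have h2 := Metric.dist_mem_uniformity (α := ℝ) (show (0 : ℝ) < 1 / ((n : ℝ) + 1) by positivity)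
      exact huc h2
    rw [Pi.uniformity, Filter.mem_iInf] at h1
    obtain ⟨I, hI, V, hV, hVeq⟩ := h1
    refine ⟨I, hI, ?_⟩
    intro y y' hyy'
    have h3 : (y, y') ∈ {p : YY ι × YY ι | |h p.1 - h p.2| < 1 / ((n : ℝ) + 1)} := by
      rw [hVeq, mem_iInter]
      intro i
      obtain ⟨u, hu, huV⟩ := Filter.mem_comap.mp (hV i)
      apply huV
      change ((y i, y' i) : unitInterval × unitInterval) ∈ u
      rw [hyy' i i.2]
      exact refl_mem_uniformity hu
    exact h3
  choose S hS1 hS2 using hn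
  refine ⟨⋃ n, S n, countable_iUnion (fun n => (hS1 n).countable), ?_⟩
  intro y y' hyy'
  by_contra hne
  have hpos : 0 < |h y - h y'| := abs_pos.mpr (sub_ne_zero.mpr hne)
  obtain ⟨n, hn⟩ := exists_nat_one_div_lt hpos
  have := hS2 n y y' (fun i hi => hyy' i (mem_iUnion.mpr ⟨n, hi⟩))
  linarith

section Main

variable (F : CX ι → YY ι → ℝ)

/-- `S` is closed for `F` -/
def Cl (S : Set ι) : Prop :=
  ∀ (f : CX ι) (y y' : YY ι), (∀ i ∈ S, y i = y' i) → F (pull S f) y = F (pull S f) y'

/-- separating finitely many points by finitely many coordinates of `S` -/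
lemma sep (M : Finset (ι → Bool)) (S : Set ι) : ∃ K : Finset ι, (↑K : Set ι) ⊆ S ∧
    ∀ x ∈ M, ∀ x' ∈ M, (∀ i ∈ K, x i = x' i) → rho S x = rho S x' := by
  classical
  have hex : ∀ p : (ι → Bool) × (ι → Bool), ∃ K : Finset ι, (↑K : Set ι) ⊆ S ∧
      ((∀ i ∈ K, p.1 i = p.2 i) → rho S p.1 = rho S p.2) := by
    intro p
    by_cases h : ∃ i ∈ S, p.1 i ≠ p.2 i
    · obtain ⟨i, hi, hne⟩ := h
      refine ⟨{i}, ?_, ?_⟩
      · simpa using hi
      · intro hcon
        exact absurd (hcon i (Finset.mem_singleton_self i)) hne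
    · push Not at h
      refine ⟨∅, by simp, ?_⟩
      intro _
      funext i
      by_cases hi : i ∈ S
      · simp [rho, hi, h i hi]
      · simp [rho, hi]
  choose K hK1 hK2 using hex
  refine ⟨(M ×ˢ M).biUnion K, ?_, ?_⟩
  · intro i hi
    rw [Finset.mem_coe, Finset.mem_biUnion] at hi
    obtain ⟨p, _, hp⟩ := hi
    exact hK1 p hp
  · intro x hx x' hx' h
    apply hK2 (x, x')
    intro i hi
    apply h
    rw [Finset.mem_biUnion]
    exact ⟨(x, x'), Finset.mem_product.mpr ⟨hx, hx'⟩, hi⟩

/-- rational valued functions of finitely many coordinates -/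
noncomputable def fw (K : Finset ι) (w : (K → Bool) → ℚ) : CX ι :=
  ⟨fun x => (w (fun i => x i) : ℝ), by
    have h1 : Continuous (fun x : ι → Bool => (fun i : K => x i)) := by
      rw [continuous_pi_iff]
      intro i
      exact continuous_apply _
    have h2 : Continuous (fun v : K → Bool => (w v : ℝ)) := continuous_of_discreteTopology
    exact h2.comp h1⟩

variable {F}

lemma exists_Cl (hF1 : ∀ y, RC (fun f => F f y) univ) (hF2 : ∀ f, Continuous (F f))
    (S₀ : Set ι) (hS₀ : S₀.Countable) : ∃ S : Set ι, S₀ ⊆ S ∧ S.Countable ∧ Cl F S := by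
  classical
  have hD : ∀ (K : Finset ι) (w : (K → Bool) → ℚ), ∃ D : Set ι, D.Countable ∧
      ∀ y y' : YY ι, (∀ i ∈ D, y i = y' i) → F (fw K w) y = F (fw K w) y' :=
    fun K w => dep_countable _ (hF2 _)
  choose D hD1 hD2 using hD
  obtain ⟨S, hS0, hS1, hS2⟩ := closing (fun K => ⋃ w : (K → Bool) → ℚ, D K w)
    (fun K => countable_iUnion (fun w => hD1 K w)) S₀ hS₀
  refine ⟨S, hS0, hS1, ?_⟩
  intro f y y' hyy'
  by_contra hne
  have hpos : 0 < |F (pull S f) y - F (pull S f) y'| := abs_pos.mpr (sub_ne_zero.mpr hne)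
  set ε := |F (pull S f) y - F (pull S f) y'| with hε
  obtain ⟨L, -, δ, hδ, h1⟩ := hF1 y (pull S f) (ε / 2) (by linarith)
  obtain ⟨L', -, δ', hδ', h2⟩ := hF1 y' (pull S f) (ε / 2) (by linarith)
  obtain ⟨K, hK1, hK2⟩ := sep (L ∪ L') S
  have hδδ : 0 < min δ δ' := lt_min hδ hδ'
  have hq : ∀ r : ℝ, ∃ q : ℚ, |(q : ℝ) - r| < min δ δ' := by
    intro r
    obtain ⟨q, hq1, hq2⟩ := exists_rat_btwn (show r < r + min δ δ' by linarith)
    refine ⟨q, ?_⟩
    rw [abs_lt]
    constructor <;> linarith
  choose Q hQ using hq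
  let w : (K → Bool) → ℚ := fun v =>
    if h : ∃ x ∈ L ∪ L', ∀ i : K, x i = v i then Q (f.1 (rho S h.choose)) else 0
  have hw : ∀ x ∈ L ∪ L', |(fw K w).1 x - (pull S f).1 x| < min δ δ' := by
    intro x hx
    have hex : ∃ x' ∈ L ∪ L', ∀ i : K, x' i = (fun i : K => x i) i := ⟨x, hx, fun i => rfl⟩
    have h3 : (fw K w).1 x = (Q (f.1 (rho S hex.choose)) : ℝ) := by
      change ((w (fun i : K => x i) : ℚ) : ℝ) = _
      simp only [w]
      rw [dif_pos hex]
    have h4 : rho S hex.choose = rho S x := by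
      apply hK2 _ hex.choose_spec.1 _ hx
      intro i hi
      exact hex.choose_spec.2 ⟨i, hi⟩
    rw [h3, h4]
    exact hQ _
  have e1 : |F (fw K w) y - F (pull S f) y| < ε / 2 := h1 (fw K w) (fun k hk =>
    (hw k (Finset.mem_union_left _ hk)).trans_le (min_le_left _ _))
  have e2 : |F (fw K w) y' - F (pull S f) y'| < ε / 2 := h2 (fw K w) (fun k hk =>
    (hw k (Finset.mem_union_right _ hk)).trans_le (min_le_right _ _))
  have e3 : F (fw K w) y = F (fw K w) y' := by
    apply hD2
    intro i hi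
    apply hyy'
    apply hS2 K hK1
    exact mem_iUnion.mpr ⟨w, hi⟩
  rw [e3] at e1
  have : ε < ε := by
    calc ε = |(F (fw K w) y' - F (pull S f) y') - (F (fw K w) y' - F (pull S f) y)| := by
          rw [hε]
          congr 1
          ring
      _ ≤ |F (fw K w) y' - F (pull S f) y'| + |F (fw K w) y' - F (pull S f) y| := abs_sub _ _
      _ < ε / 2 + ε / 2 := add_lt_add e2 e1
      _ = ε := by ring
  exact lt_irrefl _ this

variable (F)

/-- points at which the functional is not determined by the coordinates in `S` -/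
def MS (S : Set ι) : Set (YY ι) :=
  {y | ∃ y' : YY ι, (∀ i ∈ S, y i = y' i) ∧ ∃ f, F f y ≠ F f y'}

variable {F}

lemma MS_anti {S T : Set ι} (h : S ⊆ T) : MS F T ⊆ MS F S := by
  rintro y ⟨y', h1, h2⟩
  exact ⟨y', fun i hi => h1 i (h hi), h2⟩

/-- If the functionals do not depend on countably many coordinates then this happens
uniformly above some finite condition. -/
lemma claimW (hF2 : ∀ f, Continuous (F f))
    (H : ∀ S : Set ι, S.Countable → (MS F S).Nonempty) :
    ∃ (F₀ : Finset ι) (y₀ : YY ι), ∀ y : YY ι, (∀ i ∈ F₀, y i = y₀ i) →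
      ∀ S : Set ι, S.Countable → y ∈ MS F S := by
  classical
  by_contra hcon
  push Not at hcon
  -- hcon : ∀ F₀ y₀, ∃ y, agree ∧ ∃ S countable, y ∉ MS F S
  choose yy hyy SS hSS hySS using hcon
  let pt : (K : Finset ι) → (K → ℕ) → YY ι := fun K v i =>
    if h : i ∈ K then TopologicalSpace.denseSeq unitInterval (v ⟨i, h⟩) else 0
  obtain ⟨S, -, hS1, hS2⟩ := closing (fun K => ⋃ v : K → ℕ, SS K (pt K v))
    (fun K => countable_iUnion (fun v => hSS K (pt K v))) ∅ countable_empty
  obtain ⟨y, y', hyy', f, hf⟩ := H S hS1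
  -- the open set
  let U : Set (YY ι) := {z | F f (mix S z y) ≠ F f (mix S z y')}
  have hUopen : IsOpen U := by
    have hc : Continuous (fun z => F f (mix S z y) - F f (mix S z y')) :=
      ((hF2 f).comp (continuous_mix_left S y)).sub ((hF2 f).comp (continuous_mix_left S y'))
    have : U = (fun z => F f (mix S z y) - F f (mix S z y')) ⁻¹' {0}ᶜ := by
      ext z
      simp only [U, mem_ofPred_eq, mem_preimage, mem_compl_iff, mem_singleton_iff, sub_eq_zero]
    rw [this]
    exact isOpen_compl_singleton.preimage hc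
  have hyU : y ∈ U := by
    change F f (mix S y y) ≠ F f (mix S y y')
    rw [mix_self_of_eq (fun i _ => rfl), mix_self_of_eq hyy']
    exact hf
  have hUM : U ⊆ MS F S := by
    intro z hz
    have hz' : F f (mix S z y) ≠ F f (mix S z y') := hz
    by_cases hc : F f z = F f (mix S z y)
    · refine ⟨mix S z y', fun i hi => (mix_of_mem hi _ _).symm, f, ?_⟩
      rw [hc]
      exact hz'
    · exact ⟨mix S z y, fun i hi => (mix_of_mem hi _ _).symm, f, hc⟩
  have hUdep : ∀ z z' : YY ι, (∀ i ∈ S, z i = z' i) → z ∈ U → z' ∈ U := by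
    intro z z' h hz
    change F f (mix S z' y) ≠ F f (mix S z' y')
    rw [← mix_eq_left h, ← mix_eq_left h]
    exact hz
  -- a basic neighbourhood
  have hnhds := hUopen.mem_nhds hyU
  rw [nhds_pi, Filter.mem_pi] at hnhds
  obtain ⟨I, hI, t, ht, htU⟩ := hnhds
  let K : Finset ι := hI.toFinset.filter (· ∈ S)
  have hKS : (↑K : Set ι) ⊆ S := by
    intro i hi
    exact (Finset.mem_filter.mp (Finset.mem_coe.mp hi)).2
  have hv : ∀ i : K, ∃ n : ℕ, TopologicalSpace.denseSeq unitInterval n ∈ t i := by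
    intro i
    have := (TopologicalSpace.denseRange_denseSeq unitInterval).exists_mem_open
      isOpen_interior ⟨y i, mem_interior_iff_mem_nhds.mpr (ht i)⟩
    obtain ⟨n, hn⟩ := this
    exact ⟨n, interior_subset hn⟩
  choose v hv using hv
  have hmem : yy K (pt K v) ∈ U := by
    apply hUdep (mix S (yy K (pt K v)) y)
    · intro i hi
      exact mix_of_mem hi _ _
    · apply htU
      intro i hi
      by_cases hiS : i ∈ S
      · rw [mix_of_mem hiS]
        have hiK : i ∈ K := Finset.mem_filter.mpr ⟨hI.mem_toFinset.mpr hi, hiS⟩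
        rw [hyy K (pt K v) i hiK]
        have : pt K v i = TopologicalSpace.denseSeq unitInterval (v ⟨i, hiK⟩) := by
          simp only [pt]
          rw [dif_pos hiK]
        rw [this]
        exact hv ⟨i, hiK⟩
      · rw [mix_of_not_mem hiS]
        exact mem_of_mem_nhds (ht i)
  apply hySS K (pt K v)
  refine MS_anti ?_ (hUM hmem)
  refine Subset.trans ?_ (hS2 K hKS)
  exact subset_iUnion (fun v => SS K (pt K v)) v

/-- a split extension exists -/
lemma exists_split (hF1 : ∀ y, RC (fun f => F f y) univ) (hF2 : ∀ f, Continuous (F f))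
    {S : Set ι} (hCl : Cl F S) {y : YY ι} (hy : y ∈ MS F S) :
    ∃ y' : YY ι, (∀ i ∈ S, y' i = y i) ∧ ¬ InjOn (rho S) (ess (fun f => F f y')) := by
  by_contra hcon
  push Not at hcon
  have hkey := key (T := YY ι) (fun t f => F f (mix S y t)) (fun t => hF1 _)
    (fun f => (hF2 f).comp (continuous_mix_right S y)) S (by
      intro t t'
      funext f
      apply hCl
      intro i hi
      rw [mix_of_mem hi, mix_of_mem hi]) (fun t => hcon _ (fun i hi => mix_of_mem hi _ _))
  obtain ⟨y', hyy', f, hf⟩ := hy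
  have : F f (mix S y y) = F f (mix S y y') := hkey y y' f
  rw [mix_self_of_eq (fun i _ => rfl), mix_self_of_eq hyy'] at this
  exact hf this

end Main

end Pool.Agent.Helper27.CpCube
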