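import Pool.Agent.Helper27.CpCube2

set_option autoImplicit false

namespace Pool.Agent.Helper27.CpCube

open Set Filter Topology

variable {ι : Type}

/-- essential points of the restricted functional -/
def EE (F : CX ι → YY ι → ℝ) (S : Set ι) (y : YY ι) : Set (ι → Bool) :=
  ess (gS (fun f => F f y) S)

variable {F : CX ι → YY ι → ℝ}

lemma EE_congr {S : Set ι} (hCl : Cl F S) {y y' : YY ι} (h : ∀ i ∈ S, y i = y' i) :
    EE F S y = EE F S y' := by
  unfold EE
  congr 1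
  funext f
  exact hCl f y y' h

lemma EE_sub (hF1 : ∀ y, RC (fun f => F f y) univ) {S T : Set ι} (h : S ⊆ T) (y : YY ι) :
    EE F S y ⊆ rho S '' EE F T y := by
  have h1 := ess_gS_subset (RC_gS_univ (hF1 y) T) S
  rw [gS_gS _ h] at h1
  exact h1

lemma EE_countable (hF1 : ∀ y, RC (fun f => F f y) univ) (S : Set ι) (y : YY ι) :
    (EE F S y).Countable := countable_ess (RC_gS_univ (hF1 y) S)

lemma rho_idem (S : Set ι) (x : ι → Bool) : rho S (rho S x) = rho S x := rho_rho (Subset.refl S) x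

lemma EE_fixed (hF1 : ∀ y, RC (fun f => F f y) univ) (S : Set ι) (y : YY ι) :
    ∀ x ∈ EE F S y, rho S x = x := by
  intro x hx
  obtain ⟨z, _, rfl⟩ := ess_gS_subset (hF1 y) S hx
  exact rho_idem S z

lemma injOn_EE_mono (hF1 : ∀ y, RC (fun f => F f y) univ) {P S T : Set ι} (h1 : P ⊆ S)
    (h2 : S ⊆ T) {y : YY ι} (h : InjOn (rho P) (EE F T y)) : InjOn (rho P) (EE F S y) := by
  intro x hx x' hx' hxx'
  obtain ⟨z, hz, rfl⟩ := EE_sub hF1 h2 y hx
  obtain ⟨z', hz', rfl⟩ := EE_sub hF1 h2 y hx'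
  rw [rho_rho h1, rho_rho h1] at hxx'
  rw [h hz hz' hxx']

lemma injOn_rho_mono {P S : Set ι} (h1 : P ⊆ S) {E : Set (ι → Bool)} (h : InjOn (rho P) E) :
    InjOn (rho S) E := by
  intro x hx x' hx' hxx'
  apply h hx hx'
  rw [← rho_rho h1, hxx', rho_rho h1]

lemma sepCountable {E : Set (ι → Bool)} (hE : E.Countable) {S : Set ι}
    (hES : ∀ x ∈ E, rho S x = x) : ∃ T : Set ι, T ⊆ S ∧ T.Countable ∧ InjOn (rho T) E := by
  classical
  have hex : ∀ x x' : ι → Bool, ∃ D : Set ι, D.Countable ∧ (x ≠ x' → ∃ i ∈ D, x i ≠ x' i) := by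
    intro x x'
    by_cases h : x = x'
    · exact ⟨∅, countable_empty, fun hne => absurd h hne⟩
    · obtain ⟨i, hi⟩ := Function.ne_iff.mp h
      exact ⟨{i}, countable_singleton i, fun _ => ⟨i, rfl, hi⟩⟩
  choose D hD1 hD2 using hex
  refine ⟨(⋃ x ∈ E, ⋃ x' ∈ E, D x x') ∩ S, inter_subset_right, ?_, ?_⟩
  · apply Set.Countable.mono inter_subset_left
    exact hE.biUnion (fun x _ => hE.biUnion (fun x' _ => hD1 x x'))
  · intro x hx x' hx' hxx'
    by_contra hne
    obtain ⟨i, hi, hne'⟩ := hD2 x x' hne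
    have hiS : i ∈ S := by
      by_contra hiS
      apply hne'
      rw [← hES x hx, ← hES x' hx']
      simp [rho, hiS]
    have hmem : i ∈ (⋃ x ∈ E, ⋃ x' ∈ E, D x x') ∩ S := by
      refine ⟨?_, hiS⟩
      simp only [mem_iUnion]
      exact ⟨x, hx, x', hx', hi⟩
    have h3 := congrFun hxx' i
    simp only [rho, hmem, if_true] at h3
    exact hne' h3

/-- a split is witnessed by countably many coordinates -/
lemma split_witness (hF1 : ∀ y, RC (fun f => F f y) univ) (hF2 : ∀ f, Continuous (F f))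
    {S : Set ι} (hS : S.Countable) {y : YY ι}
    (h : ¬ InjOn (rho S) (ess (fun f => F f y))) :
    ∃ T : Set ι, S ⊆ T ∧ T.Countable ∧ Cl F T ∧ ¬ InjOn (rho S) (EE F T y) := by
  obtain ⟨T₀, -, hT₀, hinj⟩ := sepCountable (countable_ess (hF1 y)) (S := univ) (by
    intro x _
    funext i
    simp [rho])
  obtain ⟨T, hT1, hT2, hT3⟩ := exists_Cl hF1 hF2 (S ∪ T₀) (hS.union hT₀)
  have hST : S ⊆ T := subset_union_left.trans hT1
  have hTT : T₀ ⊆ T := subset_union_right.trans hT1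
  refine ⟨T, hST, hT2, hT3, ?_⟩
  intro hcon
  apply h
  have hinjT : InjOn (rho T) (ess (fun f => F f y)) := injOn_rho_mono hTT hinj
  have hsub := subset_ess_gS (hF1 y) hinjT
  intro x hx x' hx' hxx'
  apply hinjT hx hx'
  apply hcon (hsub ⟨x, hx, rfl⟩) (hsub ⟨x', hx', rfl⟩)
  rw [rho_rho hST, rho_rho hST]
  exact hxx'

/-- approximations used in the transfinite construction -/
structure Pt (F : CX ι → YY ι → ℝ) (F₀ : Finset ι) (y₀ : YY ι) where
  /-- the set of decided coordinates -/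
  S : Set ι
  /-- the point -/
  y : YY ι
  hS : S.Countable
  hCl : Cl F S
  hF₀ : (↑F₀ : Set ι) ⊆ S
  hy : ∀ i ∈ F₀, y i = y₀ i

/-- the extension relation -/
def Rel {F₀ : Finset ι} {y₀ : YY ι} (p q : Pt F F₀ y₀) : Prop :=
  p.S ⊆ q.S ∧ (∀ i ∈ p.S, q.y i = p.y i) ∧ ¬ InjOn (rho p.S) (EE F q.S q.y)

lemma Rel.trans (hF1 : ∀ y, RC (fun f => F f y) univ) {F₀ : Finset ι} {y₀ : YY ι}
    {p q s : Pt F F₀ y₀} (h1 : Rel p q) (h2 : Rel q s) : Rel p s := by
  refine ⟨h1.1.trans h2.1, ?_, ?_⟩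
  · intro i hi
    rw [h2.2.1 i (h1.1 hi), h1.2.1 i hi]
  · intro hcon
    apply h1.2.2
    have h3 := injOn_EE_mono hF1 h1.1 h2.1 hcon
    rw [EE_congr q.hCl h2.2.1] at h3
    exact h3

lemma Rel.irrefl (hF1 : ∀ y, RC (fun f => F f y) univ) {F₀ : Finset ι} {y₀ : YY ι}
    (p : Pt F F₀ y₀) : ¬ Rel p p := by
  rintro ⟨-, -, h⟩
  apply h
  intro x hx x' hx' hxx'
  rw [EE_fixed hF1 p.S p.y x hx, EE_fixed hF1 p.S p.y x' hx'] at hxx'
  exact hxx'

/-- countable chains have strict upper bounds -/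
lemma upper (hF1 : ∀ y, RC (fun f => F f y) univ) (hF2 : ∀ f, Continuous (F f))
    {F₀ : Finset ι} {y₀ : YY ι}
    (hW : ∀ y : YY ι, (∀ i ∈ F₀, y i = y₀ i) → ∀ S : Set ι, S.Countable → y ∈ MS F S)
    (C : Set (Pt F F₀ y₀)) (hC : C.Countable)
    (hchain : ∀ p ∈ C, ∀ q ∈ C, p = q ∨ Rel p q ∨ Rel q p) :
    ∃ q : Pt F F₀ y₀, ∀ p ∈ C, Rel p q := by
  classical
  -- the union of the points
  let y₁ : YY ι := fun i => if h : ∃ p ∈ C, i ∈ p.S then h.choose.y i else y₀ i
  have hy₁ : ∀ p ∈ C, ∀ i ∈ p.S, y₁ i = p.y i := by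
    intro p hp i hi
    have hex : ∃ p ∈ C, i ∈ p.S := ⟨p, hp, hi⟩
    have h1 : y₁ i = hex.choose.y i := by
      simp only [y₁]
      rw [dif_pos hex]
    rw [h1]
    rcases hchain _ hex.choose_spec.1 p hp with h | h | h
    · rw [h]
    · exact (h.2.1 i hex.choose_spec.2).symm
    · exact h.2.1 i hi
  have hy₁0 : ∀ i ∈ F₀, y₁ i = y₀ i := by
    intro i hi
    by_cases hex : ∃ p ∈ C, i ∈ p.S
    · obtain ⟨p, hp, hip⟩ := hex
      rw [hy₁ p hp i hip, p.hy i hi]
    · simp only [y₁]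
      rw [dif_neg hex]
  obtain ⟨S₁, hS₁0, hS₁1, hS₁2⟩ := exists_Cl hF1 hF2 (↑F₀ ∪ ⋃ p ∈ C, p.S)
    (F₀.countable_toSet.union (hC.biUnion (fun p _ => p.hS)))
  have hF₀S₁ : (↑F₀ : Set ι) ⊆ S₁ := subset_union_left.trans hS₁0
  have hCS₁ : ∀ p ∈ C, p.S ⊆ S₁ := by
    intro p hp i hi
    apply hS₁0
    apply mem_union_right
    rw [mem_iUnion₂]
    exact ⟨p, hp, hi⟩
  obtain ⟨y₂, hy₂, hsplit⟩ := exists_split hF1 hF2 hS₁2 (hW y₁ hy₁0 S₁ hS₁1)
  obtain ⟨S₂, hS₂0, hS₂1, hS₂2, hS₂3⟩ := split_witness hF1 hF2 hS₁1 hsplit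
  refine ⟨⟨S₂, y₂, hS₂1, hS₂2, hF₀S₁.trans hS₂0, ?_⟩, ?_⟩
  · intro i hi
    rw [hy₂ i (hF₀S₁ hi), hy₁0 i hi]
  · intro p hp
    refine ⟨(hCS₁ p hp).trans hS₂0, ?_, ?_⟩
    · intro i hi
      change y₂ i = p.y i
      rw [hy₂ i (hCS₁ p hp hi), hy₁ p hp i hi]
    · intro hcon
      exact hS₂3 (injOn_rho_mono (hCS₁ p hp) hcon)

/-- the main dependence theorem: all functions in the image of a continuous map depend on
one countable set of coordinates -/
theorem exists_countable_support (hF1 : ∀ y, RC (fun f => F f y) univ)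
    (hF2 : ∀ f, Continuous (F f)) :
    ∃ S : Set ι, S.Countable ∧ ∀ f, ∀ y y' : YY ι, (∀ i ∈ S, y i = y' i) → F f y = F f y' := by
  classical
  by_contra hcon
  have H : ∀ S : Set ι, S.Countable → (MS F S).Nonempty := by
    intro S hS
    by_contra hne
    rw [not_nonempty_iff_eq_empty] at hne
    apply hcon
    refine ⟨S, hS, ?_⟩
    intro f y y' hyy'
    by_contra hff
    have : y ∈ MS F S := ⟨y', hyy', f, hff⟩
    rw [hne] at this
    exact this
  obtain ⟨F₀, y₀, hW⟩ := claimW hF2 H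
  -- a maximal chain
  have hmax : IsMaxChain (Rel (F := F) (F₀ := F₀) (y₀ := y₀)) (maxChain Rel) := maxChain_spec
  set C : Set (Pt F F₀ y₀) := maxChain Rel with hCdef
  have hcomp : ∀ p ∈ C, ∀ q ∈ C, p = q ∨ Rel p q ∨ Rel q p := by
    intro p hp q hq
    by_cases hpq : p = q
    · exact Or.inl hpq
    · exact Or.inr (hmax.1 hp hq hpq)
  have hno : ¬ ∃ q : Pt F F₀ y₀, ∀ p ∈ C, Rel p q := by
    rintro ⟨q, hq⟩
    have hins : IsChain Rel (insert q C) := by
      apply hmax.1.insert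
      intro b hb _
      exact Or.inr (hq b hb)
    have heq := hmax.2 hins (subset_insert q C)
    have hqC : q ∈ C := by
      rw [heq]
      exact mem_insert q C
    exact Rel.irrefl hF1 q (hq q hqC)
  have hub : ∀ C' : Set (Pt F F₀ y₀), C' ⊆ C → C'.Countable →
      ∃ p ∈ C, ∀ c ∈ C', Rel c p ∨ c = p := by
    intro C' hC' hcount
    by_contra hcon2
    push Not at hcon2
    obtain ⟨q, hq⟩ := upper hF1 hF2 hW C' hcount
      (fun p hp q hq => hcomp p (hC' hp) q (hC' hq))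
    apply hno
    refine ⟨q, ?_⟩
    intro p hp
    obtain ⟨c, hc, hc1, hc2⟩ := hcon2 p hp
    rcases hcomp c (hC' hc) p hp with h | h | h
    · exact absurd h hc2
    · exact absurd h hc1
    · exact h.trans hF1 (hq c hc)
  have hsucc : ∀ p ∈ C, ∃ p' ∈ C, Rel p p' := by
    intro p hp
    by_contra hcon2
    push Not at hcon2
    obtain ⟨q, hq⟩ := upper hF1 hF2 hW {p} (countable_singleton p) (by
      intro a ha b hb
      rw [mem_singleton_iff] at ha hb
      exact Or.inl (by rw [ha, hb]))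
    have hpq : Rel p q := hq p rfl
    apply hno
    refine ⟨q, ?_⟩
    intro c hc
    rcases hcomp c hc p hp with h | h | h
    · rw [h]
      exact hpq
    · exact h.trans hF1 hpq
    · exact absurd h (hcon2 c hc)
  -- the union of the chain
  let S : Set ι := ⋃ p ∈ C, p.S
  let y : YY ι := fun i => if h : ∃ p ∈ C, i ∈ p.S then h.choose.y i else y₀ i
  have hy : ∀ p ∈ C, ∀ i ∈ p.S, y i = p.y i := by
    intro p hp i hi
    have hex : ∃ p ∈ C, i ∈ p.S := ⟨p, hp, hi⟩
    have h1 : y i = hex.choose.y i := by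
      simp only [y]
      rw [dif_pos hex]
    rw [h1]
    rcases hcomp _ hex.choose_spec.1 p hp with h | h | h
    · rw [h]
    · exact (h.2.1 i hex.choose_spec.2).symm
    · exact h.2.1 i hi
  have hpS : ∀ p ∈ C, p.S ⊆ S := by
    intro p hp i hi
    rw [mem_iUnion₂]
    exact ⟨p, hp, hi⟩
  obtain ⟨T, hT1, hT2, hT3⟩ := sepCountable (EE_countable hF1 S y) (EE_fixed hF1 S y)
  -- choose members of the chain covering `T`
  have hex : ∀ i : ι, ∃ p : Set (Pt F F₀ y₀), p.Countable ∧ p ⊆ C ∧ (i ∈ S → ∃ c ∈ p, i ∈ c.S) := by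
    intro i
    by_cases hi : i ∈ S
    · rw [mem_iUnion₂] at hi
      obtain ⟨c, hc, hic⟩ := hi
      exact ⟨{c}, countable_singleton c, by simpa using hc, fun _ => ⟨c, rfl, hic⟩⟩
    · exact ⟨∅, countable_empty, empty_subset _, fun h => absurd h hi⟩
  choose cc hcc1 hcc2 hcc3 using hex
  obtain ⟨p, hp, hpub⟩ := hub (⋃ i ∈ T, cc i) (iUnion₂_subset (fun i _ => hcc2 i))
    (hT2.biUnion (fun i _ => hcc1 i))
  have hTp : T ⊆ p.S := by
    intro i hi
    obtain ⟨c, hc, hic⟩ := hcc3 i (hT1 hi)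
    rcases hpub c (mem_iUnion₂.mpr ⟨i, hi, hc⟩) with h | h
    · exact h.1 hic
    · rw [← h]
      exact hic
  obtain ⟨p', hp', hpp'⟩ := hsucc p hp
  apply hpp'.2.2
  rw [← EE_congr p'.hCl (hy p' hp')]
  apply injOn_EE_mono hF1 hpp'.1 (hpS p' hp')
  exact injOn_rho_mono hTp hT3

/-- the network theorem for arbitrary index sets -/
theorem exists_network (φ : {f : (ι → Bool) → ℝ // Continuous f} →
      {g : (ι → unitInterval) → ℝ // Continuous g}) (hφ : Continuous φ) :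
    ∃ 𝒩 : Set (Set {g : (ι → unitInterval) → ℝ // Continuous g}),
      𝒩.Countable ∧
        ∀ x ∈ Set.range φ,
          ∀ U : Set {g : (ι → unitInterval) → ℝ // Continuous g},
            IsOpen U → x ∈ U →
              ∃ N ∈ 𝒩, x ∈ N ∧ N ⊆ U ∩ Set.range φ := by
  classical
  obtain ⟨S, hS, hdep⟩ := exists_countable_support (F := fun f y => (φ f).1 y)
    (fun y => RC_univ_of_continuous ((continuous_apply y).comp (continuous_subtype_val.comp hφ)))
    (fun f => (φ f).2)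
  have hSc : _root_.Countable {i // i ∈ S} := hS.to_subtype
  -- the small function space
  let J : C(({i // i ∈ S} → unitInterval), ℝ) → {g : (ι → unitInterval) → ℝ // Continuous g} :=
    fun h => ⟨fun y => h (fun i => y i), h.continuous.comp (by
      rw [continuous_pi_iff]
      intro i
      exact continuous_apply _)⟩
  have hJ : Continuous J := by
    apply Continuous.subtype_mk
    rw [continuous_pi_iff]
    intro y
    exact ContinuousEvalConst.continuous_eval_const _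
  obtain ⟨B, hB1, -, hB2⟩ := TopologicalSpace.exists_countable_basis
    C(({i // i ∈ S} → unitInterval), ℝ)
  refine ⟨(fun b => J '' b ∩ range φ) '' B, hB1.image _, ?_⟩
  intro x hx U hU hxU
  obtain ⟨f, rfl⟩ := hx
  -- the function factors through the restriction
  let e : ({i // i ∈ S} → unitInterval) → (ι → unitInterval) :=
    fun v i => if h : i ∈ S then v ⟨i, h⟩ else 0
  have he : Continuous e := by
    rw [continuous_pi_iff]
    intro i
    by_cases hi : i ∈ S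
    · simp only [e, hi, dif_pos]
      exact continuous_apply _
    · simp only [e, hi]
      exact continuous_const
  let h : C(({i // i ∈ S} → unitInterval), ℝ) := ⟨fun v => (φ f).1 (e v), (φ f).2.comp he⟩
  have hJh : J h = φ f := by
    apply Subtype.ext
    funext y
    change (φ f).1 (e (fun i => y i)) = (φ f).1 y
    apply hdep
    intro i hi
    simp only [e, hi, dif_pos]
  have hmem : h ∈ J ⁻¹' U := by
    change J h ∈ U
    rw [hJh]
    exact hxU
  obtain ⟨b, hb, hhb, hbU⟩ := hB2.exists_subset_of_mem_open hmem (hU.preimage hJ)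
  refine ⟨_, ⟨b, hb, rfl⟩, ⟨⟨h, hhb, hJh⟩, ⟨f, rfl⟩⟩, ?_⟩
  rintro z ⟨⟨k, hk, rfl⟩, hz⟩
  exact ⟨hbU hk, hz⟩

end Pool.Agent.Helper27.CpCube
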