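import Mathlib

/-!
Words, the maps `w ↦ a ++ w.drop n`, and their action on ultrafilters.
-/

set_option autoImplicit false

open Filter Topology Set

namespace Pool.Agent.Helper27.Sq

/-- binary words -/
abbrev W : Type := List Bool

/-- the space of ultrafilters on binary words -/
abbrev bW : Type := Ultrafilter W

/-- the index set of the maps -/
abbrev Gam : Type := W × ℕ

/-- the map dropping `n` letters and then prepending the word `a` -/
def gm (g : Gam) (w : W) : W := g.1 ++ w.drop g.2

/-- the induced map on ultrafilters -/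
def act (g : Gam) (u : bW) : bW := u.map (gm g)

theorem mem_act {g : Gam} {u : bW} {s : Set W} : s ∈ act g u ↔ gm g ⁻¹' s ∈ u := Iff.rfl

theorem continuous_act (g : Gam) : Continuous (act g) := by
  refine continuous_generateFrom_iff.2 ?_
  rintro _ ⟨s, rfl⟩
  exact ultrafilter_isOpen_basic (gm g ⁻¹' s)

/-- product of indices -/
def gmul (g h : Gam) : Gam := (g.1 ++ h.1.drop g.2, h.2 + (g.2 - h.1.length))

theorem gm_gm (g h : Gam) (w : W) : gm g (gm h w) = gm (gmul g h) w := by
  simp only [gm, gmul, List.drop_append, List.drop_drop, List.append_assoc]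

theorem act_act (g h : Gam) (u : bW) : act g (act h u) = act (gmul g h) u := by
  ext s
  simp only [mem_act]
  have : gm h ⁻¹' (gm g ⁻¹' s) = gm (gmul g h) ⁻¹' s := by
    ext w
    simp only [mem_preimage, gm_gm]
  rw [this]

theorem act_one (u : bW) : act ([], 0) u = u := by
  ext s
  rw [mem_act]
  have : gm ([], 0) ⁻¹' s = s := by
    ext w
    simp [gm]
  rw [this]

/-- ultrafilters along which the length of words tends to infinity -/
def FF : Set bW := {u | ∀ n : ℕ, {w : W | n ≤ w.length} ∈ u}

theorem isClosed_FF : IsClosed FF := by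
  have : FF = ⋂ n : ℕ, {u : bW | {w : W | n ≤ w.length} ∈ u} := by
    ext u; simp [FF]
  rw [this]
  exact isClosed_iInter fun n => ultrafilter_isClosed_basic _

theorem FF_act {u : bW} (hu : u ∈ FF) (g : Gam) : act g u ∈ FF := by
  intro n
  rw [mem_act]
  filter_upwards [hu (g.2 + n)] with w hw
  simp only [mem_preimage, gm, mem_ofPred_eq, List.length_append, List.length_drop] at hw ⊢
  omega

theorem exists_digits {u : bW} (hu : u ∈ FF) (n : ℕ) :
    ∃ d : W, d.length = n ∧ {w : W | ∃ v, w = d ++ v} ∈ u := by
  have h1 : {d : W | d.length = n} ∈ u.map (List.take n) := by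
    rw [Ultrafilter.mem_map]
    filter_upwards [hu n] with w hw
    simp only [mem_preimage, mem_ofPred_eq, List.length_take] at hw ⊢
    omega
  obtain ⟨d, hd, hd'⟩ := Ultrafilter.eq_pure_of_finite_mem (List.finite_length_eq Bool n) h1
  refine ⟨d, hd, ?_⟩
  have h2 : {d} ∈ u.map (List.take n) := by rw [hd']; exact mem_pure.2 rfl
  rw [Ultrafilter.mem_map] at h2
  filter_upwards [h2] with w hw
  simp only [mem_preimage, mem_singleton_iff] at hw
  exact ⟨w.drop n, by rw [← hw, List.take_append_drop]⟩

theorem map_congr_mem {f f' : W → W} {u : bW} {s : Set W} (hs : s ∈ u) (h : ∀ w ∈ s, f w = f' w) :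
    u.map f = u.map f' := by
  apply Ultrafilter.coe_injective
  simp only [Ultrafilter.coe_map]
  exact Filter.map_congr (Filter.mem_of_superset hs h)

theorem exists_inv {u : bW} (hu : u ∈ FF) (g : Gam) : ∃ h : Gam, act h (act g u) = u := by
  obtain ⟨d, hd, hdu⟩ := exists_digits hu g.2
  refine ⟨(d, g.1.length), ?_⟩
  rw [act_act]
  have h1 : act (gmul (d, g.1.length) g) u = u.map id := by
    refine map_congr_mem hdu ?_
    rintro w ⟨v, rfl⟩
    simp [gm, gmul, hd]
  rw [h1, Ultrafilter.map_id]

/-- the orbit -/
def orb (u : bW) : Set bW := range fun g => act g u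

theorem countable_orb (u : bW) : (orb u).Countable := countable_range _

theorem self_mem_orb (u : bW) : u ∈ orb u := ⟨([], 0), act_one u⟩

theorem orb_symm {u v : bW} (hu : u ∈ FF) (h : v ∈ orb u) : u ∈ orb v := by
  obtain ⟨g, rfl⟩ := h
  obtain ⟨k, hk⟩ := exists_inv hu g
  exact ⟨k, hk⟩

theorem orb_trans {u v w : bW} (h1 : v ∈ orb u) (h2 : w ∈ orb v) : w ∈ orb u := by
  obtain ⟨g, rfl⟩ := h1
  obtain ⟨k, rfl⟩ := h2
  exact ⟨gmul k g, (act_act k g u).symm⟩

theorem act_mem_orb (g : Gam) (u : bW) : act g u ∈ orb u := ⟨g, rfl⟩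

/-- an ultrafilter on the naturals is not fixed by a nontrivial translation -/
theorem nat_shift {v : Ultrafilter ℕ} {d : ℕ} (hd : 0 < d) (h : v.map (fun n => n + d) = v) : False := by
  let A : Set ℕ := {n | (n / d) % 2 = 0}
  have h1 : A ∈ v ↔ Aᶜ ∈ v := by
    conv_lhs => rw [← h]
    rw [Ultrafilter.mem_map]
    have : (fun n => n + d) ⁻¹' A = Aᶜ := by
      ext n
      simp only [A, mem_preimage, mem_ofPred_eq, mem_compl_iff]
      rw [Nat.add_div_right n hd]
      omega
    rw [this]
  rcases v.mem_or_compl_mem A with h2 | h2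
  · exact (Ultrafilter.compl_notMem_iff.2 h2) (h1.1 h2)
  · exact (Ultrafilter.compl_notMem_iff.2 (h1.2 h2)) h2

theorem append_len {v : bW} {a b : W} (hlt : a.length < b.length)
    (h : v.map (fun w => a ++ w) = v.map (fun w => b ++ w)) : False := by
  have e1 : ∀ c : W, (v.map List.length).map (fun n => c.length + n) =
      (v.map (fun w => c ++ w)).map List.length := by
    intro c
    rw [Ultrafilter.map_map, Ultrafilter.map_map]
    congr 1
    funext w
    simp
  have h1 : (v.map List.length).map (fun n => a.length + n) =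
      (v.map List.length).map (fun n => b.length + n) := by
    rw [e1, e1, h]
  refine nat_shift (v := (v.map List.length).map (fun n => a.length + n))
    (d := b.length - a.length) (by omega) ?_
  rw [Ultrafilter.map_map, h1]
  congr 1
  funext n
  simp only [Function.comp]
  omega

theorem append_inj' {v : bW} {a b : W} (h : v.map (fun w => a ++ w) = v.map (fun w => b ++ w)) :
    a = b := by
  have hlen : a.length = b.length := by
    rcases lt_trichotomy a.length b.length with h1 | h1 | h1
    · exact (append_len h1 h).elim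
    · exact h1
    · exact (append_len h1 h.symm).elim
  have h1 : {w : W | ∃ v, w = a ++ v} ∈ v.map (fun w => a ++ w) := by
    rw [Ultrafilter.mem_map]
    filter_upwards with w
    exact ⟨w, rfl⟩
  have h2 : {w : W | ∃ v, w = b ++ v} ∈ v.map (fun w => a ++ w) := by
    rw [h, Ultrafilter.mem_map]
    filter_upwards with w
    exact ⟨w, rfl⟩
  obtain ⟨w, ⟨v1, h3⟩, ⟨v2, h4⟩⟩ := Ultrafilter.nonempty_of_mem (Filter.inter_mem h1 h2)
  rw [h3] at h4
  exact (List.append_inj h4 hlen).1

/-- at a fixed level `M`, different words give different points -/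
theorem act_level_inj {u : bW} {M : ℕ} {a b : W} (h : act (a, M) u = act (b, M) u) : a = b := by
  have e : ∀ c : W, act (c, M) u = (u.map (List.drop M)).map (fun w => c ++ w) := by
    intro c
    rw [Ultrafilter.map_map]
    rfl
  rw [e, e] at h
  exact append_inj' h

/-- every finite set of maps can be written at a common level -/
theorem exists_level (G : Finset Gam) : ∃ (M : ℕ) (L : Finset W), ∀ u ∈ FF, ∀ g ∈ G,
    ∃ a ∈ L, act g u = act (a, M) u := by
  classical
  let M := G.sup Prod.snd
  let D : Finset W := (List.finite_length_eq Bool M).toFinset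
  refine ⟨M, (G ×ˢ D).image (fun q => q.1.1 ++ q.2.drop q.1.2), ?_⟩
  intro u hu g hg
  obtain ⟨d, hd, hdu⟩ := exists_digits hu M
  have hgM : g.2 ≤ M := Finset.le_sup (f := Prod.snd) hg
  refine ⟨g.1 ++ d.drop g.2, ?_, ?_⟩
  · refine Finset.mem_image.2 ⟨(g, d), ?_, rfl⟩
    refine Finset.mem_product.2 ⟨hg, ?_⟩
    simp only [D, Set.Finite.mem_toFinset]
    exact hd
  · refine map_congr_mem hdu ?_
    rintro w ⟨v, rfl⟩
    simp only [gm]
    rw [List.drop_append_of_le_length (by omega), List.append_assoc]
    congr 2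
    rw [← hd, List.drop_left]

/-- finite-to-one -/
theorem finite_preimage (g : Gam) (p : bW) : {u ∈ FF | act g u = p}.Finite := by
  classical
  let D : Finset W := (List.finite_length_eq Bool g.2).toFinset
  refine (Set.Finite.subset (D.finite_toSet.image (fun d => act (d, g.1.length) p)) ?_)
  rintro u ⟨hu, rfl⟩
  obtain ⟨d, hd, hdu⟩ := exists_digits hu g.2
  refine ⟨d, ?_, ?_⟩
  · simp only [D, Set.Finite.coe_toFinset]
    exact hd
  · simp only
    rw [act_act]
    have h1 : act (gmul (d, g.1.length) g) u = u.map id := by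
      refine map_congr_mem hdu ?_
      rintro w ⟨v, rfl⟩
      simp [gm, gmul, hd]
    rw [h1, Ultrafilter.map_id]

end Pool.Agent.Helper27.Sq
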