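import Pool.Agent.Helper27.SqMin

/-!
Selection along a well order, and counting.
-/

set_option autoImplicit false

open Filter Topology Set Cardinal

namespace Pool.Agent.Helper27.Sq

theorem selection {C V : Type} (hCV : #C ≤ #V) (hV : ℵ₀ < #V) (R : C → V → C → V → Prop)
    (hR : ∀ c c' v', {v | R c v c' v'}.Countable) (B0 : C → Set V)
    (hB0 : ∀ c, (B0 c).Countable) :
    ∃ (f : C → V) (r : C → C → Prop), (∀ c c', c ≠ c' → r c c' ∨ r c' c) ∧
      ∀ c, f c ∉ B0 c ∧ ∀ c', r c' c → ¬ R c (f c) c' (f c') := by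
  classical
  obtain ⟨e⟩ : Nonempty ((#C).ord.ToType ≃ C) := Cardinal.eq.1 (by simp)
  have hne : Nonempty V := by
    rw [← Cardinal.mk_ne_zero_iff]
    exact (aleph0_pos.trans hV).ne'
  let f : (#C).ord.ToType → V := WellFounded.fix (wellFounded_lt)
    (fun c ih => if h : ∃ v, v ∉ B0 (e c) ∧ ∀ c' (hc : c' < c), ¬ R (e c) v (e c') (ih c' hc)
      then h.choose else Classical.arbitrary V)
  have hf : ∀ c, f c ∉ B0 (e c) ∧ ∀ c', c' < c → ¬ R (e c) (f c) (e c') (f c') := by
    intro c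
    have hex : ∃ v, v ∉ B0 (e c) ∧ ∀ c' (_ : c' < c), ¬ R (e c) v (e c') (f c') := by
      by_contra hcon
      push Not at hcon
      have h1 : (univ : Set V) ⊆ B0 (e c) ∪ ⋃ c' : Iio c, {v | R (e c) v (e c') (f c')} := by
        intro v _
        by_cases hv : v ∈ B0 (e c)
        · exact Or.inl hv
        · obtain ⟨c', hc', hR'⟩ := hcon v hv
          exact Or.inr (mem_iUnion.2 ⟨⟨c', hc'⟩, hR'⟩)
      have h2 : #(Iio c) < #V := (Cardinal.mk_Iio_toType_ord_lt c).trans_le hCV
      have h3 : #V ≤ ℵ₀ + #(Iio c) * ℵ₀ := by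
        calc #V = #(univ : Set V) := mk_univ.symm
          _ ≤ #(B0 (e c) ∪ ⋃ c' : Iio c, {v | R (e c) v (e c') (f c')} : Set V) := mk_le_mk_of_subset h1
          _ ≤ #(B0 (e c)) + #(⋃ c' : Iio c, {v | R (e c) v (e c') (f c')} : Set V) := mk_union_le _ _
          _ ≤ ℵ₀ + #(Iio c) * ℵ₀ := by
            refine add_le_add (hB0 _).le_aleph0 ?_
            refine (mk_iUnion_le _).trans ?_
            refine mul_le_mul_right (ciSup_le' fun c' => ?_) _
            exact (hR _ _ _).le_aleph0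
      have h4 : ℵ₀ + #(Iio c) * ℵ₀ < #V :=
        Cardinal.add_lt_of_lt hV.le hV (Cardinal.mul_lt_of_lt hV.le h2 hV)
      exact absurd h3 (not_le.2 h4)
    have hfix : f c = if h : ∃ v, v ∉ B0 (e c) ∧ ∀ c' (_ : c' < c), ¬ R (e c) v (e c') (f c')
      then h.choose else Classical.arbitrary V := by
      exact WellFounded.fix_eq _ _ _
    rw [hfix, dif_pos hex]
    exact hex.choose_spec
  refine ⟨fun c => f (e.symm c), fun c c' => e.symm c < e.symm c', ?_, ?_⟩
  · intro c c' hcc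
    exact lt_or_gt_of_ne (fun h => hcc (e.symm.injective h))
  · intro c
    have := hf (e.symm c)
    simp only [Equiv.apply_symm_apply] at this
    refine ⟨this.1, fun c' hc' => ?_⟩
    have h2 := this.2 _ hc'
    simpa using h2


section Pospisil

universe u

/-- The index set carrying the independent family. -/
abbrev Idx (κ : Type u) : Type u := Finset κ × Finset (Finset κ)

def X {κ : Type u} (A : Set κ) : Set (Idx κ) := {x | ∃ t ∈ x.2, (t : Set κ) = (x.1 : Set κ) ∩ A}

def D {κ : Type u} (F : Finset κ) : Set (Idx κ) := {x | F ⊆ x.1}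

open Classical in
noncomputable def Y {κ : Type u} (J : Set (Set κ)) (A : Set κ) : Set (Idx κ) :=
  if A ∈ J then X A else (X A)ᶜ

theorem separate {κ : Type u} (s : Finset (Set κ)) :
    ∃ F : Finset κ, ∀ A ∈ s, ∀ B ∈ s, ((F : Set κ) ∩ A = (F : Set κ) ∩ B) → A = B := by
  classical
  have h : ∀ q : Set κ × Set κ, ∃ F : Finset κ, ∀ F' : Finset κ, F ⊆ F' →
      ((F' : Set κ) ∩ q.1 = (F' : Set κ) ∩ q.2) → q.1 = q.2 := by
    rintro ⟨A, B⟩
    by_cases hAB : A = B
    · exact ⟨∅, fun _ _ _ => hAB⟩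
    · have : ∃ x, ¬ (x ∈ A ↔ x ∈ B) := by
        by_contra hcon
        push Not at hcon
        exact hAB (Set.ext hcon)
      obtain ⟨x, hx⟩ := this
      refine ⟨{x}, fun F' hF' h => ?_⟩
      exfalso
      apply hx
      have hxF : x ∈ F' := hF' (Finset.mem_singleton_self x)
      have := Set.ext_iff.mp h x
      simpa [hxF] using this
  choose F hF using h
  refine ⟨(s ×ˢ s).biUnion F, fun A hA B hB hAB => ?_⟩
  refine hF (A, B) _ ?_ hAB
  exact Finset.subset_biUnion_of_mem F (Finset.mem_product.mpr ⟨hA, hB⟩)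

theorem neBot {κ : Type u} (J : Set (Set κ)) :
    (Filter.generate (Set.range fun q : Set κ × Finset κ => Y J q.1 ∩ D q.2)).NeBot := by
  classical
  rw [Filter.generate_neBot_iff]
  intro t ht htf
  have hg : ∀ x : t, ∃ q : Set κ × Finset κ, Y J q.1 ∩ D q.2 = (x : Set (Idx κ)) := fun x => ht x.2
  choose g hg using hg
  have := htf.fintype
  let s : Finset (Set κ × Finset κ) := Finset.univ.image g
  obtain ⟨F0, hF0⟩ := separate (s.image Prod.fst)
  let F : Finset κ := F0 ∪ s.biUnion Prod.snd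
  let G : Finset (Finset κ) := ((s.image Prod.fst).filter (fun A => A ∈ J)).image
    (fun A => F.filter (fun x => x ∈ A))
  have hFsep : ∀ A ∈ s.image Prod.fst, ∀ B ∈ s.image Prod.fst,
      ((F : Set κ) ∩ A = (F : Set κ) ∩ B) → A = B := by
    intro A hA B hB h
    apply hF0 A hA B hB
    ext x
    constructor
    · rintro ⟨h1, h2⟩
      have : x ∈ (F : Set κ) ∩ A := ⟨by simp [F]; left; exact h1, h2⟩
      rw [h] at this
      exact ⟨h1, this.2⟩
    · rintro ⟨h1, h2⟩
      have : x ∈ (F : Set κ) ∩ B := ⟨by simp [F]; left; exact h1, h2⟩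
      rw [← h] at this
      exact ⟨h1, this.2⟩
  refine ⟨(F, G), ?_⟩
  rw [Set.mem_sInter]
  intro x hx
  have hq : g ⟨x, hx⟩ ∈ s := Finset.mem_image_of_mem _ (Finset.mem_univ _)
  rw [show x = Y J (g ⟨x, hx⟩).1 ∩ D (g ⟨x, hx⟩).2 from (hg ⟨x, hx⟩).symm]
  generalize g ⟨x, hx⟩ = q at hq
  have hqA : q.1 ∈ s.image Prod.fst := Finset.mem_image_of_mem _ hq
  refine ⟨?_, ?_⟩
  · unfold Y
    split_ifs with hJ
    · refine ⟨F.filter (fun x => x ∈ q.1), ?_, ?_⟩
      · exact Finset.mem_image_of_mem _ (Finset.mem_filter.mpr ⟨hqA, hJ⟩)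
      · ext x; simp
    · rintro ⟨t', ht', h2⟩
      simp only [G, Finset.mem_image, Finset.mem_filter] at ht'
      obtain ⟨B, ⟨⟨q', hq', hq'B⟩, hBJ⟩, hB2⟩ := ht'
      have hB : B ∈ s.image Prod.fst := Finset.mem_image.mpr ⟨q', hq', hq'B⟩
      apply hJ
      have : q.1 = B := by
        apply hFsep _ hqA _ hB
        rw [← h2, ← hB2]
        ext x; simp
      rw [this]; exact hBJ
  · change q.2 ⊆ F
    intro x hx
    simp only [F, Finset.mem_union, Finset.mem_biUnion]
    exact Or.inr ⟨q, hq, hx⟩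

theorem exists_ultrafilters (κ : Type u) [Infinite κ] :
    ∃ U : Set (Set κ) → Ultrafilter (Idx κ), Function.Injective U ∧ ∀ J x, {x} ∉ U J := by
  classical
  have h : ∀ J : Set (Set κ), ∃ U : Ultrafilter (Idx κ),
      ∀ (A : Set κ) (F : Finset κ), Y J A ∩ D F ∈ U := by
    intro J
    have := neBot J
    refine ⟨Ultrafilter.of (Filter.generate (Set.range fun q : Set κ × Finset κ => Y J q.1 ∩ D q.2)),
      fun A F => ?_⟩
    apply Ultrafilter.of_le
    exact Filter.mem_generate_of_mem ⟨(A, F), rfl⟩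
  choose U hU using h
  refine ⟨U, ?_, ?_⟩
  · intro J J' hJ
    ext A
    have h1 : Y J A ∈ U J := mem_of_superset (hU J A ∅) Set.inter_subset_left
    have h2 : Y J' A ∈ U J := by
      rw [hJ]; exact mem_of_superset (hU J' A ∅) Set.inter_subset_left
    unfold Y at h1 h2
    by_cases hA : A ∈ J <;> by_cases hA' : A ∈ J' <;> simp only [hA, hA', if_true, if_false] at h1 h2 ⊢
    · exact absurd h1 (Ultrafilter.compl_mem_iff_notMem.mp h2)
    · exact absurd h2 (Ultrafilter.compl_mem_iff_notMem.mp h1)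
  · intro J x hx
    obtain ⟨a, ha⟩ := Infinite.exists_notMem_finset x.1
    have h1 : D {a} ∈ U J := mem_of_superset (hU J ∅ {a}) Set.inter_subset_right
    have h2 : ({x} ∩ D {a} : Set (Idx κ)) ∈ U J := inter_mem hx h1
    obtain ⟨y, hy1, hy2⟩ := Ultrafilter.nonempty_of_mem h2
    have : y = x := hy1
    subst this
    exact ha (hy2 (Finset.mem_singleton_self a))


end Pospisil

/-- freeness of an ultrafilter on the naturals -/
def Fr (u : Ultrafilter ℕ) : Prop := ∀ n, {n} ∉ u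

theorem Fr.compl_mem {u : Ultrafilter ℕ} (hu : Fr u) {s : Set ℕ} (hs : s.Finite) : sᶜ ∈ u := by
  induction s, hs using Set.Finite.induction_on with
  | empty =>
    rw [compl_empty]
    exact Filter.univ_mem
  | @insert a t _ _ ih =>
    have h1 : ({a} : Set ℕ)ᶜ ∈ u := Ultrafilter.compl_mem_iff_notMem.2 (hu a)
    filter_upwards [h1, ih] with x hx hx'
    simp only [mem_compl_iff, mem_insert_iff, mem_singleton_iff] at hx hx' ⊢
    tauto

theorem exists_free : ∃ U : Set (Set ℕ) → Ultrafilter ℕ, Function.Injective U ∧ ∀ J, Fr (U J) := by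
  obtain ⟨U, hU, hU'⟩ := exists_ultrafilters ℕ
  let e : Idx ℕ ≃ ℕ := Denumerable.eqv _
  refine ⟨fun J => (U J).map e, ?_, ?_⟩
  · intro J J' h
    apply hU
    have h1 := congrArg (fun u => Ultrafilter.map e.symm u) h
    simpa [Ultrafilter.map_map] using h1
  · intro J n hn
    rw [Ultrafilter.mem_map] at hn
    refine hU' J (e.symm n) (mem_of_superset hn ?_)
    intro x hx
    simp only [mem_preimage, mem_singleton_iff] at hx ⊢
    rw [← hx, Equiv.symm_apply_apply]

theorem card_V : ℵ₀ < #(Set (Set ℕ)) := by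
  rw [mk_set, mk_set]
  have h : #ℕ = ℵ₀ := mk_nat
  rw [h]
  exact (cantor _).trans (cantor _)

theorem card_bW : #bW ≤ #(Set (Set ℕ)) := by
  have h1 : #bW ≤ #(Set (Set W)) := by
    refine mk_le_of_injective (f := fun u : bW => {s : Set W | s ∈ u}) ?_
    intro u v h
    ext s
    exact Set.ext_iff.1 h s
  refine h1.trans ?_
  rw [mk_set, mk_set, mk_set, mk_set]
  simp

theorem card_codes (X : Set bW) (hX : X.Countable) : #(X → (bW →₀ ℝ)) ≤ #(Set (Set ℕ)) := by
  have hV : #(Set (Set ℕ)) = 2 ^ (2 ^ ℵ₀ : Cardinal) := by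
    rw [mk_set, mk_set]; simp
  have hinf : Infinite bW :=
    Infinite.of_injective (fun w : W => (pure w : bW)) Ultrafilter.pure_injective
  have h1 : #(bW →₀ ℝ) ≤ 2 ^ (2 ^ ℵ₀ : Cardinal) := by
    rw [Cardinal.mk_finsupp_of_infinite]
    refine max_le (hV ▸ card_bW) ?_
    rw [Cardinal.mk_real, ← two_power_aleph0]
    exact (cantor _).le
  rw [hV, ← Cardinal.power_def]
  calc #(bW →₀ ℝ) ^ #X ≤ (2 ^ (2 ^ ℵ₀ : Cardinal)) ^ #X := power_le_power_right h1
    _ = 2 ^ ((2 ^ ℵ₀ : Cardinal) * #X) := (power_mul).symm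
    _ ≤ 2 ^ (2 ^ ℵ₀ : Cardinal) := by
      refine power_le_power_left two_ne_zero ?_
      calc (2 ^ ℵ₀ : Cardinal) * #X ≤ 2 ^ ℵ₀ * ℵ₀ := by gcongr; exact hX.le_aleph0
        _ = 2 ^ ℵ₀ := by
          rw [Cardinal.mul_eq_left]
          · exact (cantor _).le
          · exact (cantor _).le
          · exact aleph0_ne_zero

end Pool.Agent.Helper27.Sq
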