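import Pool.Agent.Helper27.SqOp

/-!
Decomposition of operators.
-/

set_option autoImplicit false

open Filter Topology Set BoundedContinuousFunction

namespace Pool.Agent.Helper27.Sq

variable {X Y : Set bW}

/-- operators whose adjoint maps points to finitely supported measures -/
def FinSup (T : (Y →ᵇ ℝ) →L[ℝ] (Y →ᵇ ℝ)) : Prop :=
  ∀ y, ∃ ν : Y →₀ ℝ, ∀ f, T f y = ν.sum fun u r => r * f u

open Classical in
/-- extension by zero -/
noncomputable def ext (f : Y → ℝ) (u : bW) : ℝ := if h : u ∈ Y then f ⟨u, h⟩ else 0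

theorem ext_coe (f : Y → ℝ) (u : Y) : ext f (u : bW) = f u := by
  unfold ext; rw [dif_pos u.2]

theorem ext_of (f : Y → ℝ) {u : bW} (h : u ∈ Y) : ext f u = f ⟨u, h⟩ := by
  unfold ext; rw [dif_pos h]

theorem abs_ext_le (f : Y →ᵇ ℝ) (u : bW) : |ext f u| ≤ ‖f‖ := by
  unfold ext
  split_ifs with h
  · exact f.norm_coe_le_norm ⟨u, h⟩
  · simp

/-- a representation of an operator by finitely supported measures -/
structure Rep (T : (Y →ᵇ ℝ) →L[ℝ] (Y →ᵇ ℝ)) (t : Y → (bW →₀ ℝ)) : Prop where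
  supp : ∀ y, ∀ u ∈ (t y).support, u ∈ Y
  eq : ∀ y (f : Y →ᵇ ℝ), T f y = ∑ u ∈ (t y).support, t y u * ext f u

theorem exists_rep {T : (Y →ᵇ ℝ) →L[ℝ] (Y →ᵇ ℝ)} (hT : FinSup T) : ∃ t, Rep T t := by
  choose ν hν using hT
  refine ⟨fun y => (ν y).embDomain (Function.Embedding.subtype (· ∈ Y)), ?_, ?_⟩
  · intro y u hu
    rw [Finsupp.support_embDomain, Finset.mem_map] at hu
    obtain ⟨v, _, rfl⟩ := hu
    exact v.2
  · intro y f
    rw [hν, Finsupp.support_embDomain, Finset.sum_map, Finsupp.sum]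
    refine Finset.sum_congr rfl fun u _ => ?_
    rw [Finsupp.embDomain_apply_self]
    congr 1
    exact (ext_coe f u).symm

theorem Rep.chi {T : (Y →ᵇ ℝ) →L[ℝ] (Y →ᵇ ℝ)} {t : Y → (bW →₀ ℝ)} (ht : Rep T t) (A : Set W)
    (y : Y) : T (chi Y A) y = ev (t y) A := by
  classical
  rw [ht.eq]
  unfold ev
  refine Finset.sum_congr rfl fun u hu => ?_
  rw [ext_of _ (ht.supp y u hu), chi_apply]
  simp [ind]

theorem Rep.tv_le {T : (Y →ᵇ ℝ) →L[ℝ] (Y →ᵇ ℝ)} {t : Y → (bW →₀ ℝ)} (ht : Rep T t) (y : Y) :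
    tv (t y) univ ≤ ‖T‖ := by
  classical
  obtain ⟨A, hA1, hA2⟩ := sepfin ((t y).support.filter fun u => 0 < t y u)
    ((t y).support.filter fun u => t y u < 0) (by
      intro u hu hu'
      exact lt_asymm (Finset.mem_filter.1 hu).2 (Finset.mem_filter.1 hu').2)
  have h1 : T (Sq.chi Y A - Sq.chi Y Aᶜ) y = tv (t y) univ := by
    rw [map_sub, BoundedContinuousFunction.sub_apply, ht.chi, ht.chi]
    unfold ev tv
    rw [← Finset.sum_sub_distrib]
    refine Finset.sum_congr rfl fun u hu => ?_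
    rw [if_pos (mem_univ _)]
    have hne : t y u ≠ 0 := Finsupp.mem_support_iff.1 hu
    rcases lt_or_gt_of_ne hne with h | h
    · have h2 := hA2 u (Finset.mem_filter.2 ⟨hu, h⟩)
      rw [if_neg h2, if_pos (Ultrafilter.compl_mem_iff_notMem.2 h2), abs_of_neg h]
      ring
    · have h2 := hA1 u (Finset.mem_filter.2 ⟨hu, h⟩)
      rw [if_pos h2, if_neg (fun h3 => Ultrafilter.compl_mem_iff_notMem.1 h3 h2), abs_of_pos h]
      ring
  have h2 : ‖Sq.chi Y A - Sq.chi Y Aᶜ‖ ≤ 1 := by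
    rw [BoundedContinuousFunction.norm_le zero_le_one]
    intro u
    rw [BoundedContinuousFunction.sub_apply, chi_apply, chi_apply, Real.norm_eq_abs, abs_le]
    have := ind_nonneg A u
    have := ind_nonneg Aᶜ u
    have := ind_le_one A u
    have := ind_le_one Aᶜ u
    constructor <;> linarith
  calc tv (t y) univ = T (Sq.chi Y A - Sq.chi Y Aᶜ) y := h1.symm
    _ ≤ ‖T (Sq.chi Y A - Sq.chi Y Aᶜ)‖ := by
        have := (T (Sq.chi Y A - Sq.chi Y Aᶜ)).norm_coe_le_norm y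
        rw [Real.norm_eq_abs] at this
        exact (le_abs_self _).trans this
    _ ≤ ‖T‖ * ‖Sq.chi Y A - Sq.chi Y Aᶜ‖ := T.le_opNorm _
    _ ≤ ‖T‖ * 1 := by gcongr
    _ = ‖T‖ := mul_one _

theorem not_bad (h : Good X Y) {T : (Y →ᵇ ℝ) →L[ℝ] (Y →ᵇ ℝ)} {t : Y → (bW →₀ ℝ)} (ht : Rep T t)
    {ε : ℝ} (hε : 0 < ε) : ∃ (G : Finset Gam) (P : Finset bW), ∀ x : Y, (x : bW) ∈ X →
      tv (t x) {u | u ∉ P ∧ ∀ g ∈ G, u ≠ act g x} ≤ ε := by
  by_contra hcon
  push Not at hcon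
  have hbad : Bad X (fun x => t ⟨x, h.sub x.2⟩) := by
    refine ⟨⟨‖T‖, fun x => ht.tv_le _⟩, ⟨ε, hε, fun G P => ?_⟩⟩
    obtain ⟨x, hx, hlt⟩ := hcon G P
    exact ⟨⟨x, hx⟩, hlt⟩
  obtain ⟨x, U, _, _, _, hUY, hν⟩ := h.killed _ hbad
  let y : Y := ⟨_, hUY⟩
  obtain ⟨u, hu, huY⟩ := hν (t y) (by
    intro A
    rw [← ht.chi A y]
    rw [Metric.tendsto_nhds]
    intro δ hδ
    have hS : {v : Y | dist (T (chi Y A) v) (T (chi Y A) y) < δ} ∈ 𝓝 y := by
      have := (T (chi Y A)).continuous.continuousAt (x := y)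
      exact Metric.tendsto_nhds.1 this δ hδ
    obtain ⟨B, hB, hBS⟩ := mem_nhds_Y.1 hS
    have h2 : {k | B ∈ (x k : bW)} ∈ U := hB
    filter_upwards [h2] with k hk
    have h3 := hBS ⟨x k, h.sub (x k).2⟩ hk
    change dist (ev (t ⟨x k, h.sub (x k).2⟩) A) _ < δ
    rw [← ht.chi A]
    exact h3)
  exact huY (ht.supp y u hu)

theorem notMem_finUnion {ι : Type*} {u : bW} {I : Finset ι} {D : ι → Set W}
    (h : ∀ i ∈ I, D i ∉ u) : (⋃ i ∈ I, D i) ∉ u := by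
  intro h1
  have h4 := (Ultrafilter.finite_biUnion_mem_iff (f := u) (is := (I : Set ι))
      (s := fun j => D j) (Finset.finite_toSet _)).1 (by simpa using h1)
  obtain ⟨j, hj, hj'⟩ := h4
  exact h j hj hj'

theorem sepc (P Q : Set bW) (hP : P.Countable) (hQ : Q.Countable)
    (h1 : ∀ u ∈ P, ∃ A ∈ u, ∀ v ∈ Q, A ∉ v) (h2 : ∀ v ∈ Q, ∃ A ∈ v, ∀ u ∈ P, A ∉ u) :
    ∃ A : Set W, (∀ u ∈ P, A ∈ u) ∧ ∀ v ∈ Q, A ∉ v := by
  rcases P.eq_empty_or_nonempty with hPe | hPe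
  · refine ⟨∅, ?_, fun v _ => v.empty_notMem⟩
    rw [hPe]
    exact fun u hu => absurd hu (notMem_empty _)
  rcases Q.eq_empty_or_nonempty with hQe | hQe
  · refine ⟨univ, fun u _ => Filter.univ_mem, ?_⟩
    rw [hQe]
    exact fun u hu => absurd hu (notMem_empty _)
  obtain ⟨p, rfl⟩ := hP.exists_eq_range hPe
  obtain ⟨q, rfl⟩ := hQ.exists_eq_range hQe
  have h1' : ∀ n, ∃ A ∈ p n, ∀ m, A ∉ q m := fun n => by
    obtain ⟨A, hA, hA'⟩ := h1 _ ⟨n, rfl⟩
    exact ⟨A, hA, fun m => hA' _ ⟨m, rfl⟩⟩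
  have h2' : ∀ n, ∃ A ∈ q n, ∀ m, A ∉ p m := fun n => by
    obtain ⟨A, hA, hA'⟩ := h2 _ ⟨n, rfl⟩
    exact ⟨A, hA, fun m => hA' _ ⟨m, rfl⟩⟩
  choose a ha ha' using h1'
  choose b hb hb' using h2'
  have hA : ∀ n, (⋃ n, (a n \ ⋃ m ∈ Finset.range n, b m)) ∈ p n := by
    intro n
    refine mem_of_superset (diff_mem' (ha n) (notMem_finUnion (I := Finset.range n) (D := b)
      fun m _ => hb' m n)) ?_
    exact subset_iUnion (fun n => a n \ ⋃ m ∈ Finset.range n, b m) n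
  have hB : ∀ n, (⋃ n, (b n \ ⋃ m ∈ Finset.range (n + 1), a m)) ∈ q n := by
    intro n
    refine mem_of_superset (diff_mem' (hb n) (notMem_finUnion (I := Finset.range (n + 1)) (D := a)
      fun m _ => ha' m n)) ?_
    exact subset_iUnion (fun n => b n \ ⋃ m ∈ Finset.range (n + 1), a m) n
  refine ⟨⋃ n, (a n \ ⋃ m ∈ Finset.range n, b m), ?_, ?_⟩
  · rintro _ ⟨n, rfl⟩
    exact hA n
  · rintro _ ⟨n, rfl⟩ hmem
    obtain ⟨w, hw1, hw2⟩ := Ultrafilter.nonempty_of_mem (inter_mem hmem (hB n))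
    simp only [mem_iUnion, Set.mem_sdiff, Finset.mem_range, not_exists] at hw1 hw2
    obtain ⟨i, hi, hi'⟩ := hw1
    obtain ⟨j, hj, hj'⟩ := hw2
    rcases Nat.lt_or_ge j i with hlt | hle
    · exact hi' j hlt hj
    · exact hj' i (by omega) hi

theorem step {ι : Type} [Fintype ι] (X0 : Set bW) (hX0 : X0.Countable) (v : bW → ι → ℝ) (C : ℝ)
    (hC : ∀ x ∈ X0, ∀ i, |v x i| ≤ C) (η δ : ℝ) (hη : 0 ≤ η) (hδ : 0 < δ)
    (hosc : ∀ x ∈ X0, ∃ A ∈ x, ∀ x' ∈ X0, A ∈ x' → ∑ i, |v x' i - v x i| ≤ η) :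
    ∃ (n : ℕ) (A : Fin n → Set W) (c : Fin n → ι → ℝ), (∀ i j, i ≠ j → Disjoint (A i) (A j)) ∧
      ∀ x ∈ X0, ∃ i, A i ∈ x ∧ ∑ j, |v x j - c i j| ≤ 2 * η + δ := by
  classical
  let δ' : ℝ := δ / (Fintype.card ι + 1)
  have hδ' : 0 < δ' := by positivity
  have hδ'' : (Fintype.card ι : ℝ) * δ' ≤ δ := by
    have h1 : ((Fintype.card ι : ℝ) + 1) * δ' = δ := by
      simp only [δ']; field_simp
    nlinarith
  have htb := (isCompact_closedBall (0 : ι → ℝ) (|C|)).totallyBounded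
  obtain ⟨s, hs, hcov⟩ := Metric.totallyBounded_iff.1 htb δ' hδ'
  have := hs.fintype
  let n := Fintype.card s
  let e : Fin n ≃ s := (Fintype.equivFin s).symm
  let c : Fin n → ι → ℝ := fun i => (e i : ι → ℝ)
  have hc : ∀ x ∈ X0, ∃ i, ∑ j, |v x j - c i j| ≤ δ := by
    intro x hx
    have h1 : v x ∈ Metric.closedBall (0 : ι → ℝ) (|C|) := by
      rw [mem_closedBall_zero_iff, pi_norm_le_iff_of_nonneg (abs_nonneg _)]
      intro i
      exact (hC x hx i).trans (le_abs_self _)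
    have h2 := hcov h1
    simp only [mem_iUnion] at h2
    obtain ⟨y, hy, hy'⟩ := h2
    refine ⟨e.symm ⟨y, hy⟩, ?_⟩
    have h3 : c (e.symm ⟨y, hy⟩) = y := by simp [c]
    rw [h3]
    rw [Metric.mem_ball] at hy'
    calc ∑ j, |v x j - y j| ≤ ∑ _j : ι, δ' := by
          refine Finset.sum_le_sum fun j _ => ?_
          have := dist_le_pi_dist (v x) y j
          rw [Real.dist_eq] at this
          exact this.trans hy'.le
      _ = Fintype.card ι * δ' := by simp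
      _ ≤ δ := hδ''
  have htri : ∀ (x x' : bW) (i : Fin n), ∑ j, |v x j - c i j| ≤
      ∑ j, |v x' j - c i j| + ∑ j, |v x' j - v x j| := by
    intro x x' i
    rw [← Finset.sum_add_distrib]
    refine Finset.sum_le_sum fun j _ => ?_
    have h1 := abs_sub_le (v x j) (v x' j) (c i j)
    rw [abs_sub_comm (v x j) (v x' j)] at h1
    linarith
  have htri' : ∀ (x x' : bW) (i : Fin n), ∑ j, |v x' j - c i j| ≤
      ∑ j, |v x j - c i j| + ∑ j, |v x' j - v x j| := by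
    intro x x' i
    rw [← Finset.sum_add_distrib]
    refine Finset.sum_le_sum fun j _ => ?_
    have h1 := abs_sub_le (v x' j) (v x j) (c i j)
    linarith
  have hB : ∀ i : Fin n, ∃ B : Set W, (∀ x ∈ X0, ∑ j, |v x j - c i j| ≤ δ → B ∈ x) ∧
      ∀ x ∈ X0, B ∈ x → ∑ j, |v x j - c i j| ≤ 2 * η + δ := by
    intro i
    obtain ⟨B, hB1, hB2⟩ := sepc {x ∈ X0 | ∑ j, |v x j - c i j| ≤ δ}
      {x ∈ X0 | 2 * η + δ < ∑ j, |v x j - c i j|} (hX0.mono fun x hx => hx.1)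
      (hX0.mono fun x hx => hx.1)
      (by
        rintro x ⟨hx, hx'⟩
        obtain ⟨A, hA, hA'⟩ := hosc x hx
        refine ⟨A, hA, ?_⟩
        rintro x' ⟨hx1, hx2⟩ hAx
        have h1 := hA' x' hx1 hAx
        have h2 := htri' x x' i
        linarith)
      (by
        rintro x ⟨hx, hx'⟩
        obtain ⟨A, hA, hA'⟩ := hosc x hx
        refine ⟨A, hA, ?_⟩
        rintro x' ⟨hx1, hx2⟩ hAx
        have h1 := hA' x' hx1 hAx
        have h2 := htri x x' i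
        linarith)
    refine ⟨B, fun x hx hx' => hB1 x ⟨hx, hx'⟩, fun x hx hBx => ?_⟩
    by_contra hcon
    push Not at hcon
    exact hB2 x ⟨hx, hcon⟩ hBx
  choose B hB1 hB2 using hB
  refine ⟨n, fun i => B i \ ⋃ j ∈ Finset.univ.filter (· < i), B j, c, ?_, ?_⟩
  · intro i j hij
    rw [Set.disjoint_left]
    rintro w ⟨h1, h2⟩ ⟨h3, h4⟩
    simp only [mem_iUnion, Finset.mem_filter, Finset.mem_univ, true_and, not_exists] at h2 h4
    rcases lt_or_gt_of_ne hij with h | h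
    · exact h4 i h h1
    · exact h2 j h h3
  · intro x hx
    obtain ⟨i, hi⟩ := hc x hx
    obtain ⟨i0, hi0, hmin⟩ := WellFounded.has_min (wellFounded_lt : WellFounded ((· < ·) :
      Fin n → Fin n → Prop)) {i | B i ∈ x} ⟨i, hB1 i x hx hi⟩
    refine ⟨i0, ?_, hB2 i0 x hx hi0⟩
    refine diff_mem' hi0 (notMem_finUnion fun j hj hjx => ?_)
    exact hmin j hjx (Finset.mem_filter.1 hj).2

end Pool.Agent.Helper27.Sq
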