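import Pool.Agent.Helper27.SqDec

/-!
Decomposition of operators, second part.
-/

set_option autoImplicit false

open Filter Topology Set BoundedContinuousFunction

namespace Pool.Agent.Helper27.Sq

variable {X Y : Set bW}

/-- composition operators -/
noncomputable def compOp (h : Inv Y) (g : Gam) : (Y →ᵇ ℝ) →L[ℝ] (Y →ᵇ ℝ) :=
  LinearMap.mkContinuous
    { toFun := fun f => f.compContinuous ⟨fun u => ⟨act g u, h u u.2 g⟩,
        ((continuous_act g).comp continuous_subtype_val).subtype_mk _⟩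
      map_add' := fun f f' => by ext u; rfl
      map_smul' := fun c f => by ext u; rfl } 1 (fun f => by
        rw [one_mul, BoundedContinuousFunction.norm_le (norm_nonneg _)]
        intro u
        exact f.norm_coe_le_norm _)

theorem compOp_apply (h : Inv Y) (g : Gam) (f : Y →ᵇ ℝ) (u : Y) :
    compOp h g f u = f ⟨act g u, h u u.2 g⟩ := rfl

/-- operators supported by finitely many maps -/
def ClsA (A : (Y →ᵇ ℝ) →L[ℝ] (Y →ᵇ ℝ)) : Prop :=
  ∃ G : Finset Gam, ∀ (x : Y) (f : Y →ᵇ ℝ),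
    (∀ g ∈ G, ∀ hg : act g x ∈ Y, f ⟨act g x, hg⟩ = 0) → A f x = 0

/-- operators supported by finitely many points -/
def ClsF (F : (Y →ᵇ ℝ) →L[ℝ] (Y →ᵇ ℝ)) : Prop :=
  ∃ Z : Finset Y, ∀ f : Y →ᵇ ℝ, (∀ z ∈ Z, f z = 0) → F f = 0

theorem ev_near (t : bW →₀ ℝ) (E : Set W) (p : bW) (hp : E ∈ p) :
    |ev t E - t p| ≤ tv t ({u | u ≠ p} ∩ cl E) := by
  classical
  have h1 : t p = ∑ u ∈ t.support, if u = p then t u else 0 := by
    rw [Finset.sum_ite_eq' t.support p (fun u => t u)]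
    split_ifs with h
    · rfl
    · exact Finsupp.notMem_support_iff.1 h
  rw [h1]
  unfold ev tv
  rw [← Finset.sum_sub_distrib]
  refine (Finset.abs_sum_le_sum_abs _ _).trans (Finset.sum_le_sum fun u _ => ?_)
  by_cases hu : u = p
  · subst hu
    rw [if_pos hp, if_pos rfl, sub_self, abs_zero]
    split_ifs
    · exact abs_nonneg _
    · exact le_rfl
  · by_cases hE : E ∈ u
    · rw [if_pos hE, if_neg hu, sub_zero, if_pos (show u ∈ {u | u ≠ p} ∩ cl E from ⟨hu, hE⟩)]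
    · rw [if_neg hE, if_neg hu, sub_zero, abs_zero]
      split_ifs
      · exact abs_nonneg _
      · exact le_rfl

theorem split_sum {ι : Type} [Fintype ι] (t : bW →₀ ℝ) (pt : ι → bW) (hpt : Function.Injective pt)
    (g : bW → ℝ) (B : ℝ) (hg : ∀ u, |g u| ≤ B) :
    |∑ u ∈ t.support, t u * g u - ∑ j, t (pt j) * g (pt j)| ≤ B * tv t {u | ∀ j, u ≠ pt j} := by
  classical
  have h1 : ∑ j, t (pt j) * g (pt j) = ∑ u ∈ Finset.univ.image pt, t u * g u := by
    rw [Finset.sum_image]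
    intro a _ b _ h
    exact hpt h
  have h2 : ∑ u ∈ Finset.univ.image pt, t u * g u =
      ∑ u ∈ t.support ∩ Finset.univ.image pt, t u * g u := by
    symm
    apply Finset.sum_subset Finset.inter_subset_right
    intro u hu hu'
    have : u ∉ t.support := fun h => hu' (Finset.mem_inter.2 ⟨h, hu⟩)
    rw [Finsupp.notMem_support_iff.1 this, zero_mul]
  rw [h1, h2, ← Finset.sum_inter_add_sum_sdiff t.support (Finset.univ.image pt), add_sub_cancel_left]
  refine (Finset.abs_sum_le_sum_abs _ _).trans ?_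
  unfold tv
  rw [Finset.mul_sum]
  have hB : 0 ≤ B := (abs_nonneg _).trans (hg (pure []))
  refine le_trans (Finset.sum_le_sum fun u hu => ?_)
    (Finset.sum_le_sum_of_subset_of_nonneg
      (Finset.sdiff_subset (s := t.support) (t := Finset.univ.image pt)) fun u _ _ => ?_)
  · rw [Finset.mem_sdiff, Finset.mem_image] at hu
    rw [if_pos (show u ∈ {u | ∀ j, u ≠ pt j} from fun j hj => hu.2 ⟨j, Finset.mem_univ _, hj.symm⟩),
      abs_mul, mul_comm]
    exact mul_le_mul_of_nonneg_right (hg u) (abs_nonneg _)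
  · refine mul_nonneg hB ?_
    split_ifs
    · exact abs_nonneg _
    · exact le_rfl

theorem tv_sum_le' {ι : Type*} (t : bW →₀ ℝ) (I : Finset ι) (D : ι → Set W) (R : Set bW)
    (h : ∀ m ∈ I, ∀ n ∈ I, m ≠ n → Disjoint (D m) (D n)) :
    ∑ n ∈ I, tv t (R ∩ cl (D n)) ≤ tv t R := by
  classical
  unfold tv
  rw [Finset.sum_comm]
  refine Finset.sum_le_sum fun u _ => ?_
  by_cases hR : u ∈ R
  · rw [if_pos hR]
    by_cases hex : ∃ n ∈ I, D n ∈ u
    · obtain ⟨n, hn, hnu⟩ := hex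
      rw [Finset.sum_eq_single_of_mem n hn]
      · rw [if_pos (show u ∈ R ∩ cl (D n) from ⟨hR, hnu⟩)]
      · intro m hm hmn
        rw [if_neg]
        intro hmu
        have h1 := Ultrafilter.nonempty_of_mem (inter_mem hmu.2 hnu)
        exact (Set.disjoint_iff_inter_eq_empty.1 (h m hm n hn hmn) ▸ h1).ne_empty rfl
    · push Not at hex
      rw [Finset.sum_eq_zero]
      · exact abs_nonneg _
      · intro n hn
        exact if_neg (fun h => hex n hn h.2)
  · rw [if_neg hR, Finset.sum_eq_zero]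
    intro n _
    exact if_neg (fun h => hR h.1)

theorem osc {ι : Type} [Fintype ι] (X0 : Set bW) (hX0 : X0 ⊆ Y)
    {T : (Y →ᵇ ℝ) →L[ℝ] (Y →ᵇ ℝ)} {t : Y → (bW →₀ ℝ)} (ht : Rep T t) (t' : bW → (bW →₀ ℝ))
    (ht' : ∀ y : Y, t' y = t y)
    (pt : bW → ι → bW) (hpt : ∀ x ∈ X0, Function.Injective (pt x))
    (hcont : ∀ x0 ∈ X0, ∀ E : ι → Set W, (∀ i, E i ∈ pt x0 i) →
      ∃ B ∈ x0, ∀ x ∈ X0, B ∈ x → ∀ i, E i ∈ pt x i)
    (ε : ℝ) (hε : 0 < ε) (htv : ∀ x ∈ X0, tv (t' x) {u | ∀ j, u ≠ pt x j} ≤ ε) :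
    ∀ x0 ∈ X0, ∃ A ∈ x0, ∀ x ∈ X0, A ∈ x → ∑ i, |t' x (pt x i) - t' x0 (pt x0 i)| ≤ 2 * ε := by
  classical
  intro x0 hx0
  obtain ⟨D, hD1, hD2⟩ := famsep (Finset.univ : Finset ι) (fun i => {pt x0 i}) (by
    intro m _ n _ hmn u hu hu'
    rw [Finset.mem_singleton] at hu hu'
    exact hmn (hpt x0 hx0 (hu.symm.trans hu')))
  have hA : ∀ i, ∃ A : Set W, A ∈ pt x0 i ∧ ∀ u ∈ (t' x0).support, u ≠ pt x0 i → A ∉ u := by
    intro i
    obtain ⟨A, hA1, hA2⟩ := sepfin {pt x0 i} ((t' x0).support.erase (pt x0 i)) (by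
      intro u hu
      rw [Finset.mem_singleton] at hu
      rw [hu]
      exact Finset.notMem_erase _ _)
    exact ⟨A, hA1 _ (Finset.mem_singleton_self _), fun u hu hu' => hA2 u (Finset.mem_erase.2 ⟨hu', hu⟩)⟩
  choose A hA1 hA2 using hA
  let E : ι → Set W := fun i => D i ∩ A i
  have hE1 : ∀ i, E i ∈ pt x0 i := fun i =>
    inter_mem (hD1 i (Finset.mem_univ _) _ (Finset.mem_singleton_self _)) (hA1 i)
  have hE2 : ∀ i j, i ≠ j → Disjoint (E i) (E j) := fun i j hij =>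
    (hD2 i (Finset.mem_univ _) j (Finset.mem_univ _) hij).mono inter_subset_left inter_subset_left
  have hE3 : ∀ i, ∀ u ∈ (t' x0).support, u ≠ pt x0 i → E i ∉ u := fun i u hu hu' h =>
    hA2 i u hu hu' (mem_of_superset h inter_subset_right)
  obtain ⟨B, hB, hBx⟩ := hcont x0 hx0 E hE1
  -- continuity of the values on the sets `E i`
  let y0 : Y := ⟨x0, hX0 hx0⟩
  let δ : ℝ := ε / (Fintype.card ι + 1)
  have hδ : 0 < δ := by positivity
  have hδ' : (Fintype.card ι : ℝ) * δ ≤ ε := by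
    have h1 : ((Fintype.card ι : ℝ) + 1) * δ = ε := by
      simp only [δ]; field_simp
    nlinarith
  have hC : ∃ C ∈ x0, ∀ x ∈ X0, C ∈ x → ∀ i, |ev (t' x) (E i) - ev (t' x0) (E i)| ≤ δ := by
    have h1 : ∀ i, {v : Y | dist (T (chi Y (E i)) v) (T (chi Y (E i)) y0) < δ} ∈ 𝓝 y0 := by
      intro i
      have := (T (chi Y (E i))).continuous.continuousAt (x := y0)
      exact Metric.tendsto_nhds.1 this δ hδ
    have h2 : (⋂ i, {v : Y | dist (T (chi Y (E i)) v) (T (chi Y (E i)) y0) < δ}) ∈ 𝓝 y0 :=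
      (Filter.iInter_mem).2 h1
    obtain ⟨C, hC, hC'⟩ := mem_nhds_Y.1 h2
    refine ⟨C, hC, fun x hx hCx i => ?_⟩
    have h3 := mem_iInter.1 (hC' ⟨x, hX0 hx⟩ hCx) i
    change dist (T (chi Y (E i)) ⟨x, hX0 hx⟩) (T (chi Y (E i)) y0) < δ at h3
    rw [ht.chi, ht.chi, Real.dist_eq, ← ht', ← ht'] at h3
    exact h3.le
  obtain ⟨C, hC, hCx⟩ := hC
  refine ⟨B ∩ C, inter_mem hB hC, fun x hx hx' => ?_⟩
  have hBx' := hBx x hx (mem_of_superset hx' inter_subset_left)
  have hCx' := hCx x hx (mem_of_superset hx' inter_subset_right)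
  have h1 : ∀ i, |t' x (pt x i) - t' x0 (pt x0 i)| ≤
      tv (t' x) ({u | ∀ j, u ≠ pt x j} ∩ cl (E i)) + δ := by
    intro i
    have h2 : ev (t' x0) (E i) = t' x0 (pt x0 i) := ev_single (hE1 i) (hE3 i)
    have h3 := ev_near (t' x) (E i) (pt x i) (hBx' i)
    have h4 : tv (t' x) ({u | u ≠ pt x i} ∩ cl (E i)) ≤
        tv (t' x) ({u | ∀ j, u ≠ pt x j} ∩ cl (E i)) := by
      refine tv_mono _ ?_
      rintro u _ ⟨hu1, hu2⟩
      refine ⟨fun j hj => ?_, hu2⟩
      by_cases hij : i = j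
      · subst hij
        exact hu1 hj
      · have h5 : E j ∈ u := hj ▸ hBx' j
        obtain ⟨w, hw1, hw2⟩ := Ultrafilter.nonempty_of_mem (inter_mem hu2 h5)
        exact Set.disjoint_left.1 (hE2 i j hij) hw1 hw2
    have h5 := hCx' i
    rw [← h2]
    have h6 := abs_sub_le (t' x (pt x i)) (ev (t' x) (E i)) (ev (t' x0) (E i))
    rw [abs_sub_comm (t' x (pt x i)) (ev (t' x) (E i))] at h6
    linarith
  calc ∑ i, |t' x (pt x i) - t' x0 (pt x0 i)| ≤
        ∑ i, (tv (t' x) ({u | ∀ j, u ≠ pt x j} ∩ cl (E i)) + δ) := Finset.sum_le_sum fun i _ => h1 i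
    _ = ∑ i, tv (t' x) ({u | ∀ j, u ≠ pt x j} ∩ cl (E i)) + Fintype.card ι * δ := by
        rw [Finset.sum_add_distrib]; simp
    _ ≤ ε + ε := by
        refine add_le_add ?_ hδ'
        exact (tv_sum_le' (t' x) Finset.univ E _ (fun m _ n _ hmn => hE2 m n hmn)).trans (htv x hx)
    _ = 2 * ε := by ring

end Pool.Agent.Helper27.Sq
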