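import Pool.Agent.Helper27.SqDec2

/-!
Decomposition of operators, third part.
-/

set_option autoImplicit false

open Filter Topology Set BoundedContinuousFunction

namespace Pool.Agent.Helper27.Sq

variable {X Y : Set bW}

theorem abs_le_tv (t : bW →₀ ℝ) (u : bW) : |t u| ≤ tv t univ := by
  classical
  by_cases hu : u ∈ t.support
  · unfold tv
    simp only [mem_univ, if_true]
    exact Finset.single_le_sum (f := fun u => |t u|) (fun i _ => abs_nonneg _) hu
  · rw [Finsupp.notMem_support_iff.1 hu, abs_zero]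
    exact tv_nonneg _ _

/-- multiplication by an indicator function -/
noncomputable def mulOp (Y : Set bW) (A : Set W) : (Y →ᵇ ℝ) →L[ℝ] (Y →ᵇ ℝ) :=
  ContinuousLinearMap.mul ℝ (Y →ᵇ ℝ) (chi Y A)

theorem mulOp_apply (A : Set W) (f : Y →ᵇ ℝ) (u : Y) : mulOp Y A f u = ind Y A u * f u := rfl

theorem decompose (h : Good X Y) {T : (Y →ᵇ ℝ) →L[ℝ] (Y →ᵇ ℝ)} (hT : FinSup T) {ε : ℝ}
    (hε : 0 < ε) : ∃ A F : (Y →ᵇ ℝ) →L[ℝ] (Y →ᵇ ℝ), ClsA A ∧ ClsF F ∧ ‖T - A - F‖ ≤ ε := by
  classical
  obtain ⟨t, ht⟩ := exists_rep hT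
  have hε1 : 0 < ε / 6 := by positivity
  obtain ⟨G, P, hGP⟩ := not_bad h ht hε1
  obtain ⟨M, L, hML⟩ := exists_level G
  let P' : Finset Y := P.subtype (· ∈ Y)
  let ι : Type := L ⊕ P'
  let pt : bW → ι → bW := fun x => Sum.elim (fun a => act (a, M) x) (fun p => ((p : Y) : bW))
  let X0 : Set bW := {x ∈ X | ∀ a ∈ L, ∀ p ∈ P', act (a, M) x ≠ (p : bW)}
  let t' : bW → (bW →₀ ℝ) := fun x => if hx : x ∈ Y then t ⟨x, hx⟩ else 0
  have ht' : ∀ y : Y, t' y = t y := fun y => by
    simp only [t']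
    rw [dif_pos y.2]
  have hX0Y : X0 ⊆ Y := fun x hx => h.sub hx.1
  have hpt : ∀ x ∈ X0, Function.Injective (pt x) := by
    intro x hx i j hij
    rcases i with a | p <;> rcases j with b | q
    · exact congrArg Sum.inl (Subtype.ext (act_level_inj hij))
    · exact absurd hij (hx.2 a a.2 q q.2)
    · exact absurd hij.symm (hx.2 b b.2 p p.2)
    · exact congrArg Sum.inr (Subtype.ext (Subtype.ext hij))
  have hcont : ∀ x0 ∈ X0, ∀ E : ι → Set W, (∀ i, E i ∈ pt x0 i) →
      ∃ B ∈ x0, ∀ x ∈ X0, B ∈ x → ∀ i, E i ∈ pt x i := by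
    intro x0 _ E hE
    refine ⟨⋂ a : L, gm (a, M) ⁻¹' E (Sum.inl a), ?_, ?_⟩
    · exact (Filter.iInter_mem (f := (x0 : Filter W))).2 fun a => hE (Sum.inl a)
    · intro x _ hB i
      rcases i with a | p
      · change gm (a, M) ⁻¹' E (Sum.inl a) ∈ x
        exact mem_of_superset hB (iInter_subset (fun a : L => gm (a, M) ⁻¹' E (Sum.inl a)) a)
      · exact hE (Sum.inr p)
  have htv : ∀ x ∈ X0, tv (t' x) {u | ∀ j, u ≠ pt x j} ≤ ε / 6 := by
    intro x hx
    have h1 := hGP ⟨x, hX0Y hx⟩ hx.1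
    rw [← ht'] at h1
    refine (tv_mono _ ?_).trans h1
    intro u hu hu'
    refine ⟨fun huP => ?_, fun g hg hug => ?_⟩
    · have huY : u ∈ Y := by
        rw [ht' ⟨x, hX0Y hx⟩] at hu
        exact ht.supp _ u hu
      exact hu' (Sum.inr ⟨⟨u, huY⟩, Finset.mem_subtype.2 huP⟩) rfl
    · obtain ⟨a, ha, haM⟩ := hML x (h.FFY (hX0Y hx)) g hg
      exact hu' (Sum.inl ⟨a, ha⟩) (hug.trans haM)
  have hosc := osc X0 hX0Y ht t' ht' pt hpt hcont (ε / 6) hε1 htv
  obtain ⟨n, A, c, hA, hc⟩ := step X0 (h.cX.mono fun x hx => hx.1) (fun x i => t' x (pt x i)) ‖T‖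
    (by
      intro x hx i
      refine (abs_le_tv _ _).trans ?_
      rw [ht' ⟨x, hX0Y hx⟩]
      exact ht.tv_le _) (2 * (ε / 6)) (ε / 6) (by positivity) hε1 hosc
  let opA : (Y →ᵇ ℝ) →L[ℝ] (Y →ᵇ ℝ) :=
    ∑ i : Fin n, ∑ a : L, c i (Sum.inl a) • ((mulOp Y (A i)).comp (compOp h.invY (a, M)))
  let opF : (Y →ᵇ ℝ) →L[ℝ] (Y →ᵇ ℝ) :=
    ∑ i : Fin n, ∑ p : P', c i (Sum.inr p) •
      ((BoundedContinuousFunction.evalCLM ℝ (p : Y)).smulRight (chi Y (A i)))
  have hopA : ∀ (f : Y →ᵇ ℝ) (x : Y), opA f x = ∑ i : Fin n, ∑ a : L,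
      c i (Sum.inl a) * (ind Y (A i) x * ext f (act (a, M) x)) := by
    intro f x
    simp only [opA, _root_.sum_apply, _root_.smul_apply,
      BoundedContinuousFunction.sum_apply, BoundedContinuousFunction.smul_apply, smul_eq_mul,
      ContinuousLinearMap.comp_apply, mulOp_apply, compOp_apply]
    refine Finset.sum_congr rfl fun i _ => Finset.sum_congr rfl fun a _ => ?_
    rw [ext_of f (h.invY x x.2 (a, M))]
  have hopF : ∀ (f : Y →ᵇ ℝ) (x : Y), opF f x = ∑ i : Fin n, ∑ p : P',
      c i (Sum.inr p) * (ind Y (A i) x * ext f ((p : Y) : bW)) := by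
    intro f x
    simp only [opF, _root_.sum_apply, _root_.smul_apply,
      BoundedContinuousFunction.sum_apply, BoundedContinuousFunction.smul_apply, smul_eq_mul,
      ContinuousLinearMap.smulRight_apply, chi_apply]
    refine Finset.sum_congr rfl fun i _ => Finset.sum_congr rfl fun p _ => ?_
    rw [ext_coe, mul_comm (ind Y (A i) x)]
    rfl
  refine ⟨opA, opF, ?_, ?_, ?_⟩
  · refine ⟨L.image fun a => (a, M), ?_⟩
    intro x f hf
    rw [hopA]
    refine Finset.sum_eq_zero fun i _ => Finset.sum_eq_zero fun a _ => ?_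
    rw [ext_of f (h.invY x x.2 (a, M)), hf (a, M) (Finset.mem_image_of_mem _ a.2)]
    simp
  · refine ⟨P', ?_⟩
    intro f hf
    ext x
    rw [hopF]
    refine Finset.sum_eq_zero fun i _ => Finset.sum_eq_zero fun p _ => ?_
    rw [ext_coe, hf p p.2]
    simp
  · refine ContinuousLinearMap.opNorm_le_bound _ hε.le fun f => ?_
    rw [BoundedContinuousFunction.norm_le (by positivity)]
    -- exceptional set
    let Ex : Set bW := ⋃ a ∈ L, ⋃ p ∈ P', {x ∈ FF | act (a, M) x = (p : bW)}
    have hEx : Ex.Finite := by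
      refine L.finite_toSet.biUnion fun a _ => P'.finite_toSet.biUnion fun p _ => ?_
      exact finite_preimage _ _
    have hclosed : IsClosed {y : Y | ‖(T - opA - opF) f y‖ ≤ ε * ‖f‖} :=
      isClosed_le ((T - opA - opF) f).continuous.norm continuous_const
    have hsub : {y : Y | (y : bW) ∈ X ∧ (y : bW) ∉ Ex} ⊆
        {y : Y | ‖(T - opA - opF) f y‖ ≤ ε * ‖f‖} := by
      rintro x ⟨hxX, hxE⟩
      have hx0 : (x : bW) ∈ X0 := by
        refine ⟨hxX, fun a ha p hp hap => hxE ?_⟩
        simp only [Ex, mem_iUnion]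
        exact ⟨a, ha, p, hp, h.FFY x.2, hap⟩
      obtain ⟨i0, hi0, hi0'⟩ := hc x hx0
      have hind : ∀ i, ind Y (A i) x = if i = i0 then 1 else 0 := by
        intro i
        unfold ind
        by_cases hi : i = i0
        · subst hi
          rw [if_pos hi0, if_pos rfl]
        · rw [if_neg hi, if_neg]
          intro hi1
          obtain ⟨w, hw1, hw2⟩ := Ultrafilter.nonempty_of_mem (inter_mem hi1 hi0)
          exact Set.disjoint_left.1 (hA i i0 hi) hw1 hw2
      have h1 : (opA f x + opF f x) = ∑ j, c i0 j * ext f (pt x j) := by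
        rw [hopA, hopF, Fintype.sum_sum_type]
        congr 1
        · rw [Finset.sum_eq_single i0]
          · refine Finset.sum_congr rfl fun a _ => ?_
            rw [hind, if_pos rfl, one_mul]
            rfl
          · intro i _ hi
            refine Finset.sum_eq_zero fun a _ => ?_
            rw [hind, if_neg hi]
            simp
          · intro hcon
            exact absurd (Finset.mem_univ _) hcon
        · rw [Finset.sum_eq_single i0]
          · refine Finset.sum_congr rfl fun a _ => ?_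
            rw [hind, if_pos rfl, one_mul]
            rfl
          · intro i _ hi
            refine Finset.sum_eq_zero fun a _ => ?_
            rw [hind, if_neg hi]
            simp
          · intro hcon
            exact absurd (Finset.mem_univ _) hcon
      have h2 : |T f x - ∑ j, t' x (pt x j) * ext f (pt x j)| ≤ ‖f‖ * (ε / 6) := by
        rw [ht.eq, ← ht' x]
        refine (split_sum (t' x) (pt x) (hpt x hx0) (ext f) ‖f‖ (abs_ext_le f)).trans ?_
        exact mul_le_mul_of_nonneg_left (htv x hx0) (norm_nonneg _)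
      have h3 : |∑ j, t' x (pt x j) * ext f (pt x j) - ∑ j, c i0 j * ext f (pt x j)| ≤
          (2 * (2 * (ε / 6)) + ε / 6) * ‖f‖ := by
        rw [← Finset.sum_sub_distrib]
        refine (Finset.abs_sum_le_sum_abs _ _).trans ?_
        refine le_trans (Finset.sum_le_sum (g := fun j => |t' x (pt x j) - c i0 j| * ‖f‖)
          fun j _ => ?_) ?_
        · rw [← sub_mul, abs_mul]
          exact mul_le_mul_of_nonneg_left (abs_ext_le f _) (abs_nonneg _)
        · rw [← Finset.sum_mul]
          exact mul_le_mul_of_nonneg_right hi0' (norm_nonneg _)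
      change ‖(T - opA - opF) f x‖ ≤ ε * ‖f‖
      have h4 : (T - opA - opF) f x = T f x - (opA f x + opF f x) := by
        simp only [_root_.sub_apply, BoundedContinuousFunction.sub_apply]
        ring
      rw [h4, h1, Real.norm_eq_abs]
      have h5 := abs_sub_le (T f x) (∑ j, t' x (pt x j) * ext f (pt x j))
        (∑ j, c i0 j * ext f (pt x j))
      nlinarith [norm_nonneg f]
    intro y
    have h1 := (dense_diff h Ex hEx).mono hsub
    have h2 : {y : Y | ‖(T - opA - opF) f y‖ ≤ ε * ‖f‖} = univ := by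
      rw [← hclosed.closure_eq]
      exact h1.closure_eq
    have h3 : y ∈ {y : Y | ‖(T - opA - opF) f y‖ ≤ ε * ‖f‖} := by
      rw [h2]
      exact mem_univ y
    exact h3

end Pool.Agent.Helper27.Sq
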