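import Pool.Agent.Helper27.SqDec3

/-!
The index argument.
-/

set_option autoImplicit false
set_option maxSynthPendingDepth 3

open Filter Topology Set BoundedContinuousFunction

namespace Pool.Agent.Helper27.Sq

variable {X Y : Set bW}

theorem norm_mulOp_le (A : Set W) (f : Y →ᵇ ℝ) : ‖mulOp Y A f‖ ≤ ‖f‖ := by
  rw [BoundedContinuousFunction.norm_le (norm_nonneg _)]
  intro u
  rw [mulOp_apply, norm_mul, Real.norm_eq_abs, abs_of_nonneg (ind_nonneg A u)]
  calc ind Y A u * ‖f u‖ ≤ 1 * ‖f‖ :=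
        mul_le_mul (ind_le_one A u) (f.norm_coe_le_norm u) (norm_nonneg _) zero_le_one
    _ = ‖f‖ := one_mul _

theorem norm_le_add (h : Good X Y) {A F : (Y →ᵇ ℝ) →L[ℝ] (Y →ᵇ ℝ)} (hA : ClsA A) (hF : ClsF F) :
    ‖A‖ ≤ ‖A + F‖ := by
  classical
  obtain ⟨G, hG⟩ := hA
  obtain ⟨Z, hZ⟩ := hF
  refine ContinuousLinearMap.opNorm_le_bound _ (norm_nonneg _) fun f => ?_
  rw [BoundedContinuousFunction.norm_le (by positivity)]
  let Ex : Set bW := ⋃ g ∈ G, ⋃ z ∈ Z, {x ∈ FF | act g x = (z : bW)}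
  have hEx : Ex.Finite := by
    refine G.finite_toSet.biUnion fun g _ => Z.finite_toSet.biUnion fun z _ => ?_
    exact finite_preimage _ _
  have hclosed : IsClosed {y : Y | ‖A f y‖ ≤ ‖A + F‖ * ‖f‖} :=
    isClosed_le (A f).continuous.norm continuous_const
  have hsub : {y : Y | (y : bW) ∈ X ∧ (y : bW) ∉ Ex} ⊆ {y : Y | ‖A f y‖ ≤ ‖A + F‖ * ‖f‖} := by
    rintro x ⟨_, hxE⟩
    obtain ⟨D, hD1, hD2⟩ := sepfin (G.image fun g => act g x) (Z.image (fun z : Y => (z : bW))) (by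
      intro u hu hu'
      obtain ⟨g, hg, rfl⟩ := Finset.mem_image.1 hu
      obtain ⟨z, hz, hzg⟩ := Finset.mem_image.1 hu'
      apply hxE
      simp only [Ex, mem_iUnion]
      exact ⟨g, hg, z, hz, h.FFY x.2, hzg.symm⟩)
    have h1 : A (f - mulOp Y D f) x = 0 := by
      apply hG
      intro g hg hgY
      rw [BoundedContinuousFunction.sub_apply, mulOp_apply]
      have h2 : ind Y D ⟨act g x, hgY⟩ = 1 := by
        unfold ind
        rw [if_pos (hD1 _ (Finset.mem_image_of_mem _ hg))]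
      rw [h2]
      ring
    have h2 : F (mulOp Y D f) = 0 := by
      apply hZ
      intro z hz
      rw [mulOp_apply]
      have h3 : ind Y D z = 0 := by
        unfold ind
        rw [if_neg (hD2 _ (Finset.mem_image_of_mem _ hz))]
      rw [h3, zero_mul]
    have h3 : A f x = (A + F) (mulOp Y D f) x := by
      rw [_root_.add_apply, BoundedContinuousFunction.add_apply, h2]
      rw [map_sub, BoundedContinuousFunction.sub_apply] at h1
      simp
      linarith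
    change ‖A f x‖ ≤ ‖A + F‖ * ‖f‖
    rw [h3]
    calc ‖(A + F) (mulOp Y D f) x‖ ≤ ‖(A + F) (mulOp Y D f)‖ :=
          ((A + F) (mulOp Y D f)).norm_coe_le_norm x
      _ ≤ ‖A + F‖ * ‖mulOp Y D f‖ := (A + F).le_opNorm _
      _ ≤ ‖A + F‖ * ‖f‖ := mul_le_mul_of_nonneg_left (norm_mulOp_le D f) (norm_nonneg _)
  intro y
  have h1 := (dense_diff h Ex hEx).mono hsub
  have h2 : {y : Y | ‖A f y‖ ≤ ‖A + F‖ * ‖f‖} = univ := by
    rw [← hclosed.closure_eq]
    exact h1.closure_eq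
  have h3 : y ∈ {y : Y | ‖A f y‖ ≤ ‖A + F‖ * ‖f‖} := by
    rw [h2]
    exact mem_univ y
  exact h3

theorem ClsA.mul {A B : (Y →ᵇ ℝ) →L[ℝ] (Y →ᵇ ℝ)} (hA : ClsA A) (hB : ClsA B) :
    ClsA (B * A) := by
  classical
  obtain ⟨G, hG⟩ := hA
  obtain ⟨G', hG'⟩ := hB
  refine ⟨(G ×ˢ G').image fun q => gmul q.1 q.2, fun x f hf => ?_⟩
  change B (A f) x = 0
  apply hG'
  intro g hg hgY
  apply hG
  intro k hk hkY
  have h1 : act k (act g x) = act (gmul k g) x := act_act k g x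
  have h2 : act (gmul k g) x ∈ Y := h1 ▸ hkY
  have h3 := hf (gmul k g) (Finset.mem_image.2 ⟨(k, g), Finset.mem_product.2 ⟨hk, hg⟩, rfl⟩) h2
  have h4 : (⟨act k (act g x), hkY⟩ : Y) = ⟨act (gmul k g) x, h2⟩ := Subtype.ext h1
  change f ⟨act k (act g x), hkY⟩ = 0
  rw [h4]
  exact h3

theorem ClsA.sub {A B : (Y →ᵇ ℝ) →L[ℝ] (Y →ᵇ ℝ)} (hA : ClsA A) (hB : ClsA B) :
    ClsA (A - B) := by
  classical
  obtain ⟨G, hG⟩ := hA
  obtain ⟨G', hG'⟩ := hB
  refine ⟨G ∪ G', fun x f hf => ?_⟩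
  rw [_root_.sub_apply, BoundedContinuousFunction.sub_apply,
    hG x f (fun g hg => hf g (Finset.mem_union_left _ hg)),
    hG' x f (fun g hg => hf g (Finset.mem_union_right _ hg)), sub_zero]

theorem ClsA.one : ClsA (1 : (Y →ᵇ ℝ) →L[ℝ] (Y →ᵇ ℝ)) := by
  refine ⟨{([], 0)}, fun x f hf => ?_⟩
  have h1 : act ([], 0) x ∈ Y := by rw [act_one]; exact x.2
  have h2 := hf ([], 0) (Finset.mem_singleton_self _) h1
  have h3 : (⟨act ([], 0) x, h1⟩ : Y) = x := Subtype.ext (act_one _)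
  rw [h3] at h2
  exact h2

theorem ClsF.add {A B : (Y →ᵇ ℝ) →L[ℝ] (Y →ᵇ ℝ)} (hA : ClsF A) (hB : ClsF B) :
    ClsF (A + B) := by
  classical
  obtain ⟨G, hG⟩ := hA
  obtain ⟨G', hG'⟩ := hB
  refine ⟨G ∪ G', fun f hf => ?_⟩
  rw [_root_.add_apply, hG f (fun g hg => hf g (Finset.mem_union_left _ hg)),
    hG' f (fun g hg => hf g (Finset.mem_union_right _ hg)), add_zero]

theorem ClsF.mul_left {F : (Y →ᵇ ℝ) →L[ℝ] (Y →ᵇ ℝ)} (hF : ClsF F)
    (S : (Y →ᵇ ℝ) →L[ℝ] (Y →ᵇ ℝ)) : ClsF (S * F) := by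
  obtain ⟨Z, hZ⟩ := hF
  refine ⟨Z, fun f hf => ?_⟩
  change S (F f) = 0
  rw [hZ f hf, map_zero]

theorem ClsF.mul_clsA {F A : (Y →ᵇ ℝ) →L[ℝ] (Y →ᵇ ℝ)} (hY : Inv Y) (hF : ClsF F) (hA : ClsA A) :
    ClsF (F * A) := by
  classical
  obtain ⟨Z, hZ⟩ := hF
  obtain ⟨G, hG⟩ := hA
  refine ⟨(Z ×ˢ G).image fun q => (⟨act q.2 q.1, hY _ q.1.2 q.2⟩ : Y), fun f hf => ?_⟩
  change F (A f) = 0
  apply hZ
  intro z hz
  apply hG
  intro g hg hgY
  exact hf _ (Finset.mem_image.2 ⟨(z, g), Finset.mem_product.2 ⟨hz, hg⟩, rfl⟩)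

/-- finite rank perturbations of the identity -/
theorem surj_of_inj (Φ : (Y →ᵇ ℝ) →L[ℝ] (Y →ᵇ ℝ)) (hΦ : ClsF Φ)
    (hinj : ∀ f, f + Φ f = 0 → f = 0) (g : Y →ᵇ ℝ) : ∃ f, f + Φ f = g := by
  classical
  obtain ⟨Z, hZ⟩ := hΦ
  have h3 : ∀ u : Y, ∃ A : Set W, u ∈ Z → A ∈ (u : bW) ∧ ∀ v ∈ Z, v ≠ u → A ∉ (v : bW) := by
    intro u
    obtain ⟨A, hA1, hA2⟩ := sepfin {(u : bW)} ((Z.erase u).image (↑)) (by
      intro v hv hv'
      rw [Finset.mem_singleton] at hv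
      rw [Finset.mem_image] at hv'
      obtain ⟨v', hv', hvv⟩ := hv'
      exact (Finset.mem_erase.1 hv').1 (Subtype.ext (hvv.trans hv)))
    refine ⟨A, fun _ => ⟨hA1 u (Finset.mem_singleton_self _), fun v hv hvu => ?_⟩⟩
    exact hA2 v (Finset.mem_image_of_mem _ (Finset.mem_erase.2 ⟨hvu, hv⟩))
  choose A hA using h3
  have hrep : ∀ f : Y →ᵇ ℝ, Φ f = ∑ z ∈ Z, f z • Φ (chi Y (A z)) := by
    intro f
    have h1 : Φ (f - ∑ z ∈ Z, f z • chi Y (A z)) = 0 := by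
      apply hZ
      intro v hv
      rw [BoundedContinuousFunction.sub_apply, BoundedContinuousFunction.sum_apply,
        Finset.sum_eq_single_of_mem v hv]
      · simp [ind, (hA v hv).1]
      · intro u hu huv
        simp [ind, (hA u hu).2 v hv (Ne.symm huv)]
    rw [map_sub, map_sum, sub_eq_zero] at h1
    rw [h1]
    refine Finset.sum_congr rfl fun z _ => ?_
    rw [map_smul]
  let V : Submodule ℝ (Y →ᵇ ℝ) := Submodule.span ℝ ((Z.image fun z => Φ (chi Y (A z)) : Finset _) :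
    Set (Y →ᵇ ℝ))
  have hV : ∀ f, Φ f ∈ V := by
    intro f
    rw [hrep]
    refine Submodule.sum_mem _ fun z hz => Submodule.smul_mem _ _ (Submodule.subset_span ?_)
    exact Finset.mem_coe.2 (Finset.mem_image_of_mem _ hz)
  have hfin : FiniteDimensional ℝ V := FiniteDimensional.span_finset ℝ _
  let L : V →ₗ[ℝ] V := ((LinearMap.id + (Φ : (Y →ᵇ ℝ) →ₗ[ℝ] (Y →ᵇ ℝ))).restrict (fun v hv =>
    V.add_mem hv (hV v)))
  have hLinj : Function.Injective L := by
    rw [injective_iff_map_eq_zero]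
    intro v hv
    have h1 : (v : Y →ᵇ ℝ) + Φ v = 0 := congrArg Subtype.val hv
    exact Subtype.ext (hinj _ h1)
  have hLsurj : Function.Surjective L := LinearMap.injective_iff_surjective.1 hLinj
  obtain ⟨v, hv⟩ := hLsurj ⟨Φ g, hV g⟩
  have h1 : (v : Y →ᵇ ℝ) + Φ v = Φ g := congrArg Subtype.val hv
  refine ⟨g - v, ?_⟩
  rw [map_sub, ← h1]
  abel

theorem index_zero (h : Good X Y) (T S : (Y →ᵇ ℝ) →L[ℝ] (Y →ᵇ ℝ)) (hT : FinSup T) (hS : FinSup S)
    (F0 : (Y →ᵇ ℝ) →L[ℝ] (Y →ᵇ ℝ)) (hF0 : ClsF F0) (hST : S * T = 1) (hTS : T * S = 1 - F0)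
    (g : Y →ᵇ ℝ) : ∃ f, T f = g := by
  set K : ℝ := ‖T‖ + ‖S‖ + 1 with hK
  have hK1 : 1 ≤ K := by
    have := norm_nonneg T
    have := norm_nonneg S
    linarith
  set ε : ℝ := 1 / (4 * K) with hε
  have hεpos : 0 < ε := by positivity
  have hεK : ε * K = 1 / 4 := by
    rw [hε]; field_simp
  have hε1 : ε ≤ 1 := by nlinarith
  obtain ⟨A, F, hA, hF, hR⟩ := decompose h hT hεpos
  obtain ⟨B, F', hB, hF', hR'⟩ := decompose h hS hεpos
  set R := T - A - F with hRdef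
  set R' := S - B - F' with hR'def
  have hnA : ‖A‖ ≤ K := by
    have h1 := norm_le_add h hA hF
    have h2 : A + F = T - R := by rw [hRdef]; abel
    rw [h2] at h1
    have h3 := norm_sub_le T R
    have := norm_nonneg S
    linarith
  have hnB : ‖B‖ ≤ K := by
    have h1 := norm_le_add h hB hF'
    have h2 : B + F' = S - R' := by rw [hR'def]; abel
    rw [h2] at h1
    have h3 := norm_sub_le S R'
    have := norm_nonneg T
    linarith
  have hnS : ‖S‖ ≤ K := by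
    have := norm_nonneg T
    linarith
  have hnT : ‖T‖ ≤ K := by
    have := norm_nonneg S
    linarith
  -- B * A is close to 1
  have hBA : ‖B * A - 1‖ ≤ 2 * (ε * K) := by
    have h1 : ClsA (B * A - 1) := (hA.mul hB).sub ClsA.one
    have h2 : ClsF (S * F + F' * A) := (hF.mul_left S).add (hF'.mul_clsA h.invY hA)
    have h3 : (B * A - 1) + (S * F + F' * A) = -(S * R) - R' * A := by
      have e1 : S * T = S * A + S * F + S * R := by
        rw [hRdef, mul_sub, mul_sub]; abel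
      have e2 : S * A = B * A + F' * A + R' * A := by
        rw [hR'def, sub_mul, sub_mul]; abel
      have e3 : (1 : (Y →ᵇ ℝ) →L[ℝ] (Y →ᵇ ℝ)) = B * A + F' * A + R' * A + S * F + S * R := by
        rw [← hST, e1, e2]
      rw [e3]
      abel
    have h4 := norm_le_add h h1 h2
    rw [h3] at h4
    have h5 : ‖-(S * R) - R' * A‖ ≤ ‖S * R‖ + ‖R' * A‖ := by
      have := norm_sub_le (-(S * R)) (R' * A)
      rwa [norm_neg] at this
    have h6 : ‖S * R‖ ≤ K * ε := (norm_mul_le _ _).trans (mul_le_mul hnS hR (norm_nonneg _) (by linarith))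
    have h7 : ‖R' * A‖ ≤ ε * K := (norm_mul_le _ _).trans (mul_le_mul hR' hnA (norm_nonneg _) hεpos.le)
    nlinarith
  have hAB : ‖A * B - 1‖ ≤ 2 * (ε * K) := by
    have h1 : ClsA (A * B - 1) := (hB.mul hA).sub ClsA.one
    have h2 : ClsF (F0 + T * F' + F * B) :=
      (hF0.add (hF'.mul_left T)).add (hF.mul_clsA h.invY hB)
    have h3 : (A * B - 1) + (F0 + T * F' + F * B) = -(T * R') - R * B := by
      have e1 : T * S = T * B + T * F' + T * R' := by
        rw [hR'def, mul_sub, mul_sub]; abel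
      have e2 : T * B = A * B + F * B + R * B := by
        rw [hRdef, sub_mul, sub_mul]; abel
      have e3 : (1 : (Y →ᵇ ℝ) →L[ℝ] (Y →ᵇ ℝ)) = A * B + F * B + R * B + T * F' + T * R' + F0 := by
        have : (1 : (Y →ᵇ ℝ) →L[ℝ] (Y →ᵇ ℝ)) = T * S + F0 := by rw [hTS]; abel
        rw [this, e1, e2]
      rw [e3]
      abel
    have h4 := norm_le_add h h1 h2
    rw [h3] at h4
    have h5 : ‖-(T * R') - R * B‖ ≤ ‖T * R'‖ + ‖R * B‖ := by
      have := norm_sub_le (-(T * R')) (R * B)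
      rwa [norm_neg] at this
    have h6 : ‖T * R'‖ ≤ K * ε := (norm_mul_le _ _).trans (mul_le_mul hnT hR' (norm_nonneg _) (by linarith))
    have h7 : ‖R * B‖ ≤ ε * K := (norm_mul_le _ _).trans (mul_le_mul hR hnB (norm_nonneg _) hεpos.le)
    nlinarith
  -- D = T - F is invertible
  set D := T - F with hD
  have hDA : D = A + R := by rw [hD, hRdef]; abel
  have hu1 : IsUnit (B * D) := by
    have h1 : ‖1 - B * D‖ < 1 := by
      have e : 1 - B * D = -(B * A - 1) - B * R := by rw [hDA, mul_add]; abel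
      rw [e]
      have h2 := norm_sub_le (-(B * A - 1)) (B * R)
      rw [norm_neg] at h2
      have h3 : ‖B * R‖ ≤ K * ε := (norm_mul_le _ _).trans (mul_le_mul hnB hR (norm_nonneg _) (by linarith))
      nlinarith
    have := isUnit_one_sub_of_norm_lt_one h1
    simpa using this
  have hu2 : IsUnit (D * B) := by
    have h1 : ‖1 - D * B‖ < 1 := by
      have e : 1 - D * B = -(A * B - 1) - R * B := by rw [hDA, add_mul]; abel
      rw [e]
      have h2 := norm_sub_le (-(A * B - 1)) (R * B)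
      rw [norm_neg] at h2
      have h3 : ‖R * B‖ ≤ ε * K := (norm_mul_le _ _).trans (mul_le_mul hR hnB (norm_nonneg _) hεpos.le)
      nlinarith
    have := isUnit_one_sub_of_norm_lt_one h1
    simpa using this
  obtain ⟨u1, hu1⟩ := hu1
  obtain ⟨u2, hu2⟩ := hu2
  -- left and right inverses
  set Li := (↑u1⁻¹ : (Y →ᵇ ℝ) →L[ℝ] (Y →ᵇ ℝ)) * B with hLi
  set Ri := B * (↑u2⁻¹ : (Y →ᵇ ℝ) →L[ℝ] (Y →ᵇ ℝ)) with hRi
  have hL : Li * D = 1 := by rw [hLi, mul_assoc, ← hu1, Units.inv_mul]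
  have hR1 : D * Ri = 1 := by rw [hRi, ← mul_assoc, ← hu2, Units.mul_inv]
  have hLR : Li = Ri := by
    calc Li = Li * (D * Ri) := by rw [hR1, mul_one]
      _ = Li * D * Ri := (mul_assoc _ _ _).symm
      _ = Ri := by rw [hL, one_mul]
  have hDL : D * Li = 1 := by rw [hLR, hR1]
  -- conclusion
  have hTD : T = D * (1 + Li * F) := by
    rw [mul_add, mul_one, ← mul_assoc, hDL, one_mul, hD]
    abel
  have hinj : ∀ f : Y →ᵇ ℝ, f + (Li * F) f = 0 → f = 0 := by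
    intro f hf
    have h1 : T f = 0 := by
      rw [hTD]
      change D (f + (Li * F) f) = 0
      rw [hf, map_zero]
    have h2 : (S * T) f = 0 := by
      change S (T f) = 0
      rw [h1, map_zero]
    rw [hST] at h2
    exact h2
  obtain ⟨f, hf⟩ := surj_of_inj (Li * F) (hF.mul_left Li) hinj (Li g)
  refine ⟨f, ?_⟩
  rw [hTD]
  change D (f + (Li * F) f) = g
  rw [hf]
  change (D * Li) g = g
  rw [hDL]
  rfl

end Pool.Agent.Helper27.Sq
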