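import Pool.Agent.Helper27.SqEnd

/-!
From pointwise continuous operators to bounded operators.
-/

set_option autoImplicit false
set_option maxSynthPendingDepth 3

open Filter Topology Set BoundedContinuousFunction

namespace Pool.Agent.Helper27.Sq

variable {X Y : Set bW}

/-- a continuous function on `Y` as a bounded continuous function -/
noncomputable def toB (h : Good X Y) (f : Y → ℝ) (hf : Continuous f) : Y →ᵇ ℝ :=
  BoundedContinuousFunction.ofNormedAddCommGroup f hf (bounded h f hf).choose
    (fun y => by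
      rw [Real.norm_eq_abs]
      exact (bounded h f hf).choose_spec y)

theorem toB_coe (h : Good X Y) (f : Y → ℝ) (hf : Continuous f) : (toB h f hf : Y → ℝ) = f := rfl

theorem mk_op (h : Good X Y) (T : (Y → ℝ) → (Y → ℝ)) (h1 : ∀ f, Continuous f → Continuous (T f))
    (h2 : ∀ (a : ℝ) (f g : Y → ℝ), Continuous f → Continuous g → T (a • f + g) = a • T f + T g)
    (h3 : ContinuousOn T {f | Continuous f}) :
    ∃ TE : (Y →ᵇ ℝ) →L[ℝ] (Y →ᵇ ℝ), FinSup TE ∧ ∀ f : Y →ᵇ ℝ, (TE f : Y → ℝ) = T f := by
  have hrep : ∀ y : Y, ∃ ν : Y →₀ ℝ, ∀ f : Y → ℝ, Continuous f →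
      T f y = ν.sum fun u r => r * f u := by
    intro y
    refine functional_rep (fun f => T f y) ?_ ?_
    · intro a f g hf hg
      change T (a • f + g) y = a * T f y + T g y
      rw [h2 a f g hf hg]
      rfl
    · exact (continuous_apply y).comp_continuousOn h3
  have h0 : T 0 = 0 := by
    have := h2 1 0 0 continuous_const continuous_const
    simpa using this
  let L : (Y →ᵇ ℝ) →ₗ[ℝ] (Y →ᵇ ℝ) :=
    { toFun := fun f => toB h (T f) (h1 f f.continuous)
      map_add' := by
        intro f g
        apply DFunLike.coe_injective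
        change T ((f + g : Y →ᵇ ℝ) : Y → ℝ) = T f + T g
        have := h2 1 f g f.continuous g.continuous
        simpa using this
      map_smul' := by
        intro c f
        apply DFunLike.coe_injective
        change T ((c • f : Y →ᵇ ℝ) : Y → ℝ) = c • T f
        have h4 := h2 c f 0 f.continuous continuous_const
        rw [h0, add_zero, add_zero] at h4
        exact h4 }
  have hL : ∀ f : Y →ᵇ ℝ, (L f : Y → ℝ) = T f := fun f => rfl
  have hcont : Continuous L := by
    apply LinearMap.continuous_of_seq_closed_graph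
    intro u x y hu hLu
    ext z
    have hx : ∀ w : Y, Tendsto (fun n => u n w) atTop (𝓝 (x w)) := fun w =>
      ((continuous_eval_const w).tendsto x).comp hu
    have hy : Tendsto (fun n => L (u n) z) atTop (𝓝 (y z)) :=
      ((continuous_eval_const z).tendsto y).comp hLu
    obtain ⟨ν, hν⟩ := hrep z
    have h4 : Tendsto (fun n => L (u n) z) atTop (𝓝 (L x z)) := by
      rw [hL x, hν x x.continuous]
      have : (fun n => L (u n) z) = fun n => ν.sum fun w r => r * u n w := by
        funext n
        rw [hL (u n), hν (u n) (u n).continuous]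
      rw [this]
      unfold Finsupp.sum
      exact tendsto_finsetSum _ fun w _ => (hx w).const_mul _
    exact tendsto_nhds_unique hy h4
  refine ⟨⟨L, hcont⟩, ?_, fun f => rfl⟩
  intro y
  obtain ⟨ν, hν⟩ := hrep y
  exact ⟨ν, fun f => hν f f.continuous⟩

theorem no_iso (h : Good X Y) (T : (Y → ℝ) × ℝ → (Y → ℝ)) (S : (Y → ℝ) → (Y → ℝ) × ℝ)
    (h1 : ∀ p : (Y → ℝ) × ℝ, Continuous p.1 → Continuous (T p))
    (h2 : ∀ g : Y → ℝ, Continuous g → Continuous (S g).1)
    (h3 : ∀ p : (Y → ℝ) × ℝ, Continuous p.1 → S (T p) = p)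
    (h4 : ∀ g : Y → ℝ, Continuous g → T (S g) = g)
    (h5 : ∀ (a : ℝ) (p q : (Y → ℝ) × ℝ), Continuous p.1 → Continuous q.1 →
        T (a • p + q) = a • T p + T q)
    (h6 : ContinuousOn T {p : (Y → ℝ) × ℝ | Continuous p.1})
    (h7 : ContinuousOn S {g : Y → ℝ | Continuous g}) : False := by
  classical
  have hSlin : ∀ (a : ℝ) (f g : Y → ℝ), Continuous f → Continuous g →
      S (a • f + g) = a • S f + S g := by
    intro a f g hf hg
    have e : a • f + g = T (a • S f + S g) := by
      rw [h5 a _ _ (h2 f hf) (h2 g hg), h4 f hf, h4 g hg]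
    rw [e, h3]
    exact ((h2 f hf).const_smul a).add (h2 g hg)
  obtain ⟨TE, hTE, hTE'⟩ := mk_op h (fun f => T (f, 0)) (fun f hf => h1 _ hf) (by
    intro a f g hf hg
    have := h5 a (f, 0) (g, 0) hf hg
    have e : a • ((f, 0) : (Y → ℝ) × ℝ) + (g, 0) = (a • f + g, 0) := by
      ext <;> simp
    rw [e] at this
    exact this) (by
    refine h6.comp (Continuous.continuousOn (by fun_prop)) ?_
    intro f hf
    exact hf)
  obtain ⟨SE, hSE, hSE'⟩ := mk_op h (fun g => (S g).1) h2 (by
    intro a f g hf hg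
    rw [hSlin a f g hf hg]
    rfl) (continuous_fst.comp_continuousOn h7)
  obtain ⟨ν, hν⟩ := functional_rep (Y := Y) (fun g => (S g).2) (by
    intro a f g hf hg
    rw [hSlin a f g hf hg]
    rfl) (continuous_snd.comp_continuousOn h7)
  -- the vector and the functional
  let v : Y → ℝ := T (0, 1)
  have hv : Continuous v := h1 (0, 1) continuous_const
  let vb : Y →ᵇ ℝ := toB h v hv
  let φ : (Y →ᵇ ℝ) →L[ℝ] ℝ := ∑ u ∈ ν.support, ν u • BoundedContinuousFunction.evalCLM ℝ u
  have hφ : ∀ g : Y →ᵇ ℝ, φ g = (S g).2 := by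
    intro g
    rw [hν g g.continuous]
    simp only [φ, _root_.sum_apply, _root_.smul_apply, smul_eq_mul]
    rfl
  let F0 : (Y →ᵇ ℝ) →L[ℝ] (Y →ᵇ ℝ) := φ.smulRight vb
  have hF0 : ClsF F0 := by
    refine ⟨ν.support, fun f hf => ?_⟩
    change φ f • vb = 0
    have : φ f = 0 := by
      simp only [φ, _root_.sum_apply, _root_.smul_apply, smul_eq_mul]
      refine Finset.sum_eq_zero fun u hu => ?_
      change ν u * f u = 0
      rw [hf u hu, mul_zero]
    rw [this, zero_smul]
  have hST : SE * TE = 1 := by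
    ext f y
    change SE (TE f) y = f y
    rw [hSE', hTE']
    rw [h3 (f, 0) f.continuous]
  have hTS : TE * SE = 1 - F0 := by
    ext g y
    change TE (SE g) y = g y - (φ g • vb) y
    rw [hTE', hSE', hφ]
    change T ((S g).1, 0) y = g y - (S g).2 * v y
    have e : T (S g) = T ((S g).1, 0) + (S g).2 • v := by
      have h8 := h5 (S g).2 (0, 1) ((S g).1, 0) continuous_const (h2 g g.continuous)
      have e1 : (S g).2 • ((0, 1) : (Y → ℝ) × ℝ) + ((S g).1, 0) = S g := by
        ext <;> simp
      rw [e1] at h8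
      rw [h8, add_comm]
    rw [h4 g g.continuous] at e
    have e2 := congrFun e y
    simp only [Pi.add_apply, Pi.smul_apply, smul_eq_mul] at e2
    linarith
  obtain ⟨f, hf⟩ := index_zero h TE SE hTE hSE F0 hF0 hST hTS vb
  have h8 : T (f, 0) = v := by
    rw [← hTE' f, hf]
    rfl
  have h9 : S (T (f, 0)) = S (T (0, 1)) := by rw [h8]
  rw [h3 _ f.continuous, h3 _ continuous_const] at h9
  have := congrArg Prod.snd h9
  simp at this

end Pool.Agent.Helper27.Sq
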