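import Pool.Agent.Helper27.SqKillB
import Pool.Agent.Helper27.SqCount

/-!
The killing lemma.
-/

set_option autoImplicit false

open Filter Topology Set

namespace Pool.Agent.Helper27.Sq

/-- families of measures that cannot come from a good operator -/
structure Bad (X : Set bW) (τ : X → (bW →₀ ℝ)) : Prop where
  bdd : ∃ C, ∀ x, tv (τ x) univ ≤ C
  ne : ∃ ε > 0, ∀ (G : Finset Gam) (P : Finset bW), ∃ x : X,
      ε < tv (τ x) {u | u ∉ P ∧ ∀ g ∈ G, u ≠ act g x}

theorem sum_small (ε : ℝ) (hε : 0 < ε) (n : ℕ) : ∑ j ∈ Finset.range n, ε / 2 ^ (j + 3) ≤ ε / 4 := by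
  have h := sum_geometric_two_le n
  have : ∑ j ∈ Finset.range n, ε / 2 ^ (j + 3) = ε / 8 * ∑ j ∈ Finset.range n, (1 / (2 : ℝ)) ^ j := by
    rw [Finset.mul_sum]
    refine Finset.sum_congr rfl fun j _ => ?_
    rw [pow_add, one_div, inv_pow]
    field_simp
    norm_num
  rw [this]
  nlinarith

theorem mem_of_iUnion {D : ℕ → Set W} (hD : ∀ m n, m ≠ n → Disjoint (D m) (D n)) {u : bW}
    {N : Set ℕ} {t : ℕ} (h1 : (⋃ n ∈ N, D n) ∈ u) (h2 : D t ∈ u) : t ∈ N := by
  obtain ⟨w, hw1, hw2⟩ := Ultrafilter.nonempty_of_mem (inter_mem h1 h2)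
  simp only [mem_iUnion] at hw1
  obtain ⟨n, hn, hwn⟩ := hw1
  have : t = n := by
    by_contra hne
    exact Set.disjoint_left.1 (hD t n hne) hw2 hwn
  rwa [this]

theorem diff_mem' {u : bW} {A B : Set W} (h1 : A ∈ u) (h2 : B ∉ u) : A \ B ∈ u :=
  inter_mem h1 (Ultrafilter.compl_mem_iff_notMem.2 h2)

theorem kill_data (X : Set bW) (τ : X → (bW →₀ ℝ)) (hb : Bad X τ) :
    ∃ (ε : ℝ) (x : ℕ → X) (F : ℕ → Finset bW) (D E : ℕ → Set W), 0 < ε ∧ Function.Injective x ∧
      (∀ m n, m ≠ n → Disjoint (D m) (D n)) ∧ (∀ m n, m ≠ n → Disjoint (E m) (E n)) ∧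
      (∀ n, E n ∈ (x n : bW)) ∧ (∀ n, ∀ u ∈ F n, u ∈ (τ (x n)).support ∧ D n ∈ u) ∧
      (∀ n, ∀ u ∈ (τ (x n)).support, u ∉ F n → D n ∉ u) ∧
      (∀ n, 3 * ε / 4 ≤ tv (τ (x n)) (F n)) ∧
      (∀ n, tv (τ (x n)) {u | D n ∉ u ∧ (⋃ m, D m) ∈ u} ≤ ε / 4) ∧
      (∀ g, ∃ N, ∀ n ≥ N, ∀ m ≤ n, D n ∉ act g (x m)) ∧
      (∀ g m, (⋃ n, D n) ∈ act g (x m) → ∃ n, D n ∈ act g (x m)) := by
  classical
  obtain ⟨C, hC⟩ := hb.bdd
  obtain ⟨ε, hε, hbad⟩ := hb.ne
  obtain ⟨e, he⟩ := exists_surjective_nat Gam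
  let G : ℕ → Finset Gam := fun k => (Finset.range (k + 1)).image e
  obtain ⟨k, x, F, hk, hF1, hF2, hF3, hF4⟩ := raw_seq X τ G ε hbad
  have hxinj : Function.Injective x := by
    have haux : ∀ m n, m < n → x m ≠ x n := by
      intro m n hmn hx
      have h1 : F n = ∅ := by
        rw [Finset.eq_empty_iff_forall_notMem]
        intro u hu
        have h2 := hF1 n u hu
        rw [← hx] at h2
        exact hF4 m n hmn u hu h2
      have h2 := hF2 n
      rw [h1] at h2
      simp [tv] at h2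
      linarith
    intro m n hmn
    rcases lt_trichotomy m n with h | h | h
    · exact absurd hmn (haux m n h)
    · exact h
    · exact absurd hmn.symm (haux n m h)
  have hpinj : Function.Injective (fun n => (x n : bW)) := Subtype.val_injective.comp hxinj
  obtain ⟨φ, D', E', hφ, hD1, hD2, hD3, hD4, hD5, hE1, hE2⟩ := second_seq (fun n => τ (x n))
    (fun n => (x n : bW)) hpinj C (fun n => hC _) F
    (fun m n => (G (k n)).image fun g => act g (x m)) ε hε hF1
    (by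
      intro m n hmn u hu
      rw [Finset.mem_image] at hu
      obtain ⟨g, hg, rfl⟩ := hu
      exact hF3 m n hmn g hg) hF4
  let D1 : ℕ → Set W := fun i => D' i \ ⋃ j ∈ Finset.range i, D' j
  let E1 : ℕ → Set W := fun i => E' i \ ⋃ j ∈ Finset.range i, E' j
  have hdisj : ∀ A : ℕ → Set W, ∀ m n, m ≠ n →
      Disjoint (A m \ ⋃ j ∈ Finset.range m, A j) (A n \ ⋃ j ∈ Finset.range n, A j) := by
    intro A m n hmn
    rw [Set.disjoint_left]
    rintro w ⟨h1, h2⟩ ⟨h3, h4⟩
    simp only [mem_iUnion, Finset.mem_range, not_exists] at h2 h4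
    rcases lt_or_gt_of_ne hmn with h | h
    · exact h4 m h h1
    · exact h2 n h h3
  have hD1disj := hdisj D'
  let F1 : ℕ → Finset bW := fun i => (F (φ i)).filter fun u => ∀ j < i, D' j ∉ u
  -- thinning
  let Q : Set bW := ((⋃ i, orb (x (φ i))) ∪ ⋃ i, ((τ (x (φ i))).support : Set bW)) ∩
    {u | ∀ t, D1 t ∉ u}
  have hQc : Q.Countable := by
    refine Set.Countable.mono inter_subset_left ?_
    exact (countable_iUnion fun i => countable_orb _).union
      (countable_iUnion fun i => (Finset.countable_toSet _))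
  obtain ⟨ψ, hψ, hψQ⟩ := thin Q hQc D1 hD1disj (fun u hu => hu.2)
  have hmemD1 : ∀ i (u : bW), D' i ∈ u → (∀ j < i, D' j ∉ u) → D1 i ∈ u := by
    intro i u h1 h2
    refine diff_mem' h1 ?_
    intro h3
    have h4 := (Ultrafilter.finite_biUnion_mem_iff (f := u) (is := (Finset.range i : Set ℕ))
        (s := fun j => D' j) (Finset.finite_toSet _)).1 (by simpa using h3)
    obtain ⟨j, hj, hj'⟩ := h4
    exact h2 j (Finset.mem_range.1 hj) hj'
  have hD1D' : ∀ i (u : bW), D1 i ∈ u → D' i ∈ u := fun i u h =>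
    mem_of_superset h sdiff_subset
  have hψle : ∀ n, n ≤ ψ n := fun n => hψ.le_apply
  have hφle : ∀ n, n ≤ φ n := fun n => hφ.le_apply
  have hkle : ∀ n, n ≤ k n := fun n => hk.le_apply
  refine ⟨ε, fun n => x (φ (ψ n)), fun n => F1 (ψ n), fun n => D1 (ψ n), fun n => E1 (ψ n), hε,
    ?_, ?_, ?_, ?_, ?_, ?_, ?_, ?_, ?_, ?_⟩
  · exact hxinj.comp (hφ.injective.comp hψ.injective)
  · intro m n hmn
    exact hD1disj _ _ (fun h => hmn (hψ.injective h))
  · intro m n hmn
    exact hdisj E' _ _ (fun h => hmn (hψ.injective h))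
  · intro n
    refine diff_mem' (hE1 _) ?_
    intro h3
    have h4 := (Ultrafilter.finite_biUnion_mem_iff (f := (x (φ (ψ n)) : bW))
        (is := (Finset.range (ψ n) : Set ℕ))
        (s := fun j => E' j) (Finset.finite_toSet _)).1 (by simpa using h3)
    obtain ⟨j, hj, hj'⟩ := h4
    exact hE2 j (ψ n) (Finset.mem_range.1 hj) hj'
  · intro n u hu
    rw [Finset.mem_filter] at hu
    exact ⟨hF1 _ u hu.1, hmemD1 _ u (hD1 _ u hu.1) hu.2⟩
  · intro n u hu hu' hDu
    by_cases h : u ∈ F (φ (ψ n))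
    · have h1 : ¬ ∀ j < ψ n, D' j ∉ u := fun h2 => hu' (Finset.mem_filter.2 ⟨h, h2⟩)
      push Not at h1
      obtain ⟨j, hj, hj'⟩ := h1
      have h2 : (⋃ j ∈ Finset.range (ψ n), D' j) ∈ u :=
        mem_of_superset hj' (subset_biUnion_of_mem (u := D') (Finset.mem_range.2 hj))
      have h3 : (⋃ j ∈ Finset.range (ψ n), D' j)ᶜ ∈ u := mem_of_superset hDu (fun w hw => hw.2)
      exact (Ultrafilter.compl_mem_iff_notMem.1 h3) h2
    · exact hD2 _ u hu h (hD1D' _ u hDu)
  · intro n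
    have h1 : tv (τ (x (φ (ψ n)))) (F (φ (ψ n))) ≤ tv (τ (x (φ (ψ n)))) (F1 (ψ n)) +
        tv (τ (x (φ (ψ n)))) (⋃ j ∈ Finset.range (ψ n), cl (D' j)) := by
      refine (tv_mono _ ?_).trans (tv_union_le _ _ _)
      intro u hu hu'
      by_cases h : ∀ j < ψ n, D' j ∉ u
      · exact Or.inl (Finset.mem_coe.2 (Finset.mem_filter.2 ⟨hu', h⟩))
      · push Not at h
        obtain ⟨j, hj, hj'⟩ := h
        right
        simp only [mem_iUnion]
        exact ⟨j, Finset.mem_range.2 hj, hj'⟩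
    have h2 : tv (τ (x (φ (ψ n)))) (⋃ j ∈ Finset.range (ψ n), cl (D' j)) ≤ ε / 4 := by
      refine (tv_biUnion_le _ _ _).trans ?_
      refine (Finset.sum_le_sum (fun j hj => ?_)).trans (sum_small ε hε (ψ n))
      exact (hD5 j (ψ n) (Finset.mem_range.1 hj)).le
    have h3 := hF2 (φ (ψ n))
    linarith
  · intro n
    refine (tv_mono (Z' := ⋃ j ∈ Finset.range (ψ n), cl (D' j)) _ ?_).trans ?_
    · rintro u hu ⟨hu1, hu2⟩
      have h1 : ∃ t, D1 t ∈ u := by
        by_contra hcon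
        push Not at hcon
        refine hψQ u ⟨Or.inr ?_, hcon⟩ hu2
        exact mem_iUnion.2 ⟨ψ n, hu⟩
      obtain ⟨t, ht⟩ := h1
      have h2 : t < ψ n := by
        rcases lt_trichotomy t (ψ n) with h | h | h
        · exact h
        · rw [h] at ht
          exact absurd ht hu1
        · exact absurd (hD1D' _ _ ht) (hD4 (ψ n) t h u hu)
      simp only [mem_iUnion]
      exact ⟨t, Finset.mem_range.2 h2, hD1D' _ _ ht⟩
    · refine (tv_biUnion_le _ _ _).trans ?_
      refine (Finset.sum_le_sum (fun j hj => ?_)).trans (sum_small ε hε (ψ n))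
      exact (hD5 j (ψ n) (Finset.mem_range.1 hj)).le
  · intro g
    obtain ⟨i, rfl⟩ := he g
    refine ⟨i, fun n hn m hm h => ?_⟩
    refine hD3 (ψ m) (ψ n) (hψ.monotone hm) (act (e i) (x (φ (ψ m)))) ?_ (hD1D' _ _ h)
    rw [Finset.mem_image]
    refine ⟨e i, ?_, rfl⟩
    refine Finset.mem_image_of_mem _ (Finset.mem_range.2 ?_)
    have h1 := hkle (φ (ψ n))
    have h2 := hφle (ψ n)
    have h3 := hψle n
    omega
  · intro g m h
    have h1 : ∃ t, D1 t ∈ act g (x (φ (ψ m))) := by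
      by_contra hcon
      push Not at hcon
      refine hψQ _ ⟨Or.inl ?_, hcon⟩ h
      exact mem_iUnion.2 ⟨ψ m, act_mem_orb _ _⟩
    obtain ⟨t, ht⟩ := h1
    have h2 : t ∈ range ψ := by
      refine mem_of_iUnion hD1disj (N := range ψ) ?_ ht
      refine mem_of_superset h (iUnion_subset fun n => ?_)
      exact subset_biUnion_of_mem (u := D1) (mem_range_self n)
    obtain ⟨n, rfl⟩ := h2
    exact ⟨n, ht⟩

theorem ev_single {ν : bW →₀ ℝ} {u : bW} {A : Set W} (h1 : A ∈ u)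
    (h2 : ∀ v ∈ ν.support, v ≠ u → A ∉ v) : ev ν A = ν u := by
  classical
  unfold ev
  by_cases hu : u ∈ ν.support
  · rw [Finset.sum_eq_single_of_mem u hu]
    · rw [if_pos h1]
    · intro v hv hvu
      rw [if_neg (h2 v hv hvu)]
  · rw [Finset.sum_eq_zero]
    · simpa using (Finsupp.notMem_support_iff.1 hu).symm
    · intro v hv
      rw [if_neg (h2 v hv (fun h => hu (h ▸ hv)))]

theorem ev_inj {ν ν' : bW →₀ ℝ} (h : ∀ A, ev ν A = ev ν' A) : ν = ν' := by
  classical
  ext u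
  obtain ⟨A, hA1, hA2⟩ := sepfin {u} ((ν.support ∪ ν'.support).erase u) (by
    intro v hv
    rw [Finset.mem_singleton] at hv
    rw [hv]
    exact Finset.notMem_erase _ _)
  have hu : A ∈ u := hA1 u (Finset.mem_singleton_self u)
  rw [← ev_single (ν := ν) hu, ← ev_single (ν := ν') hu, h A]
  · intro v hv hvu
    exact hA2 v (Finset.mem_erase.2 ⟨hvu, Finset.mem_union_right _ hv⟩)
  · intro v hv hvu
    exact hA2 v (Finset.mem_erase.2 ⟨hvu, Finset.mem_union_left _ hv⟩)

theorem ev_zero {ν : bW →₀ ℝ} {A : Set W} (h : ∀ v ∈ ν.support, A ∉ v) : ev ν A = 0 := by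
  classical
  unfold ev
  exact Finset.sum_eq_zero fun v hv => if_neg (h v hv)

theorem signed (t : bW →₀ ℝ) (F : Finset bW) (D S : ℕ → Set W) (N : Set ℕ) (n : ℕ) (hn : n ∈ N)
    (hD : ∀ m n, m ≠ n → Disjoint (D m) (D n))
    (h1 : ∀ u ∈ F, u ∈ t.support ∧ D n ∈ u) (h2 : ∀ u ∈ t.support, u ∉ F → D n ∉ u)
    (hS1 : ∀ u ∈ F, 0 < t u → S n ∈ u) (hS2 : ∀ u ∈ F, t u < 0 → S n ∉ u) :
    tv t F - tv t {u | D n ∉ u ∧ (⋃ m, D m) ∈ u} ≤
      ev t (⋃ m ∈ N, D m ∩ S m) - ev t (⋃ m ∈ N, D m \ S m) := by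
  classical
  unfold tv ev
  rw [← Finset.sum_sub_distrib, ← Finset.sum_sub_distrib]
  refine Finset.sum_le_sum fun u hu => ?_
  have habs := abs_nonneg (t u)
  have hle := le_abs_self (t u)
  have hge := neg_abs_le (t u)
  have hdisj : Disjoint (⋃ m ∈ N, D m ∩ S m) (⋃ m ∈ N, D m \ S m) := by
    rw [Set.disjoint_left]
    intro w hw1 hw2
    simp only [mem_iUnion] at hw1 hw2
    obtain ⟨m, hm, hw1⟩ := hw1
    obtain ⟨m', hm', hw2⟩ := hw2
    have : m = m' := by
      by_contra hne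
      exact Set.disjoint_left.1 (hD m m' hne) hw1.1 hw2.1
    subst this
    exact hw2.2 hw1.2
  have hnot : ¬ ((⋃ m ∈ N, D m ∩ S m) ∈ u ∧ (⋃ m ∈ N, D m \ S m) ∈ u) := by
    rintro ⟨ha, hb⟩
    obtain ⟨w, hw1, hw2⟩ := Ultrafilter.nonempty_of_mem (inter_mem ha hb)
    exact Set.disjoint_left.1 hdisj hw1 hw2
  by_cases huF : u ∈ F
  · have hDu := (h1 u huF).2
    rw [if_pos (Finset.mem_coe.2 huF), if_neg (fun h => h.1 hDu)]
    have hne : t u ≠ 0 := Finsupp.mem_support_iff.1 hu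
    rcases lt_or_gt_of_ne hne with h | h
    · have h3 : (⋃ m ∈ N, D m \ S m) ∈ u := by
        refine mem_of_superset (diff_mem' hDu (hS2 u huF h)) ?_
        exact subset_biUnion_of_mem (u := fun m => D m \ S m) hn
      rw [if_neg (fun h4 => hnot ⟨h4, h3⟩), if_pos h3, abs_of_neg h]
      linarith
    · have h3 : (⋃ m ∈ N, D m ∩ S m) ∈ u := by
        refine mem_of_superset (inter_mem hDu (hS1 u huF h)) ?_
        exact subset_biUnion_of_mem (u := fun m => D m ∩ S m) hn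
      rw [if_pos h3, if_neg (fun h4 => hnot ⟨h3, h4⟩), abs_of_pos h]
  · have hDu := h2 u hu huF
    rw [if_neg (fun h => huF (Finset.mem_coe.1 h))]
    by_cases h3 : (⋃ m ∈ N, D m ∩ S m) ∈ u
    · have h4 : (⋃ m, D m) ∈ u := by
        refine mem_of_superset h3 (iUnion₂_subset fun m _ => ?_)
        exact inter_subset_left.trans (subset_iUnion D m)
      rw [if_pos (show u ∈ {u : bW | D n ∉ u ∧ (⋃ m, D m) ∈ u} from ⟨hDu, h4⟩), if_pos h3,
        if_neg (fun h5 => hnot ⟨h3, h5⟩)]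
      linarith
    · rw [if_neg h3]
      by_cases h5 : (⋃ m ∈ N, D m \ S m) ∈ u
      · have h4 : (⋃ m, D m) ∈ u := by
          refine mem_of_superset h5 (iUnion₂_subset fun m _ => ?_)
          exact sdiff_subset.trans (subset_iUnion D m)
        rw [if_pos (show u ∈ {u : bW | D n ∉ u ∧ (⋃ m, D m) ∈ u} from ⟨hDu, h4⟩), if_pos h5]
        linarith
      · rw [if_neg h5]
        split_ifs <;> linarith

theorem kill (X : Set bW) (τ : X → (bW →₀ ℝ)) (hb : Bad X τ) :
    ∃ x : ℕ → X, Function.Injective x ∧ (∀ n, τ (x n) ≠ 0) ∧ ∃ z : Ultrafilter ℕ → bW,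
      (∀ U V : Ultrafilter ℕ, U.bind (fun k => (x k : bW)) = V.bind (fun k => (x k : bW)) →
        U = V) ∧
      (∀ U V, Fr U → Fr V → z U = z V → U = V) ∧
      (∀ U, Fr U → z U ∉ orb (U.bind fun k => (x k : bW))) ∧
      (∀ U, Fr U → ∀ ν : bW →₀ ℝ,
        (∀ A, Tendsto (fun k => ev (τ (x k)) A) U (𝓝 (ev ν A))) → z U ∈ ν.support) := by
  classical
  obtain ⟨ε, x, F, D, E, hε, hxinj, hD, hE, hEx, hF1, hF2, hF3, hF4, hg1, hg2⟩ := kill_data X τ hb
  have hFne : ∀ n, (F n).Nonempty := by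
    intro n
    by_contra hcon
    rw [Finset.not_nonempty_iff_eq_empty] at hcon
    have := hF3 n
    rw [hcon] at this
    simp [tv] at this
    linarith
  choose d hd using hFne
  have hS : ∀ n, ∃ S : Set W, (∀ u ∈ F n, 0 < τ (x n) u → S ∈ u) ∧
      (∀ u ∈ F n, τ (x n) u < 0 → S ∉ u) := by
    intro n
    obtain ⟨A, hA1, hA2⟩ := sepfin ((F n).filter fun u => 0 < τ (x n) u)
      ((F n).filter fun u => τ (x n) u < 0) (by
        intro u hu hu'
        exact lt_asymm (Finset.mem_filter.1 hu).2 (Finset.mem_filter.1 hu').2)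
    exact ⟨A, fun u hu h => hA1 u (Finset.mem_filter.2 ⟨hu, h⟩),
      fun u hu h => hA2 u (Finset.mem_filter.2 ⟨hu, h⟩)⟩
  choose S hS1 hS2 using hS
  have hzex : ∀ U : Ultrafilter ℕ, ∃ z : bW, (∀ N ∈ U, (⋃ n ∈ N, D n) ∈ z) ∧
      (∀ ν : bW →₀ ℝ,
        (∀ A, Tendsto (fun k => ev (τ (x k)) A) U (𝓝 (ev ν A))) → z ∈ ν.support) := by
    intro U
    by_cases hν : ∃ ν : bW →₀ ℝ, ∀ A, Tendsto (fun k => ev (τ (x k)) A) U (𝓝 (ev ν A))
    · obtain ⟨ν, hν⟩ := hν
      have h1 : ∃ z ∈ ν.support, ∀ N ∈ U, (⋃ n ∈ N, D n) ∈ z := by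
        by_contra hcon
        push Not at hcon
        have hcon' : ∀ z : bW, ∃ N : Set ℕ, z ∈ ν.support → N ∈ U ∧ (⋃ n ∈ N, D n) ∉ z := by
          intro z
          by_cases hz : z ∈ ν.support
          · obtain ⟨N, hN⟩ := hcon z hz
            exact ⟨N, fun _ => hN⟩
          · exact ⟨∅, fun h => absurd h hz⟩
        choose N hN using hcon'
        let N0 : Set ℕ := ⋂ z ∈ ν.support, N z
        have hN0 : N0 ∈ (U : Filter ℕ) := by
          rw [Filter.biInter_finset_mem]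
          exact fun z hz => (hN z hz).1
        have hN0' : ∀ z ∈ ν.support, (⋃ n ∈ N0, D n) ∉ z := by
          intro z hz h
          refine (hN z hz).2 (mem_of_superset h (biUnion_subset_biUnion_left ?_))
          exact biInter_subset_of_mem hz
        have h2 : ev ν (⋃ m ∈ N0, D m ∩ S m) = 0 := by
          refine ev_zero fun v hv h => hN0' v hv (mem_of_superset h ?_)
          exact iUnion₂_mono fun m _ => inter_subset_left
        have h3 : ev ν (⋃ m ∈ N0, D m \ S m) = 0 := by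
          refine ev_zero fun v hv h => hN0' v hv (mem_of_superset h ?_)
          exact iUnion₂_mono fun m _ => sdiff_subset
        have h4 := (hν (⋃ m ∈ N0, D m ∩ S m)).sub (hν (⋃ m ∈ N0, D m \ S m))
        rw [h2, h3, sub_zero] at h4
        have h5 : ε / 2 ≤ 0 := by
          refine ge_of_tendsto h4 ?_
          filter_upwards [hN0] with n hn
          have h6 := signed (τ (x n)) (F n) D S N0 n hn hD (hF1 n) (hF2 n) (hS1 n) (hS2 n)
          have h7 := hF3 n
          have h8 := hF4 n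
          linarith
        linarith
      obtain ⟨z, hz, hzN⟩ := h1
      refine ⟨z, hzN, fun ν' hν' => ?_⟩
      have : ν' = ν := ev_inj fun A => tendsto_nhds_unique (hν' A) (hν A)
      rw [this]
      exact hz
    · refine ⟨U.bind d, ?_, fun ν h => absurd ⟨ν, h⟩ hν⟩
      intro N hN
      change {n | (⋃ n ∈ N, D n) ∈ d n} ∈ U
      filter_upwards [hN] with n hn
      exact mem_of_superset (hF1 n _ (hd n)).2 (subset_biUnion_of_mem (u := D) hn)
  choose z hz1 hz2 using hzex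
  refine ⟨x, hxinj, ?_, z, ?_, ?_, ?_, fun U _ => hz2 U⟩
  · intro n h
    have := hF3 n
    rw [h] at this
    simp [tv] at this
    linarith
  · intro U V hUV
    have key : ∀ (U : Ultrafilter ℕ) (N : Set ℕ),
        (⋃ n ∈ N, E n) ∈ U.bind (fun k => (x k : bW)) → N ∈ U := by
      intro U N h
      have h' : {k | (⋃ n ∈ N, E n) ∈ (x k : bW)} ∈ U := h
      filter_upwards [h'] with k hk
      exact mem_of_iUnion hE hk (hEx k)
    have h1 : ∀ N ∈ U, N ∈ V := by
      intro N hN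
      apply key
      rw [← hUV]
      change {k | (⋃ n ∈ N, E n) ∈ (x k : bW)} ∈ U
      filter_upwards [hN] with k hk
      exact mem_of_superset (hEx k) (subset_biUnion_of_mem (u := E) hk)
    have h2 : (V : Filter ℕ) ≤ U := fun N hN => h1 N hN
    exact Ultrafilter.coe_injective (U.unique h2 V.neBot).symm
  · intro U V _ _ hUV
    have h1 : ∀ N ∈ U, N ∈ V := by
      intro N hN
      by_contra hNV
      have h3 := hz1 V Nᶜ (Ultrafilter.compl_mem_iff_notMem.2 hNV)
      rw [← hUV] at h3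
      obtain ⟨w, hw1, hw2⟩ := Ultrafilter.nonempty_of_mem (inter_mem (hz1 U N hN) h3)
      simp only [mem_iUnion] at hw1 hw2
      obtain ⟨m, hm, hw1⟩ := hw1
      obtain ⟨m', hm', hw2⟩ := hw2
      have : m ≠ m' := fun h => hm' (h ▸ hm)
      exact Set.disjoint_left.1 (hD m m' this) hw1 hw2
    have h2 : (V : Filter ℕ) ≤ U := fun N hN => h1 N hN
    exact Ultrafilter.coe_injective (U.unique h2 V.neBot).symm
  · rintro U hU ⟨g, hg⟩
    obtain ⟨N0, hN0⟩ := hg1 g
    have hmem : ∀ N ∈ U, {j | (⋃ n ∈ N, D n) ∈ act g (x j)} ∈ U := by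
      intro N hN
      have h1 := hz1 U N hN
      rw [← hg, mem_act] at h1
      exact h1
    let S' : Set ℕ := {j | (⋃ n ∈ (univ : Set ℕ), D n) ∈ act g (x j)} ∩ {j | N0 ≤ j}
    have hS' : S' ∈ U := by
      refine inter_mem (hmem univ univ_mem) ?_
      have := hU.compl_mem (Set.finite_Iio N0)
      filter_upwards [this] with j hj
      simpa using hj
    have hf : ∀ j, ∃ t, j ∈ S' → D t ∈ act g (x j) := by
      intro j
      by_cases hj : j ∈ S'
      · have h1 : (⋃ n, D n) ∈ act g (x j) := by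
          have := hj.1
          simpa using this
        obtain ⟨t, ht⟩ := hg2 g j h1
        exact ⟨t, fun _ => ht⟩
      · exact ⟨0, fun h => absurd h hj⟩
    choose f hf using hf
    refine regress (U := U) (S := S') f ?_ ?_
    · intro j hj
      by_contra hlt
      push Not at hlt
      exact hN0 (f j) (hj.2.trans hlt) j hlt (hf j hj)
    · intro N hN
      filter_upwards [hmem N hN, hS'] with j hj hj'
      exact ⟨hj', mem_of_iUnion hD hj (hf j hj')⟩

end Pool.Agent.Helper27.Sq
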