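import Pool.Agent.Helper27.SqMin

/-!
Preliminaries for the killing lemma: separation, total variation, regressive functions.
-/

set_option autoImplicit false

open Filter Topology Set

namespace Pool.Agent.Helper27.Sq

theorem sep2 {u v : bW} (h : u ≠ v) : ∃ A, A ∈ u ∧ A ∉ v := by
  by_contra hcon
  push Not at hcon
  apply h
  have h1 : (v : Filter W) ≤ u := fun A hA => hcon A hA
  exact (Ultrafilter.coe_injective (u.unique h1 v.neBot).symm)

theorem sepfin (F Q : Finset bW) (h : ∀ u ∈ F, u ∉ Q) :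
    ∃ A : Set W, (∀ u ∈ F, A ∈ u) ∧ ∀ u ∈ Q, A ∉ u := by
  classical
  have h1 : ∀ u v : bW, ∃ A, u ≠ v → A ∈ u ∧ A ∉ v := by
    intro u v
    by_cases huv : u = v
    · exact ⟨∅, fun h => absurd huv h⟩
    · obtain ⟨A, hA⟩ := sep2 huv
      exact ⟨A, fun _ => hA⟩
  choose A hA using h1
  refine ⟨⋃ u ∈ F, ⋂ v ∈ Q, A u v, ?_, ?_⟩
  · intro u hu
    refine mem_of_superset ?_ (subset_biUnion_of_mem (u := fun u => ⋂ v ∈ Q, A u v) hu)
    rw [Filter.biInter_finset_mem]
    intro v hv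
    exact (hA u v (fun huv => h u hu (huv ▸ hv))).1
  · intro v hv hmem
    have h2 : ∃ u ∈ F, (⋂ v ∈ Q, A u v) ∈ v := by
      have := (Ultrafilter.finite_biUnion_mem_iff (f := v) (is := (F : Set bW))
        (s := fun u => ⋂ v ∈ Q, A u v) F.finite_toSet).1 (by simpa using hmem)
      simpa using this
    obtain ⟨u, hu, hu'⟩ := h2
    have h3 : A u v ∈ v := mem_of_superset hu' (biInter_subset_of_mem hv)
    exact (hA u v (fun huv => h u hu (huv ▸ hv))).2 h3

theorem famsep {ι : Type*} (I : Finset ι) (F : ι → Finset bW)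
    (h : ∀ m ∈ I, ∀ n ∈ I, m ≠ n → ∀ u ∈ F m, u ∉ F n) :
    ∃ D : ι → Set W, (∀ n ∈ I, ∀ u ∈ F n, D n ∈ u) ∧
      ∀ m ∈ I, ∀ n ∈ I, m ≠ n → Disjoint (D m) (D n) := by
  classical
  have h1 : ∀ m n : ι, ∃ A : Set W, m ∈ I → n ∈ I → m ≠ n →
      (∀ u ∈ F m, A ∈ u) ∧ ∀ u ∈ F n, A ∉ u := by
    intro m n
    by_cases hmn : m ∈ I ∧ n ∈ I ∧ m ≠ n
    · obtain ⟨A, hA⟩ := sepfin (F m) (F n) (h m hmn.1 n hmn.2.1 hmn.2.2)
      exact ⟨A, fun _ _ _ => hA⟩
    · exact ⟨∅, fun a b c => absurd ⟨a, b, c⟩ hmn⟩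
  choose A hA using h1
  refine ⟨fun n => ⋂ m ∈ I.filter (· ≠ n), (A n m \ A m n), ?_, ?_⟩
  · intro n hn u hu
    change (⋂ m ∈ I.filter (· ≠ n), (A n m \ A m n)) ∈ (u : Filter W)
    rw [Filter.biInter_finset_mem]
    intro m hm
    rw [Finset.mem_filter] at hm
    refine inter_mem ((hA n m hn hm.1 (Ne.symm hm.2)).1 u hu) ?_
    exact Ultrafilter.compl_mem_iff_notMem.2 ((hA m n hm.1 hn hm.2).2 u hu)
  · intro m hm n hn hmn
    rw [Set.disjoint_left]
    intro w hw1 hw2
    simp only [mem_iInter] at hw1 hw2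
    have h1 := hw1 n (Finset.mem_filter.2 ⟨hn, Ne.symm hmn⟩)
    have h2 := hw2 m (Finset.mem_filter.2 ⟨hm, hmn⟩)
    exact h2.2 h1.1

open Classical in
/-- total variation of a finitely supported measure on a set -/
noncomputable def tv (t : bW →₀ ℝ) (Z : Set bW) : ℝ := ∑ u ∈ t.support, if u ∈ Z then |t u| else 0

open Classical in
/-- value of a finitely supported measure on the clopen set of `A` -/
noncomputable def ev (t : bW →₀ ℝ) (A : Set W) : ℝ := ∑ u ∈ t.support, if A ∈ u then t u else 0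

theorem tv_mono (t : bW →₀ ℝ) {Z Z' : Set bW} (h : ∀ u ∈ t.support, u ∈ Z → u ∈ Z') :
    tv t Z ≤ tv t Z' := by
  unfold tv
  refine Finset.sum_le_sum fun u hu => ?_
  by_cases h1 : u ∈ Z
  · rw [if_pos h1, if_pos (h u hu h1)]
  · rw [if_neg h1]
    split_ifs
    · exact abs_nonneg _
    · exact le_rfl

theorem tv_nonneg (t : bW →₀ ℝ) (Z : Set bW) : 0 ≤ tv t Z := by
  unfold tv
  refine Finset.sum_nonneg fun u _ => ?_
  split_ifs
  · exact abs_nonneg _
  · exact le_rfl

theorem tv_union_le (t : bW →₀ ℝ) (Z Z' : Set bW) : tv t (Z ∪ Z') ≤ tv t Z + tv t Z' := by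
  unfold tv
  rw [← Finset.sum_add_distrib]
  refine Finset.sum_le_sum fun u _ => ?_
  have := abs_nonneg (t u)
  by_cases h1 : u ∈ Z <;> by_cases h2 : u ∈ Z' <;> simp [h1, h2]

theorem tv_biUnion_le {ι : Type*} (t : bW →₀ ℝ) (I : Finset ι) (Z : ι → Set bW) :
    tv t (⋃ i ∈ I, Z i) ≤ ∑ i ∈ I, tv t (Z i) := by
  classical
  induction I using Finset.induction_on with
  | empty => simp [tv]
  | insert a s ha ih =>
    rw [Finset.sum_insert ha, Finset.set_biUnion_insert]
    exact (tv_union_le t _ _).trans (by gcongr)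

/-- the clopen set of a set of words -/
def cl (A : Set W) : Set bW := {u | A ∈ u}

theorem tv_sum_le {ι : Type*} (t : bW →₀ ℝ) (I : Finset ι) (D : ι → Set W)
    (h : ∀ m ∈ I, ∀ n ∈ I, m ≠ n → Disjoint (D m) (D n)) :
    ∑ n ∈ I, tv t (cl (D n)) ≤ tv t univ := by
  classical
  unfold tv
  rw [Finset.sum_comm]
  refine Finset.sum_le_sum fun u _ => ?_
  rw [if_pos (mem_univ _)]
  by_cases hex : ∃ n ∈ I, D n ∈ u
  · obtain ⟨n, hn, hnu⟩ := hex
    rw [Finset.sum_eq_single_of_mem n hn]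
    · rw [if_pos (show u ∈ cl (D n) from hnu)]
    · intro m hm hmn
      rw [if_neg]
      intro hmu
      have h1 := Ultrafilter.nonempty_of_mem (inter_mem hmu hnu)
      exact (Set.disjoint_iff_inter_eq_empty.1 (h m hm n hn hmn) ▸ h1).ne_empty rfl
  · push Not at hex
    rw [Finset.sum_eq_zero]
    · exact abs_nonneg _
    · intro n hn
      exact if_neg (hex n hn)

theorem regress {U : Ultrafilter ℕ} {S : Set ℕ} (f : ℕ → ℕ)
    (hf : ∀ j ∈ S, f j < j) (h : ∀ N ∈ U, {j ∈ S | f j ∈ N} ∈ U) : False := by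
  classical
  let c : ℕ → Prop := fun j => Nat.strongRecOn (motive := fun _ => Prop) j
    (fun j ih => if hj : f j < j then ¬ ih (f j) hj else False)
  have hc : ∀ j, f j < j → (c j ↔ ¬ c (f j)) := by
    intro j hj
    have : c j = if hj : f j < j then ¬ c (f j) else False := by
      simp only [c]
      rw [Nat.strongRecOn_eq]
    rw [this, dif_pos hj]
  rcases U.mem_or_compl_mem {j | c j} with h1 | h1
  · obtain ⟨j, ⟨hj1, hj2⟩, hj3⟩ := Ultrafilter.nonempty_of_mem (inter_mem (h _ h1) h1)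
    exact ((hc j (hf j hj1)).1 hj3) hj2
  · obtain ⟨j, ⟨hj1, hj2⟩, hj3⟩ := Ultrafilter.nonempty_of_mem (inter_mem (h _ h1) h1)
    exact hj3 ((hc j (hf j hj1)).2 hj2)

theorem thin (Q : Set bW) (hQ : Q.Countable) (D : ℕ → Set W)
    (hD : ∀ m n, m ≠ n → Disjoint (D m) (D n)) (h : ∀ u ∈ Q, ∀ t, D t ∉ u) :
    ∃ φ : ℕ → ℕ, StrictMono φ ∧ ∀ u ∈ Q, (⋃ t, D (φ t)) ∉ u := by
  classical
  let cd : (ℕ → Bool) → ℕ → ℕ := fun b n => Encodable.encode (List.ofFn (fun i : Fin n => b i))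
  have hcd : ∀ b b' n m, cd b n = cd b' m → n = m ∧ ∀ i < n, b i = b' i := by
    intro b b' n m h
    have h1 : List.ofFn (fun i : Fin n => b i) = List.ofFn (fun i : Fin m => b' i) :=
      Encodable.encode_injective h
    have h2 : n = m := by simpa using congrArg List.length h1
    subst h2
    refine ⟨rfl, fun i hi => ?_⟩
    have := congrFun (List.ofFn_injective h1) ⟨i, hi⟩
    exact this
  have hinf : ∀ b, (range (cd b)).Infinite := fun b =>
    infinite_range_of_injective fun n m h => (hcd b b n m h).1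
  have hfin : ∀ b b', b ≠ b' → (range (cd b) ∩ range (cd b')).Finite := by
    intro b b' hbb
    obtain ⟨i, hi⟩ := Function.ne_iff.1 hbb
    refine ((Set.finite_Iic i).image (cd b)).subset ?_
    rintro _ ⟨⟨n, rfl⟩, ⟨m, hm⟩⟩
    refine ⟨n, ?_, rfl⟩
    by_contra hn
    simp only [mem_Iic, not_le] at hn
    exact hi ((hcd b b' n m hm.symm).2 i hn)
  have hb : ∃ b : ℕ → Bool, ∀ u ∈ Q, (⋃ t ∈ range (cd b), D t) ∉ u := by
    by_contra hcon
    push Not at hcon
    choose u hu hu' using hcon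
    have hinj : Function.Injective (fun b => (⟨u b, hu b⟩ : Q)) := by
      intro b b' hbb
      by_contra hne
      have h1 : u b = u b' := congrArg Subtype.val hbb
      have h2 : (⋃ t ∈ range (cd b), D t) ∩ (⋃ t ∈ range (cd b'), D t) ∈ u b :=
        inter_mem (hu' b) (h1 ▸ hu' b')
      have h3 : (⋃ t ∈ range (cd b) ∩ range (cd b'), D t) ∈ u b := by
        refine mem_of_superset h2 ?_
        rintro w ⟨hw1, hw2⟩
        simp only [mem_iUnion] at hw1 hw2 ⊢
        obtain ⟨t, ht, hwt⟩ := hw1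
        obtain ⟨t', ht', hwt'⟩ := hw2
        have : t = t' := by
          by_contra htt
          exact Set.disjoint_left.1 (hD t t' htt) hwt hwt'
        subst this
        exact ⟨t, ⟨ht, ht'⟩, hwt⟩
      rw [Ultrafilter.finite_biUnion_mem_iff (hfin b b' hne)] at h3
      obtain ⟨t, _, ht⟩ := h3
      exact h _ (hu b) t ht
    have h6 : Cardinal.aleph0 < Cardinal.mk (ℕ → Bool) := by
      rw [← Cardinal.power_def, Cardinal.mk_bool, Cardinal.mk_nat]
      exact Cardinal.cantor _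
    have : Countable Q := hQ
    have h4 : Countable (ℕ → Bool) := hinj.countable
    exact absurd Cardinal.mk_le_aleph0 (not_le.2 h6)
  obtain ⟨b, hb⟩ := hb
  refine ⟨Nat.nth (· ∈ range (cd b)), Nat.nth_strictMono (hinf b), ?_⟩
  intro u hu hmem
  refine hb u hu (mem_of_superset hmem ?_)
  refine iUnion_subset fun t => ?_
  exact subset_biUnion_of_mem (u := D) (Nat.nth_mem_of_infinite (hinf b) t)

end Pool.Agent.Helper27.Sq
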