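import Pool.Agent.Helper27.SqKillA

/-!
The two recursions of the killing lemma.
-/

set_option autoImplicit false

open Filter Topology Set

namespace Pool.Agent.Helper27.Sq

theorem raw_seq (X : Set bW) (τ : X → (bW →₀ ℝ)) (G : ℕ → Finset Gam) (ε : ℝ)
    (hbad : ∀ (G : Finset Gam) (P : Finset bW), ∃ x : X,
      ε < tv (τ x) {u | u ∉ P ∧ ∀ g ∈ G, u ≠ act g x}) :
    ∃ (k : ℕ → ℕ) (x : ℕ → X) (F : ℕ → Finset bW), StrictMono k ∧
      (∀ n, ∀ u ∈ F n, u ∈ (τ (x n)).support) ∧ (∀ n, ε < tv (τ (x n)) (F n)) ∧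
      (∀ m n, m ≤ n → ∀ g ∈ G (k n), act g (x m) ∉ F n) ∧
      (∀ m n, m < n → ∀ u ∈ F n, u ∉ (τ (x m)).support) := by
  classical
  obtain ⟨f, hf1, hf2⟩ := exists_seq_of_forall_finset_exists
    (α := ℕ × X × Finset bW)
    (fun q => (∀ u ∈ q.2.2, u ∈ (τ q.2.1).support) ∧ (∀ g ∈ G q.1, act g q.2.1 ∉ q.2.2) ∧
      ε < tv (τ q.2.1) q.2.2)
    (fun q q' => q.1 < q'.1 ∧ (∀ u ∈ q'.2.2, u ∉ (τ q.2.1).support) ∧
      ∀ g ∈ G q'.1, act g q.2.1 ∉ q'.2.2) (by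
    intro s _
    let k' := s.sup Prod.fst + 1
    let P : Finset bW := s.biUnion fun q => (τ q.2.1).support ∪ (G k').image fun g => act g q.2.1
    obtain ⟨x', hx'⟩ := hbad (G k') P
    let F' : Finset bW := (τ x').support.filter fun u => u ∉ P ∧ ∀ g ∈ G k', u ≠ act g x'
    refine ⟨(k', x', F'), ⟨?_, ?_, ?_⟩, ?_⟩
    · intro u hu
      exact (Finset.mem_filter.1 hu).1
    · intro g hg hmem
      exact (Finset.mem_filter.1 hmem).2.2 g hg rfl
    · refine hx'.trans_le (tv_mono _ ?_)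
      intro u hu hu'
      exact Finset.mem_coe.2 (Finset.mem_filter.2 ⟨hu, hu'⟩)
    · intro q hq
      refine ⟨?_, ?_, ?_⟩
      · exact Nat.lt_succ_of_le (Finset.le_sup (f := Prod.fst) hq)
      · intro u hu hu'
        refine (Finset.mem_filter.1 hu).2.1 (Finset.mem_biUnion.2 ⟨q, hq, ?_⟩)
        exact Finset.mem_union_left _ hu'
      · intro g hg hmem
        refine (Finset.mem_filter.1 hmem).2.1 (Finset.mem_biUnion.2 ⟨q, hq, ?_⟩)
        exact Finset.mem_union_right _ (Finset.mem_image_of_mem _ hg))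
  refine ⟨fun n => (f n).1, fun n => (f n).2.1, fun n => (f n).2.2, ?_, ?_, ?_, ?_, ?_⟩
  · intro m n hmn
    exact (hf2 m n hmn).1
  · exact fun n => (hf1 n).1
  · exact fun n => (hf1 n).2.2
  · intro m n hmn
    rcases hmn.eq_or_lt with h | h
    · subst h
      exact (hf1 m).2.1
    · exact (hf2 m n h).2.2
  · intro m n hmn
    exact (hf2 m n hmn).2.1

/-- small neighbourhoods -/
theorem small_nbhd (V : Ultrafilter ℕ) (t : ℕ → (bW →₀ ℝ)) (C : ℝ) (hC : ∀ n, tv (t n) univ ≤ C)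
    (F : ℕ → Finset bW) (hF : ∀ m n, m < n → ∀ u ∈ F n, u ∉ F m) (δ : ℝ) (hδ : 0 < δ) :
    ∃ N : ℕ, ∀ n ≥ N, ∃ D : Set W, (∀ u ∈ F n, D ∈ u) ∧ {n' | tv (t n') (cl D) < δ} ∈ V := by
  classical
  by_contra hcon
  push Not at hcon
  have hinf : {n | ∀ D : Set W, (∀ u ∈ F n, D ∈ u) → {n' | tv (t n') (cl D) < δ} ∉ V}.Infinite := by
    rw [Set.infinite_iff_frequently_cofinite, Nat.cofinite_eq_atTop, Filter.frequently_atTop]
    intro N
    obtain ⟨n, hn, h⟩ := hcon N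
    exact ⟨n, hn, h⟩
  obtain ⟨L, hL⟩ := exists_nat_gt (C / δ)
  obtain ⟨I, hI, hIc⟩ := hinf.exists_subset_card_eq L
  obtain ⟨D, hD1, hD2⟩ := famsep I F (by
    intro m _ n _ hmn u hu hu'
    rcases lt_or_gt_of_ne hmn with h | h
    · exact hF m n h u hu' hu
    · exact hF n m h u hu hu')
  have h1 : ∀ n ∈ I, {n' | δ ≤ tv (t n') (cl (D n))} ∈ V := by
    intro n hn
    have h2 := hI hn (D n) (hD1 n hn)
    have h3 := Ultrafilter.compl_mem_iff_notMem.2 h2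
    filter_upwards [h3] with n' hn'
    exact not_lt.1 hn'
  have h2 : (⋂ n ∈ I, {n' | δ ≤ tv (t n') (cl (D n))}) ∈ (V : Filter ℕ) := by
    rw [Filter.biInter_finset_mem]
    exact h1
  obtain ⟨n', hn'⟩ := Ultrafilter.nonempty_of_mem h2
  simp only [mem_iInter] at hn'
  have h3 := tv_sum_le (t n') I D hD2
  have h4 : (L : ℝ) * δ ≤ ∑ n ∈ I, tv (t n') (cl (D n)) := by
    have : ∑ n ∈ I, δ ≤ ∑ n ∈ I, tv (t n') (cl (D n)) := Finset.sum_le_sum fun n hn => hn' n hn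
    rw [Finset.sum_const, hIc, nsmul_eq_mul] at this
    exact this
  have h5 : C < L * δ := by rwa [div_lt_iff₀ hδ] at hL
  linarith [hC n']

theorem second_seq (t : ℕ → (bW →₀ ℝ)) (p : ℕ → bW) (hp : Function.Injective p) (C : ℝ)
    (hC : ∀ n, tv (t n) univ ≤ C) (F : ℕ → Finset bW) (O : ℕ → ℕ → Finset bW) (ε : ℝ) (hε : 0 < ε)
    (hFt : ∀ n, ∀ u ∈ F n, u ∈ (t n).support)
    (hFO : ∀ m n, m ≤ n → ∀ u ∈ O m n, u ∉ F n)
    (hFs : ∀ m n, m < n → ∀ u ∈ F n, u ∉ (t m).support) :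
    ∃ (φ : ℕ → ℕ) (D E : ℕ → Set W), StrictMono φ ∧
      (∀ i, ∀ u ∈ F (φ i), D i ∈ u) ∧
      (∀ i, ∀ u ∈ (t (φ i)).support, u ∉ F (φ i) → D i ∉ u) ∧
      (∀ m i, m ≤ i → ∀ u ∈ O (φ m) (φ i), D i ∉ u) ∧
      (∀ m i, m < i → ∀ u ∈ (t (φ m)).support, D i ∉ u) ∧
      (∀ i j, i < j → tv (t (φ j)) (cl (D i)) < ε / 2 ^ (i + 3)) ∧
      (∀ i, E i ∈ p (φ i)) ∧ (∀ i j, i < j → E i ∉ p (φ j)) := by
  classical
  let V : Ultrafilter ℕ := hyperfilter ℕ
  let y : bW := V.bind p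
  have hVfin : ∀ s : Set ℕ, s.Finite → sᶜ ∈ V := fun s hs => by
    apply mem_hyperfilter_of_finite_compl
    rwa [compl_compl]
  have hVge : ∀ n : ℕ, {m | n < m} ∈ V := fun n => by
    have := hVfin (Set.Iic n) (Set.finite_Iic n)
    filter_upwards [this] with m hm
    simpa using hm
  have hVy : {m | p m ≠ y} ∈ V := by
    have hsub : ({m | p m = y} : Set ℕ).Subsingleton := by
      intro a ha b hb
      exact hp (ha.trans hb.symm)
    exact hVfin _ hsub.finite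
  obtain ⟨f, hf1, hf2⟩ := exists_seq_of_forall_finset_exists
    (α := (ℕ × ℕ) × (Set W × Set W))
    (fun q => (∀ u ∈ F q.1.2, q.2.1 ∈ u) ∧ (∀ u ∈ (t q.1.2).support, u ∉ F q.1.2 → q.2.1 ∉ u) ∧
      (∀ u ∈ O q.1.2 q.1.2, q.2.1 ∉ u) ∧ {n' | tv (t n') (cl q.2.1) < ε / 2 ^ (q.1.1 + 3)} ∈ V ∧
      q.2.2 ∈ p q.1.2 ∧ {n' | q.2.2 ∉ p n'} ∈ V)
    (fun q q' => q.1.1 < q'.1.1 ∧ q.1.2 < q'.1.2 ∧ (∀ u ∈ O q.1.2 q'.1.2, q'.2.1 ∉ u) ∧
      (∀ u ∈ (t q.1.2).support, q'.2.1 ∉ u) ∧ tv (t q'.1.2) (cl q.2.1) < ε / 2 ^ (q.1.1 + 3) ∧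
      q.2.2 ∉ p q'.1.2) (by
    intro s hs
    let i' := s.sup (fun q => q.1.1) + 1
    obtain ⟨N, hN⟩ := small_nbhd V t C hC F (fun m n hmn u hu hu' => hFs m n hmn u hu (hFt m u hu'))
      (ε / 2 ^ (i' + 3)) (by positivity)
    -- choose the next index
    have h1 : {n' | N < n'} ∩ {m | p m ≠ y} ∩ {n' | s.sup (fun q => q.1.2) < n'} ∩
        (⋂ q ∈ s, {n' | tv (t n') (cl q.2.1) < ε / 2 ^ (q.1.1 + 3)}) ∩
        (⋂ q ∈ s, {n' | q.2.2 ∉ p n'}) ∈ (V : Filter ℕ) := by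
      refine inter_mem (inter_mem (inter_mem (inter_mem (hVge N) hVy) (hVge _)) ?_) ?_
      · rw [Filter.biInter_finset_mem]
        exact fun q hq => (hs q hq).2.2.2.1
      · rw [Filter.biInter_finset_mem]
        exact fun q hq => (hs q hq).2.2.2.2.2
    obtain ⟨n', ⟨⟨⟨hn1, hn2⟩, hn3⟩, hn4⟩, hn5⟩ := Ultrafilter.nonempty_of_mem h1
    simp only [mem_iInter, mem_ofPred_eq] at hn1 hn2 hn3 hn4 hn5
    have hlt : ∀ q ∈ s, q.1.2 < n' := fun q hq =>
      lt_of_le_of_lt (Finset.le_sup (f := fun q : (ℕ × ℕ) × (Set W × Set W) => q.1.2) hq) hn3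
    obtain ⟨D1, hD1, hD1'⟩ := hN n' hn1.le
    let Q : Finset bW := (t n').support.filter (· ∉ F n') ∪ O n' n' ∪
      s.biUnion (fun q => (t q.1.2).support ∪ O q.1.2 n')
    obtain ⟨A, hA1, hA2⟩ := sepfin (F n') Q (by
      intro u hu hQ
      simp only [Q, Finset.mem_union, Finset.mem_filter, Finset.mem_biUnion] at hQ
      rcases hQ with (hQ | hQ) | ⟨q, hq, hQ | hQ⟩
      · exact hQ.2 hu
      · exact hFO n' n' le_rfl u hQ hu
      · exact hFs _ _ (hlt q hq) u hu (Finsupp.mem_support_iff.2 (Finsupp.mem_support_iff.1 hQ))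
      · exact hFO _ _ (hlt q hq).le u hQ hu)
    obtain ⟨E, hE1, hE2⟩ := sep2 hn2
    have hDA : ∀ u : bW, D1 ∩ A ∈ u → A ∈ u := fun u h => mem_of_superset h inter_subset_right
    refine ⟨((i', n'), (D1 ∩ A, E)), ⟨?_, ?_, ?_, ?_, ?_, ?_⟩, ?_⟩
    · exact fun u hu => inter_mem (hD1 u hu) (hA1 u hu)
    · intro u hu hu' h
      refine hA2 u ?_ (hDA u h)
      exact Finset.mem_union_left _ (Finset.mem_union_left _ (Finset.mem_filter.2 ⟨hu, hu'⟩))
    · intro u hu h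
      refine hA2 u ?_ (hDA u h)
      exact Finset.mem_union_left _ (Finset.mem_union_right _ hu)
    · filter_upwards [hD1'] with m hm
      refine lt_of_le_of_lt (tv_mono _ ?_) hm
      intro u _ hu
      exact mem_of_superset hu inter_subset_left
    · exact hE1
    · have h3 : {n' | E ∈ p n'} ∉ V := fun h => hE2 h
      exact Ultrafilter.compl_mem_iff_notMem.2 h3
    · intro q hq
      refine ⟨?_, hlt q hq, ?_, ?_, hn4 q hq, hn5 q hq⟩
      · exact Nat.lt_succ_of_le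
          (Finset.le_sup (f := fun q : (ℕ × ℕ) × (Set W × Set W) => q.1.1) hq)
      · intro u hu h
        refine hA2 u ?_ (hDA u h)
        exact Finset.mem_union_right _ (Finset.mem_biUnion.2 ⟨q, hq, Finset.mem_union_right _ hu⟩)
      · intro u hu h
        refine hA2 u ?_ (hDA u h)
        exact Finset.mem_union_right _ (Finset.mem_biUnion.2 ⟨q, hq, Finset.mem_union_left _ hu⟩))
  have hmono1 : StrictMono fun i => (f i).1.1 := fun i j hij => (hf2 i j hij).1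
  refine ⟨fun i => (f i).1.2, fun i => (f i).2.1, fun i => (f i).2.2, ?_, ?_, ?_, ?_, ?_, ?_, ?_, ?_⟩
  · exact fun i j hij => (hf2 i j hij).2.1
  · exact fun i => (hf1 i).1
  · exact fun i => (hf1 i).2.1
  · intro m i hmi
    rcases hmi.eq_or_lt with h | h
    · subst h
      exact (hf1 m).2.2.1
    · exact (hf2 m i h).2.2.1
  · exact fun m i hmi => (hf2 m i hmi).2.2.2.1
  · intro i j hij
    refine (hf2 i j hij).2.2.2.2.1.trans_le ?_
    have : i ≤ (f i).1.1 := hmono1.le_apply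
    gcongr
    norm_num
  · exact fun i => (hf1 i).2.2.2.2.1
  · exact fun i j hij => (hf2 i j hij).2.2.2.2.2

end Pool.Agent.Helper27.Sq
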