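import Pool.Agent.Helper27.SqAct

/-!
A minimal closed invariant set and a countable dense orbit.
-/

set_option autoImplicit false

open Filter Topology Set

namespace Pool.Agent.Helper27.Sq

/-- invariant sets -/
def Inv (Z : Set bW) : Prop := ∀ u ∈ Z, ∀ g, act g u ∈ Z

theorem FF_nonempty : FF.Nonempty := by
  refine ⟨(hyperfilter ℕ).map (fun n => List.replicate n true), ?_⟩
  intro n
  rw [Ultrafilter.mem_map]
  have : {m : ℕ | n ≤ m} ∈ hyperfilter ℕ := by
    apply mem_hyperfilter_of_finite_compl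
    have : {m : ℕ | n ≤ m}ᶜ = Set.Iio n := by ext m; simp
    rw [this]
    exact Set.finite_Iio n
  filter_upwards [this] with m hm
  simpa using hm

theorem exists_minimal : ∃ K : Set bW, K ⊆ FF ∧ IsClosed K ∧ K.Nonempty ∧ Inv K ∧
    ∀ Z ⊆ K, IsClosed Z → Z.Nonempty → Inv Z → Z = K := by
  let S : Set (Set bW) := {Z | Z ⊆ FF ∧ IsClosed Z ∧ Z.Nonempty ∧ Inv Z}
  have h0 : FF ∈ S := ⟨subset_rfl, isClosed_FF, FF_nonempty, fun u hu g => FF_act hu g⟩
  obtain ⟨K, hK1, hK2⟩ := zorn_superset_nonempty S (by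
    intro c hc hchain hne
    refine ⟨⋂₀ c, ⟨?_, ?_, ?_, ?_⟩, fun s hs => sInter_subset_of_mem hs⟩
    · obtain ⟨s, hs⟩ := hne
      exact (sInter_subset_of_mem hs).trans (hc hs).1
    · exact isClosed_sInter fun s hs => (hc hs).2.1
    · have : Nonempty c := hne.to_subtype
      refine IsCompact.nonempty_sInter_of_directed_nonempty_isCompact_isClosed (S := c)
        ?_ (fun s hs => (hc hs).2.2.1) (fun s hs => (hc hs).2.1.isCompact)
        (fun s hs => (hc hs).2.1)
      intro s hs t ht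
      rcases hchain.total hs ht with h | h
      · exact ⟨s, hs, subset_rfl, h⟩
      · exact ⟨t, ht, h, subset_rfl⟩
    · intro u hu g
      rw [mem_sInter] at hu ⊢
      intro s hs
      exact (hc hs).2.2.2 u (hu s hs) g) FF h0
  refine ⟨K, hK2.prop.1, hK2.prop.2.1, hK2.prop.2.2.1, hK2.prop.2.2.2, ?_⟩
  intro Z hZ h1 h2 h3
  have hZS : Z ∈ S := ⟨hZ.trans hK2.prop.1, h1, h2, h3⟩
  exact subset_antisymm hZ (hK2.le_of_le hZS hZ)

theorem closure_inv {Z : Set bW} (hZ : Inv Z) : Inv (closure Z) := by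
  intro u hu g
  have := map_mem_closure (continuous_act g) hu (fun v hv => hZ v hv g)
  exact this

theorem orb_inv (u : bW) : Inv (orb u) := by
  rintro _ ⟨g, rfl⟩ h
  exact ⟨gmul h g, (act_act h g u).symm⟩

theorem mem_closure_bW {u : bW} {Z : Set bW} : u ∈ closure Z ↔ ∀ s ∈ u, ∃ v ∈ Z, s ∈ v := by
  constructor
  · intro h s hs
    rw [mem_closure_iff] at h
    obtain ⟨v, hv, hvZ⟩ := h {v | s ∈ v} (ultrafilter_isOpen_basic s) hs
    exact ⟨v, hvZ, hv⟩
  · intro h
    rw [mem_closure_iff_nhds_basis (ultrafilterBasis_is_basis.nhds_hasBasis)]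
    rintro t ⟨⟨s, rfl⟩, hut⟩
    obtain ⟨v, hv, hsv⟩ := h s hut
    exact ⟨v, hv, hsv⟩

theorem exists_crowded : ∃ (K : Set bW) (p : bW), K ⊆ FF ∧ IsClosed K ∧ Inv K ∧ p ∈ K ∧
    ∀ u ∈ K, ∀ s ∈ u, {x ∈ orb p | s ∈ x}.Infinite := by
  obtain ⟨K, hKF, hKc, ⟨p, hp⟩, hKi, hmin⟩ := exists_minimal
  refine ⟨K, p, hKF, hKc, hKi, hp, ?_⟩
  -- density of the orbit
  have hdense : closure (orb p) = K := by
    apply hmin
    · refine closure_minimal ?_ hKc
      rintro _ ⟨g, rfl⟩
      exact hKi p hp g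
    · exact isClosed_closure
    · exact ⟨p, subset_closure (self_mem_orb p)⟩
    · exact closure_inv (orb_inv p)
  -- the derived set
  let K' : Set bW := {u ∈ K | ∀ s ∈ u, {v ∈ K | s ∈ v}.Infinite}
  have hK' : K' = K := by
    apply hmin
    · exact fun u hu => hu.1
    · have : K' = K ∩ ⋂ (s : Set W) (_ : {v ∈ K | s ∈ v}.Finite), {u : bW | s ∈ u}ᶜ := by
        ext u
        simp only [K', mem_inter_iff, mem_iInter, mem_compl_iff, mem_ofPred_eq]
        constructor
        · rintro ⟨h1, h2⟩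
          exact ⟨h1, fun s hs hsu => h2 s hsu hs⟩
        · rintro ⟨h1, h2⟩
          exact ⟨h1, fun s hs hfin => h2 s hfin hs⟩
      rw [this]
      refine hKc.inter (isClosed_iInter fun s => isClosed_iInter fun _ => ?_)
      exact (ultrafilter_isOpen_basic s).isClosed_compl
    · by_contra hne
      rw [Set.not_nonempty_iff_eq_empty] at hne
      have h1 : ∀ u ∈ K, ∃ s ∈ u, {v ∈ K | s ∈ v}.Finite := by
        intro u hu
        by_contra hcon
        push Not at hcon
        have : u ∈ K' := ⟨hu, fun s hs => hcon s hs⟩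
        rw [hne] at this
        exact this
      have hfin : K.Finite := by
        have hcomp : IsCompact K := hKc.isCompact
        refine hcomp.induction_on (p := fun Z => (K ∩ Z).Finite) (by simp) ?_ ?_ ?_ |>.subset ?_
        · intro s t hst ht
          exact ht.subset (inter_subset_inter_right _ hst)
        · intro s t hs ht
          rw [inter_union_distrib_left]
          exact hs.union ht
        · intro u hu
          obtain ⟨s, hs, hfin⟩ := h1 u hu
          refine ⟨{v | s ∈ v}, mem_nhdsWithin_of_mem_nhds ((ultrafilter_isOpen_basic s).mem_nhds hs),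
            ?_⟩
          exact hfin
        · intro u hu
          exact ⟨hu, hu⟩
      have hinj : Function.Injective (fun a : W => act (a, 0) p) := by
        intro a b hab
        exact act_level_inj hab
      have hinf : (range (fun a : W => act (a, 0) p)).Infinite := infinite_range_of_injective hinj
      refine hinf (hfin.subset ?_)
      rintro _ ⟨a, rfl⟩
      exact hKi p hp _
    · rintro u ⟨hu, hu'⟩ g
      refine ⟨hKi u hu g, fun s hs hfin => ?_⟩
      refine hu' _ hs ?_
      have h2 : {v ∈ K | gm g ⁻¹' s ∈ v} ⊆ ⋃ q ∈ {v ∈ K | s ∈ v}, {u ∈ FF | act g u = q} := by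
        rintro v ⟨hv, hv'⟩
        simp only [mem_iUnion]
        exact ⟨act g v, ⟨hKi v hv g, hv'⟩, hKF hv, rfl⟩
      exact (hfin.biUnion fun q _ => finite_preimage g q).subset h2
  intro u hu s hs hfin
  rw [← hK'] at hu
  have hinf := hu.2 s hs
  obtain ⟨v, ⟨hvK, hsv⟩, hvn⟩ := (hinf.sdiff hfin).nonempty
  -- separate `v` from the finite set
  have h3 : ∃ t ∈ v, ∀ x ∈ {x ∈ orb p | s ∈ x}, t ∉ x := by
    have hcl : IsClosed {x ∈ orb p | s ∈ x} := hfin.isClosed
    have hv2 : v ∉ closure {x ∈ orb p | s ∈ x} := by rwa [hcl.closure_eq]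
    rw [mem_closure_bW] at hv2
    push Not at hv2
    exact hv2
  obtain ⟨t, htv, ht⟩ := h3
  rw [← hdense, mem_closure_bW] at hvK
  obtain ⟨x, hx, hx'⟩ := hvK (s ∩ t) (inter_mem hsv htv)
  exact ht x ⟨hx, mem_of_superset hx' inter_subset_left⟩ (mem_of_superset hx' inter_subset_right)

end Pool.Agent.Helper27.Sq
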