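import Pool.Agent.Helper27.SqSpace

/-!
Operators on the function space.
-/

set_option autoImplicit false

open Filter Topology Set BoundedContinuousFunction

namespace Pool.Agent.Helper27.Sq

/-- the properties of the pair `X`, `Y` -/
structure Good (X Y : Set bW) : Prop where
  cX : X.Countable
  sub : X ⊆ Y
  FFY : Y ⊆ FF
  invX : Inv X
  invY : Inv Y
  neX : X.Nonempty
  crowd : ∀ u ∈ Y, ∀ s ∈ u, {x ∈ X | s ∈ x}.Infinite
  killed : ∀ τ : X → (bW →₀ ℝ), Bad X τ → ∃ (x : ℕ → X) (U : Ultrafilter ℕ),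
      Function.Injective x ∧ (∀ n, τ (x n) ≠ 0) ∧ Fr U ∧ U.bind (fun k => (x k : bW)) ∈ Y ∧
      ∀ ν : bW →₀ ℝ, (∀ A, Tendsto (fun k => ev (τ (x k)) A) U (𝓝 (ev ν A))) →
        ∃ u ∈ ν.support, u ∉ Y

theorem exists_good : ∃ X Y : Set bW, Good X Y := by
  obtain ⟨X, Y, h1, h2, h3, h4, h5, h6, h7, h8⟩ := exists_Y
  exact ⟨X, Y, h1, h2, h3, h4, h5, h6, h7, h8⟩

variable {X Y : Set bW}

theorem mem_nhds_Y {y : Y} {S : Set Y} :
    S ∈ 𝓝 y ↔ ∃ A ∈ (y : bW), ∀ u : Y, A ∈ (u : bW) → u ∈ S := by
  rw [nhds_subtype_eq_comap]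
  rw [(ultrafilterBasis_is_basis.nhds_hasBasis.comap ((↑) : Y → bW)).mem_iff]
  constructor
  · rintro ⟨t, ⟨⟨A, rfl⟩, hA⟩, ht⟩
    exact ⟨A, hA, fun u hu => ht hu⟩
  · rintro ⟨A, hA, hS⟩
    exact ⟨{u | A ∈ u}, ⟨⟨A, rfl⟩, hA⟩, fun u hu => hS u hu⟩

theorem dense_diff (h : Good X Y) (Ex : Set bW) (hEx : Ex.Finite) :
    Dense {y : Y | (y : bW) ∈ X ∧ (y : bW) ∉ Ex} := by
  intro y
  rw [mem_closure_iff_nhds]
  intro S hS
  obtain ⟨A, hA, hAS⟩ := mem_nhds_Y.1 hS
  obtain ⟨x, ⟨hx1, hx2⟩, hx3⟩ := ((h.crowd y y.2 A hA).sdiff hEx).nonempty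
  exact ⟨⟨x, h.sub hx1⟩, hAS _ hx2, hx1, hx3⟩

theorem isClopen_Y (A : Set W) : IsClopen {u : Y | A ∈ (u : bW)} :=
  ⟨(ultrafilter_isClosed_basic A).preimage continuous_subtype_val,
    (ultrafilter_isOpen_basic A).preimage continuous_subtype_val⟩

open Classical in
/-- indicator function -/
noncomputable def ind (Y : Set bW) (A : Set W) : Y → ℝ := fun u => if A ∈ (u : bW) then 1 else 0

theorem continuous_ind (A : Set W) : Continuous (ind Y A) := by
  classical
  have h := (isClopen_Y (Y := Y) A)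
  have : ind Y A = Set.indicator {u : Y | A ∈ (u : bW)} (fun _ => 1) := by
    funext u
    simp [ind, Set.indicator]
  rw [this]
  exact h.continuous_indicator continuous_const

theorem ind_nonneg (A : Set W) (u : Y) : 0 ≤ ind Y A u := by
  unfold ind; split_ifs <;> norm_num

theorem ind_le_one (A : Set W) (u : Y) : ind Y A u ≤ 1 := by
  unfold ind; split_ifs <;> norm_num

/-- indicator as a bounded continuous function -/
noncomputable def chi (Y : Set bW) (A : Set W) : Y →ᵇ ℝ :=
  BoundedContinuousFunction.ofNormedAddCommGroup (ind Y A) (continuous_ind A) 1 (fun u => by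
    rw [Real.norm_eq_abs, abs_of_nonneg (ind_nonneg A u)]
    exact ind_le_one A u)

@[simp] theorem chi_apply (A : Set W) (u : Y) : chi Y A u = ind Y A u := rfl

/-- representation of continuous functionals -/
theorem functional_rep (φ : (Y → ℝ) → ℝ)
    (hlin : ∀ (a : ℝ) (f g : Y → ℝ), Continuous f → Continuous g → φ (a • f + g) = a * φ f + φ g)
    (hc : ContinuousOn φ {f | Continuous f}) :
    ∃ ν : Y →₀ ℝ, ∀ f : Y → ℝ, Continuous f → φ f = ν.sum fun u r => r * f u := by
  classical
  have h0 : φ 0 = 0 := by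
    have := hlin 1 0 0 continuous_const continuous_const
    simp at this
    exact this
  have hsmul : ∀ (a : ℝ) (f : Y → ℝ), Continuous f → φ (a • f) = a * φ f := by
    intro a f hf
    have := hlin a f 0 hf continuous_const
    rw [h0, add_zero, add_zero] at this
    exact this
  have h1 : ∃ F : Finset Y, ∃ δ > 0, ∀ f : Y → ℝ, Continuous f → (∀ u ∈ F, |f u| < δ) →
      |φ f| < 1 := by
    have h2 := hc 0 (show Continuous (0 : Y → ℝ) from continuous_const)
    rw [ContinuousWithinAt, h0, Metric.tendsto_nhds] at h2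
    have h3 := h2 1 one_pos
    rw [eventually_nhdsWithin_iff] at h3
    rw [nhds_pi, Filter.Eventually, Filter.mem_pi] at h3
    obtain ⟨I, hI, t, ht, hsub⟩ := h3
    have h4 : ∀ u : Y, ∃ δ > 0, Metric.ball (0 : ℝ) δ ⊆ t u := fun u => Metric.mem_nhds_iff.1 (ht u)
    choose δ hδ hδt using h4
    by_cases hne : hI.toFinset.Nonempty
    · refine ⟨hI.toFinset, hI.toFinset.inf' hne δ, ?_, ?_⟩
      · rw [gt_iff_lt, Finset.lt_inf'_iff]
        exact fun u _ => hδ u
      · intro f hf hfF
        have := hsub (a := f) (by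
          intro u hu
          apply hδt
          rw [mem_ball_zero_iff, Real.norm_eq_abs]
          have hu' : u ∈ hI.toFinset := hI.mem_toFinset.2 hu
          exact (hfF u hu').trans_le (Finset.inf'_le δ hu')) hf
        simpa [Real.dist_eq] using this
    · refine ⟨∅, 1, one_pos, ?_⟩
      intro f hf _
      have := hsub (a := f) (by
        intro u hu
        exact absurd ⟨u, hI.mem_toFinset.2 hu⟩ hne) hf
      simpa [Real.dist_eq] using this
  obtain ⟨F, δ, hδ, hF⟩ := h1
  have h2 : ∀ f : Y → ℝ, Continuous f → (∀ u ∈ F, f u = 0) → φ f = 0 := by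
    intro f hf hfF
    by_contra hne
    have h3 := hF ((2 / φ f) • f) (hf.const_smul _) (by
      intro u hu
      simp [hfF u hu, hδ])
    rw [hsmul _ _ hf, div_mul_cancel₀ _ hne] at h3
    norm_num at h3
  have h3 : ∀ u : Y, ∃ A : Set W, u ∈ F → A ∈ (u : bW) ∧ ∀ v ∈ F, v ≠ u → A ∉ (v : bW) := by
    intro u
    obtain ⟨A, hA1, hA2⟩ := sepfin {(u : bW)} ((F.erase u).image (↑)) (by
      intro v hv hv'
      rw [Finset.mem_singleton] at hv
      rw [Finset.mem_image] at hv'
      obtain ⟨v', hv', hvv⟩ := hv'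
      exact (Finset.mem_erase.1 hv').1 (Subtype.ext (hvv.trans hv)))
    refine ⟨A, fun _ => ⟨hA1 u (Finset.mem_singleton_self _), fun v hv hvu => ?_⟩⟩
    exact hA2 v (Finset.mem_image_of_mem _ (Finset.mem_erase.2 ⟨hvu, hv⟩))
  choose A hA using h3
  have hcs : ∀ (s : Finset Y) (c : Y → ℝ) (e : Y → Y → ℝ), (∀ u, Continuous (e u)) →
      Continuous (∑ u ∈ s, c u • e u) := by
    intro s c e he
    induction s using Finset.induction_on with
    | empty =>
      rw [Finset.sum_empty]
      exact continuous_const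
    | insert a s ha ih =>
      rw [Finset.sum_insert ha]
      exact ((he a).const_smul (c a)).add ih
  have hsum : ∀ (s : Finset Y) (c : Y → ℝ) (e : Y → Y → ℝ), (∀ u, Continuous (e u)) →
      φ (∑ u ∈ s, c u • e u) = ∑ u ∈ s, c u * φ (e u) := by
    intro s c e he
    induction s using Finset.induction_on with
    | empty => simpa using h0
    | insert a s ha ih =>
      rw [Finset.sum_insert ha, Finset.sum_insert ha, hlin _ _ _ (he a), ih]
      exact hcs s c e he
  refine ⟨Finsupp.onFinset F (fun u => if u ∈ F then φ (ind Y (A u)) else 0) (by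
    intro u hu
    by_contra h
    simp [h] at hu), ?_⟩
  intro f hf
  have h4 : φ (f - ∑ u ∈ F, f u • ind Y (A u)) = 0 := by
    refine h2 _ ?_ ?_
    · exact hf.sub (hcs _ _ _ fun u => continuous_ind _)
    · intro v hv
      rw [Pi.sub_apply, Finset.sum_apply, Finset.sum_eq_single_of_mem v hv]
      · simp [ind, (hA v hv).1]
      · intro u hu huv
        simp [ind, (hA u hu).2 v hv (Ne.symm huv)]
  have h5 : φ f = φ (∑ u ∈ F, f u • ind Y (A u)) := by
    have h6 : f = (1 : ℝ) • (f - ∑ u ∈ F, f u • ind Y (A u)) + ∑ u ∈ F, f u • ind Y (A u) := by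
      rw [one_smul, sub_add_cancel]
    conv_lhs => rw [h6]
    rw [hlin _ _ _ (hf.sub (hcs _ _ _ fun u => continuous_ind _))
      (hcs _ _ _ fun u => continuous_ind _), h4]
    simp
  rw [h5, hsum F f _ (fun u => continuous_ind _)]
  rw [Finsupp.onFinset_sum _ (by intro u; simp)]
  refine Finset.sum_congr rfl fun u hu => ?_
  rw [if_pos hu, mul_comm]

/-- continuous functions are bounded -/
theorem bounded (h : Good X Y) (f : Y → ℝ) (hf : Continuous f) : ∃ C, ∀ y, |f y| ≤ C := by
  classical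
  by_contra hcon
  push Not at hcon
  -- unbounded on X
  have h1 : ∀ C : ℝ, ∃ x : X, C < |f ⟨x, h.sub x.2⟩| := by
    intro C
    obtain ⟨y, hy⟩ := hcon C
    have hS : {u : Y | C < |f u|} ∈ 𝓝 y := (isOpen_lt continuous_const hf.abs).mem_nhds hy
    obtain ⟨u, hu, hu2⟩ := (mem_closure_iff_nhds.1 (dense_diff h ∅ Set.finite_empty y)) _ hS
    exact ⟨⟨u, hu2.1⟩, hu⟩
  let F : X → ℝ := fun x => |f ⟨x, h.sub x.2⟩|
  obtain ⟨e, _, he⟩ := exists_seq_of_forall_finset_exists (α := X) (fun _ => True)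
    (fun x x' => F x + 1 < F x') (by
      intro s _
      obtain ⟨B, hB⟩ : ∃ B : ℝ, ∀ x ∈ s, F x ≤ B := by
        refine ⟨∑ x ∈ s, F x, fun x hx => ?_⟩
        exact Finset.single_le_sum (f := F) (fun i _ => abs_nonneg _) hx
      obtain ⟨x', hx'⟩ := h1 (B + 1)
      exact ⟨x', trivial, fun x hx => by
        have := hB x hx
        change F x + 1 < F x'
        change B + 1 < F x' at hx'
        linarith⟩)
  have heinj : Function.Injective e := by
    intro m n hmn
    rcases lt_trichotomy m n with hlt | hlt | hlt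
    · have := he m n hlt
      rw [hmn] at this
      linarith
    · exact hlt
    · have := he n m hlt
      rw [hmn] at this
      linarith
  have hege : ∀ n : ℕ, (n : ℝ) ≤ F (e n) := by
    intro n
    induction n with
    | zero => simpa using abs_nonneg _
    | succ n ih =>
      have := he n (n + 1) (Nat.lt_succ_self n)
      push_cast
      linarith
  let w : ℕ → bW := fun n => pure (List.replicate n true)
  have hwinj : Function.Injective w := by
    intro m n hmn
    have := Ultrafilter.pure_injective hmn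
    simpa using congrArg List.length this
  have hwFF : ∀ n, w n ∉ FF := by
    intro n hn
    have h2 := hn (n + 1)
    have h3 : List.replicate n true ∈ {w : W | n + 1 ≤ w.length} := h2
    simp at h3
  let τ : X → (bW →₀ ℝ) := fun x => if hx : ∃ n, e n = x then Finsupp.single (w hx.choose) 1 else 0
  have hτe : ∀ n, τ (e n) = Finsupp.single (w n) 1 := by
    intro n
    have hx : ∃ m, e m = e n := ⟨n, rfl⟩
    simp only [τ]
    rw [dif_pos hx, heinj hx.choose_spec]
  have htv : ∀ (b : bW) (Z : Set bW), tv (Finsupp.single b 1) Z = if b ∈ Z then 1 else 0 := by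
    intro b Z
    unfold tv
    rw [Finsupp.support_single _ one_ne_zero, Finset.sum_singleton]
    simp
  have hbad : Bad X τ := by
    refine ⟨⟨1, fun x => ?_⟩, ⟨1 / 2, by norm_num, fun G P => ?_⟩⟩
    · by_cases hx : ∃ n, e n = x
      · obtain ⟨n, rfl⟩ := hx
        rw [hτe, htv]
        simp
      · simp only [τ]
        rw [dif_neg hx]
        simp [tv]
    · have : ∃ n, w n ∉ P := by
        by_contra hc
        push Not at hc
        have h3 : (range w).Infinite := infinite_range_of_injective hwinj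
        exact h3 (P.finite_toSet.subset (by rintro _ ⟨n, rfl⟩; exact hc n))
      obtain ⟨n, hn⟩ := this
      refine ⟨e n, ?_⟩
      rw [hτe, htv, if_pos]
      · norm_num
      · refine ⟨hn, fun g _ hg => hwFF n ?_⟩
        rw [hg]
        exact FF_act (h.FFY (h.sub (e n).2)) g
  obtain ⟨x, U, hxinj, hxne, hU, hUY, _⟩ := h.killed τ hbad
  let y : Y := ⟨_, hUY⟩
  have hS : {u : Y | |f u| < |f y| + 1} ∈ 𝓝 y :=
    (isOpen_lt hf.abs continuous_const).mem_nhds (by simp)
  obtain ⟨A, hA, hAS⟩ := mem_nhds_Y.1 hS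
  have h2 : {k | A ∈ (x k : bW)} ∈ U := hA
  have h3 : {k | F (x k) < |f y| + 1}.Finite := by
    have h4 : {k | F (x k) < |f y| + 1} ⊆ x ⁻¹' (e '' {n | (n : ℝ) < |f y| + 1}) := by
      intro k hk
      have h5 : ∃ n, e n = x k := by
        by_contra hc
        apply hxne k
        simp only [τ]
        rw [dif_neg hc]
      obtain ⟨n, hn⟩ := h5
      refine ⟨n, ?_, hn⟩
      have h6 := hege n
      rw [hn] at h6
      exact h6.trans_lt hk
    refine Set.Finite.subset (Set.Finite.preimage hxinj.injOn (Set.Finite.image e ?_)) h4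
    obtain ⟨N, hN⟩ := exists_nat_gt (|f y| + 1)
    refine (Set.finite_Iio N).subset ?_
    intro n hn
    have : (n : ℝ) < N := lt_trans hn hN
    exact_mod_cast this
  have h4 := hU.compl_mem h3
  obtain ⟨k, hk1, hk2⟩ := Ultrafilter.nonempty_of_mem (inter_mem h2 h4)
  exact hk2 (hAS ⟨x k, h.sub (x k).2⟩ hk1)

end Pool.Agent.Helper27.Sq
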