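import Pool.Agent.Helper27.SqKill

/-!
Construction of the space.
-/

set_option autoImplicit false

open Filter Topology Set Cardinal

namespace Pool.Agent.Helper27.Sq

theorem bind_mem_closed {K : Set bW} (hK : IsClosed K) (x : ℕ → bW) (hx : ∀ k, x k ∈ K)
    (U : Ultrafilter ℕ) : U.bind x ∈ K := by
  rw [← hK.closure_eq, mem_closure_bW]
  intro s hs
  have h1 : {k | s ∈ x k} ∈ U := hs
  obtain ⟨k, hk⟩ := Ultrafilter.nonempty_of_mem h1
  exact ⟨x k, hx k, hk⟩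

theorem exists_Y : ∃ X Y : Set bW, X.Countable ∧ X ⊆ Y ∧ Y ⊆ FF ∧ Inv X ∧ Inv Y ∧ X.Nonempty ∧
    (∀ u ∈ Y, ∀ s ∈ u, {x ∈ X | s ∈ x}.Infinite) ∧
    (∀ τ : X → (bW →₀ ℝ), Bad X τ → ∃ (x : ℕ → X) (U : Ultrafilter ℕ), Function.Injective x ∧
      (∀ n, τ (x n) ≠ 0) ∧ Fr U ∧ U.bind (fun k => (x k : bW)) ∈ Y ∧
      ∀ ν : bW →₀ ℝ, (∀ A, Tendsto (fun k => ev (τ (x k)) A) U (𝓝 (ev ν A))) →
        ∃ u ∈ ν.support, u ∉ Y) := by
  classical
  obtain ⟨K, p, hKF, hKc, hKi, hpK, hcrowd⟩ := exists_crowded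
  let X : Set bW := orb p
  have hXK : X ⊆ K := by
    rintro _ ⟨g, rfl⟩
    exact hKi p hpK g
  have hXc : X.Countable := countable_orb p
  let C : Type := {τ : X → (bW →₀ ℝ) // Bad X τ}
  obtain ⟨UU, hUU, hUF⟩ := exists_free
  have hkill : ∀ c : C, ∃ x : ℕ → X, Function.Injective x ∧ (∀ n, c.1 (x n) ≠ 0) ∧
      ∃ z : Ultrafilter ℕ → bW,
      (∀ U V : Ultrafilter ℕ, U.bind (fun k => (x k : bW)) = V.bind (fun k => (x k : bW)) →
        U = V) ∧
      (∀ U V, Fr U → Fr V → z U = z V → U = V) ∧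
      (∀ U, Fr U → z U ∉ orb (U.bind fun k => (x k : bW))) ∧
      (∀ U, Fr U → ∀ ν : bW →₀ ℝ,
        (∀ A, Tendsto (fun k => ev (c.1 (x k)) A) U (𝓝 (ev ν A))) → z U ∈ ν.support) :=
    fun c => kill X c.1 c.2
  choose x hxinj hxne z hyinj hzinj hzorb hzsupp using hkill
  let y : C → Set (Set ℕ) → bW := fun c v => (UU v).bind fun k => (x c k : bW)
  let w : C → Set (Set ℕ) → bW := fun c v => z c (UU v)
  have hyinj' : ∀ c, Function.Injective (y c) := fun c v v' h => hUU (hyinj c _ _ h)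
  have hwinj' : ∀ c, Function.Injective (w c) := fun c v v' h =>
    hUU (hzinj c _ _ (hUF v) (hUF v') h)
  have hyK : ∀ c v, y c v ∈ K := fun c v => bind_mem_closed hKc _ (fun k => hXK (x c k).2) _
  obtain ⟨f, r, hr, hf⟩ := selection (C := C) (V := Set (Set ℕ))
    ((mk_subtype_le _).trans (card_codes X hXc)) card_V
    (fun c v c' v' => w c' v' ∈ orb (y c v) ∨ w c v ∈ orb (y c' v'))
    (by
      intro c c' v'
      have h1 : {v | w c' v' ∈ orb (y c v)} ⊆ (y c) ⁻¹' (orb (w c' v')) :=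
        fun v hv => orb_symm (hKF (hyK c v)) hv
      have h2 : ((y c) ⁻¹' (orb (w c' v'))).Countable :=
        (countable_orb _).preimage (hyinj' c)
      have h3 : {v | w c v ∈ orb (y c' v')}.Countable :=
        (countable_orb (y c' v')).preimage (hwinj' c)
      exact (h2.mono h1).union h3)
    (fun c => {v | w c v ∈ X}) (fun c => hXc.preimage (hwinj' c))
  let Y : Set bW := X ∪ ⋃ c, orb (y c (f c))
  have hYK : Y ⊆ K := by
    rintro u (hu | hu)
    · exact hXK hu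
    · obtain ⟨c, g, rfl⟩ := mem_iUnion.1 hu
      exact hKi _ (hyK c _) g
  have hwY : ∀ c, w c (f c) ∉ Y := by
    rintro c (h | h)
    · exact (hf c).1 h
    · obtain ⟨c', hc'⟩ := mem_iUnion.1 h
      by_cases hcc : c = c'
      · subst hcc
        exact hzorb c _ (hUF _) hc'
      · rcases hr c c' hcc with h1 | h1
        · exact (hf c').2 c h1 (Or.inl hc')
        · exact (hf c).2 c' h1 (Or.inr hc')
  refine ⟨X, Y, hXc, subset_union_left, hYK.trans hKF, orb_inv p, ?_, ⟨p, self_mem_orb p⟩,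
    fun u hu s hs => hcrowd u (hYK hu) s hs, ?_⟩
  · rintro u (hu | hu) g
    · exact Or.inl (orb_inv p u hu g)
    · obtain ⟨c, hc⟩ := mem_iUnion.1 hu
      exact Or.inr (mem_iUnion.2 ⟨c, orb_inv _ u hc g⟩)
  · intro τ hτ
    let c : C := ⟨τ, hτ⟩
    refine ⟨x c, UU (f c), hxinj c, hxne c, hUF _, ?_, ?_⟩
    · exact Or.inr (mem_iUnion.2 ⟨c, self_mem_orb _⟩)
    · intro ν hν
      exact ⟨w c (f c), hzsupp c _ (hUF _) ν hν, hwY c⟩

end Pool.Agent.Helper27.Sq
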