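import Pool.Agent.Helper27.SqFin

/-!
The space is homeomorphic to the sum of two copies of itself.
-/

set_option autoImplicit false

open Filter Topology Set

namespace Pool.Agent.Helper27.Sq

variable {X Y : Set bW}

/-- words beginning with `false` -/
def BB : Set W := {w | ∃ v, w = false :: v}

/-- the action as a self map of `Y` -/
def actY (h : Inv Y) (g : Gam) (u : Y) : Y := ⟨act g u, h u u.2 g⟩

theorem continuous_actY (h : Inv Y) (g : Gam) : Continuous (actY h g) :=
  ((continuous_act g).comp continuous_subtype_val).subtype_mk _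

/-- the map from the sum -/
def fwd (h : Inv Y) : Y ⊕ Y → Y := Sum.elim (actY h ([false], 0)) (actY h ([true], 0))

theorem continuous_fwd (h : Inv Y) : Continuous (fwd h) :=
  (continuous_actY h _).sumElim (continuous_actY h _)

open Classical in
/-- the map to the sum -/
noncomputable def bwd (h : Inv Y) (y : Y) : Y ⊕ Y :=
  if BB ∈ (y : bW) then Sum.inl (actY h ([], 1) y) else Sum.inr (actY h ([], 1) y)

theorem continuous_bwd (h : Inv Y) : Continuous (bwd h) := by
  rw [continuous_iff_continuousAt]
  intro y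
  by_cases hy : BB ∈ (y : bW)
  · have h1 : ContinuousAt (fun y => (Sum.inl (actY h ([], 1) y) : Y ⊕ Y)) y :=
      (continuous_inl.comp (continuous_actY h _)).continuousAt
    refine h1.congr ?_
    filter_upwards [(isClopen_Y (Y := Y) BB).isOpen.mem_nhds hy] with z hz
    unfold bwd
    rw [if_pos hz]
  · have h1 : ContinuousAt (fun y => (Sum.inr (actY h ([], 1) y) : Y ⊕ Y)) y :=
      (continuous_inr.comp (continuous_actY h _)).continuousAt
    refine h1.congr ?_
    filter_upwards [(isClopen_Y (Y := Y) BB).compl.isOpen.mem_nhds hy] with z hz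
    unfold bwd
    rw [if_neg (show BB ∉ (z : bW) from hz)]

theorem bwd_fwd (h : Inv Y) (u : Y ⊕ Y) : bwd h (fwd h u) = u := by
  have hact : ∀ (b : Bool) (u : Y), actY h ([], 1) (actY h ([b], 0) u) = u := by
    intro b u
    apply Subtype.ext
    change act ([], 1) (act ([b], 0) u) = u
    rw [act_act]
    have : gmul ([], 1) ([b], 0) = ([], 0) := by simp [gmul]
    rw [this, act_one]
  rcases u with u | u
  · have h1 : BB ∈ ((fwd h (Sum.inl u) : Y) : bW) := by
      change BB ∈ act ([false], 0) u
      rw [mem_act]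
      refine mem_of_superset (univ_mem) ?_
      intro w _
      exact ⟨w, by simp [gm]⟩
    unfold bwd
    rw [if_pos h1]
    exact congrArg Sum.inl (hact false u)
  · have h1 : BB ∉ ((fwd h (Sum.inr u) : Y) : bW) := by
      change BB ∉ act ([true], 0) u
      rw [mem_act]
      intro h2
      obtain ⟨w, v, hw⟩ := Ultrafilter.nonempty_of_mem h2
      simp [gm] at hw
    unfold bwd
    rw [if_neg h1]
    exact congrArg Sum.inr (hact true u)

theorem fwd_bwd (hF : Y ⊆ FF) (h : Inv Y) (y : Y) : fwd h (bwd h y) = y := by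
  have key : ∀ b : Bool, {w : W | ∃ v, w = b :: v} ∈ (y : bW) →
      actY h ([b], 0) (actY h ([], 1) y) = y := by
    intro b hb
    apply Subtype.ext
    change act ([b], 0) (act ([], 1) y) = y
    rw [act_act]
    have h1 : act (gmul ([b], 0) ([], 1)) (y : bW) = (y : bW).map id := by
      refine map_congr_mem hb ?_
      rintro w ⟨v, rfl⟩
      simp [gm, gmul]
    rw [h1, Ultrafilter.map_id]
  by_cases hy : BB ∈ (y : bW)
  · unfold bwd
    rw [if_pos hy]
    exact key false hy
  · unfold bwd
    rw [if_neg hy]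
    apply key true
    obtain ⟨d, hd, hd'⟩ := exists_digits (hF y.2) 1
    obtain ⟨b, rfl⟩ := List.length_eq_one_iff.1 hd
    cases b with
    | true => exact hd'
    | false => exact absurd hd' hy

theorem square (h : Good X Y) :
    ∃ (T : (Y ⊕ Y → ℝ) → (Y → ℝ)) (S : (Y → ℝ) → (Y ⊕ Y → ℝ)),
      (∀ f : Y ⊕ Y → ℝ, Continuous f → Continuous (T f)) ∧
      (∀ g : Y → ℝ, Continuous g → Continuous (S g)) ∧
      (∀ f : Y ⊕ Y → ℝ, Continuous f → S (T f) = f) ∧
      (∀ g : Y → ℝ, Continuous g → T (S g) = g) ∧
      (∀ (a : ℝ) (f₁ f₂ : Y ⊕ Y → ℝ), Continuous f₁ → Continuous f₂ →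
        T (a • f₁ + f₂) = a • T f₁ + T f₂) ∧
      ContinuousOn T {f : Y ⊕ Y → ℝ | Continuous f} ∧
      ContinuousOn S {g : Y → ℝ | Continuous g} := by
  refine ⟨fun f => f ∘ bwd h.invY, fun g => g ∘ fwd h.invY, fun f hf => hf.comp (continuous_bwd _),
    fun g hg => hg.comp (continuous_fwd _), ?_, ?_, fun a f g _ _ => rfl, ?_, ?_⟩
  · intro f _
    funext u
    simp only [Function.comp, bwd_fwd]
  · intro g _
    funext y
    simp only [Function.comp, fwd_bwd h.FFY]
  · exact (continuous_pi fun y => continuous_apply _).continuousOn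
  · exact (continuous_pi fun y => continuous_apply _).continuousOn

end Pool.Agent.Helper27.Sq
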